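import Pool.Agent.Lgp.Cont
import Pool.Agent.CTm.Main

/-!
# Finitely many slopes along an orbit
-/

namespace Pool.Agent.Lgp

open Pool.Agent.CTm Pool.Agent.Grm Filter Nat

/-- same slope, and translations which are congruent modulo slope times `L` -/
def SlRel (y : ℕ → ℤ) (L : ℕ) (g g' : Equiv.Perm ℤ) : Prop :=
  ∃ a b : ℚ × ℚ, Germ y g a ∧ Germ y g' b ∧ a.1 = b.1 ∧ ∃ k : ℤ, a.2 - b.2 = a.1 * L * k

variable {S : Set (Equiv.Perm ℤ)} {M : ℕ} {A : Finset (ℚ × ℚ)} {y : ℕ → ℤ}

/-- `h` is affine on the whole class of `g y` modulo `slope * L` -/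
theorem aff_class (hd : Data S M A) (hy : Pro y) {F : Finset ℚ}
    (hF : ∀ g ∈ Subgroup.closure S, ∀ a : ℚ × ℚ, Germ y g a → a.1 ∈ F) {L : ℕ}
    (hL : ∀ σ ∈ F, ∃ t : ℤ, σ * L = M * t) {g h : Equiv.Perm ℤ} (hg : g ∈ Subgroup.closure S)
    (hh : h ∈ Subgroup.closure S) {a : ℚ × ℚ} (ha : Germ y g a) :
    ∃ b : ℚ × ℚ, Germ y (h * g) b ∧ ∃ i : ℕ, ∀ n : ℤ, ((i ! : ℕ) : ℤ) ∣ n - y i → ∀ k m : ℤ,
      (m : ℚ) - g n = a.1 * L * k → ((h m : ℤ) : ℚ) - h (g n) = b.1 * L * k := by
  obtain ⟨l, hl, rfl⟩ := list_of_closure hh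
  clear hh
  induction l with
  | nil =>
    exact ⟨a, by simpa using ha, 0, fun n _ k m hm => by simpa using hm⟩
  | cons s l ih =>
    have hl' : ∀ x ∈ l, x ∈ S ∨ x⁻¹ ∈ S := fun x hx => hl x (by simp [hx])
    have hs := hl s (by simp)
    obtain ⟨b, hb, i, hi⟩ := ih hl'
    have hmem : l.prod * g ∈ Subgroup.closure S := mul_mem (list_mem hl') hg
    obtain ⟨t, ht⟩ := hL b.1 (hF _ hmem b hb)
    obtain ⟨c, hc, i', hi'⟩ := common_germ hd hy hmem hmem hs ⟨0, fun n _ => by simp⟩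
    obtain ⟨i1, h1⟩ := germ_cont hy hb M hd.pos
    obtain ⟨i2, h2⟩ := hb.deep hy
    -- the affine piece on the class modulo `M`
    obtain ⟨c', hc', hcc⟩ := hd.aff s hs ((l.prod * g) (y (max i' (max i1 (max i2 i)))))
    set I := max i' (max i1 (max i2 i)) with hI
    have hI1 : i' ≤ I := le_max_left _ _
    have hI2 : i1 ≤ I := (le_max_left _ _).trans (le_max_right _ _)
    have hI3 : i2 ≤ I := (le_max_left _ _).trans ((le_max_right _ _).trans (le_max_right _ _))
    have hI4 : i ≤ I := (le_max_right _ _).trans ((le_max_right _ _).trans (le_max_right _ _))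
    refine ⟨(c'.1 * b.1, c'.1 * b.2 + c'.2), ?_, I, fun n hn k m hm => ?_⟩
    · refine ⟨I, fun n hn => ?_⟩
      have e1 := hcc ((l.prod * g) n) (h1 I hI2 n hn)
      have e2 := h2 I hI3 n hn
      rw [List.prod_cons, mul_assoc, Equiv.Perm.mul_apply, e1, e2]
      ring
    · have e0 := hi n (pro_deep hy hI4 hn) k m hm
      rw [List.prod_cons]
      show ((s (l.prod m) : ℤ) : ℚ) - ((s (l.prod (g n)) : ℤ) : ℚ) = _
      have e1 := hcc ((l.prod * g) n) (h1 I hI2 n hn)
      rw [Equiv.Perm.mul_apply] at e1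
      have e3 : (M : ℤ) ∣ l.prod m - l.prod (g n) := by
        refine ⟨t * k, ?_⟩
        have e4 : ((l.prod m - l.prod (g n) : ℤ) : ℚ) = (((M : ℤ) * (t * k) : ℤ) : ℚ) := by
          push_cast
          rw [e0, ht]
          ring
        exact_mod_cast e4
      have e5 := hcc (l.prod m) (by
        have e6 : l.prod m - (l.prod * g) (y I) =
            (l.prod m - l.prod (g n)) + ((l.prod * g) n - (l.prod * g) (y I)) := by
          rw [Equiv.Perm.mul_apply, Equiv.Perm.mul_apply]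
          ring
        rw [e6]
        exact dvd_add e3 (h1 I hI2 n hn))
      rw [e5, e1]
      linear_combination c'.1 * e0

theorem slRel_good (hd : Data S M A) (hCT : ∀ s ∈ S, s ∈ CT) (hy : Pro y) {F : Finset ℚ}
    (hF : ∀ g ∈ Subgroup.closure S, ∀ a : ℚ × ℚ, Germ y g a → a.1 ∈ F) {L P : ℕ}
    (hL : ∀ σ ∈ F, ∃ t : ℤ, σ * L = M * t) (hL0 : 0 < L) (hP0 : 0 < P)
    (hP : ∀ σ ∈ F, ∃ t : ℤ, (P : ℚ) = σ * L * t) : GoodRel S y (SlRel y L) := by
  constructor
  · intro g hg
    obtain ⟨a, _, ha⟩ := exists_germ hd hy hg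
    exact ⟨a, a, ha, ha, rfl, 0, by simp⟩
  · rintro g _ g' _ ⟨a, b, ha, hb, hab, k, hk⟩
    exact ⟨b, a, hb, ha, hab.symm, -k, by rw [← hab]; push_cast; linear_combination -hk⟩
  · rintro g _ g' _ g'' _ ⟨a, b, ha, hb, hab, k, hk⟩ ⟨b', c, hb', hc, hbc, k', hk'⟩
    have := Germ.unique hy hb' hb
    subst this
    refine ⟨a, c, ha, hc, hab.trans hbc, k + k', ?_⟩
    rw [← hab] at hk'
    push_cast
    linear_combination hk + hk'
  · -- finitely many classes
    classical
    have hex : ∀ g ∈ Subgroup.closure S, ∃ r : ZMod P, ∃ i : ℕ, ∀ n : ℤ,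
        ((i ! : ℕ) : ℤ) ∣ n - y i → ((g n : ℤ) : ZMod P) = r := fun g hg =>
      exists_resid hd hy hg P hP0
    choose! r hr using hex
    have hex2 : ∀ g ∈ Subgroup.closure S, ∃ a : ℚ × ℚ, Germ y g a := fun g hg => by
      obtain ⟨a, _, ha⟩ := exists_germ hd hy hg
      exact ⟨a, ha⟩
    choose! a ha using hex2
    have : NeZero P := ⟨hP0.ne'⟩
    refine ⟨Option F × ZMod P, inferInstance, fun g =>
      (if h : (a g).1 ∈ F then some ⟨(a g).1, h⟩ else none, r g), ?_⟩
    intro g hg g' hg' h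
    rw [Prod.mk.injEq] at h
    obtain ⟨h1, h2⟩ := h
    have m1 := hF g hg _ (ha g hg)
    have m2 := hF g' hg' _ (ha g' hg')
    rw [dif_pos m1, dif_pos m2] at h1
    have h3 : (a g).1 = (a g').1 := by simpa using h1
    refine ⟨a g, a g', ha g hg, ha g' hg', h3, ?_⟩
    obtain ⟨i, hi⟩ := hr g hg
    obtain ⟨i', hi'⟩ := hr g' hg'
    obtain ⟨j, hj⟩ := (ha g hg).deep hy
    obtain ⟨j', hj'⟩ := (ha g' hg').deep hy
    set I := max (max i i') (max j j') with hI
    have hn : ((I ! : ℕ) : ℤ) ∣ y I - y I := by simp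
    have e1 := hi (y I) (pro_deep hy ((le_max_left _ _).trans (le_max_left _ _)) hn)
    have e2 := hi' (y I) (pro_deep hy ((le_max_right _ _).trans (le_max_left _ _)) hn)
    have e3 := hj I ((le_max_left _ _).trans (le_max_right _ _)) (y I) hn
    have e4 := hj' I ((le_max_right _ _).trans (le_max_right _ _)) (y I) hn
    have e5 : ((P : ℕ) : ℤ) ∣ g (y I) - g' (y I) := by
      rw [← ZMod.intCast_zmod_eq_zero_iff_dvd, Int.cast_sub, e1, e2, h2, sub_self]
    obtain ⟨q, hq⟩ := e5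
    obtain ⟨t, ht⟩ := hP _ m1
    refine ⟨t * q, ?_⟩
    have e6 : ((g (y I) - g' (y I) : ℤ) : ℚ) = (((P : ℕ) : ℤ) * q : ℤ) := by rw [hq]
    push_cast at e6 ⊢
    rw [e3, e4, ht, h3] at e6
    rw [h3]
    linear_combination e6
  · rintro s hs g hg g' hg' ⟨a, b, ha, hb, hab, k, hk⟩
    obtain ⟨i, hi⟩ := ha.deep hy
    obtain ⟨j, hj⟩ := hb.deep hy
    obtain ⟨t, ht⟩ := hL _ (hF g hg a ha)
    obtain ⟨c, _, i', hi'⟩ := common_germ hd hy hg hg' hs ⟨max i j, fun n hn => by
      have e1 := hi (max i j) (le_max_left _ _) n hn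
      have e2 := hj (max i j) (le_max_right _ _) n hn
      refine ⟨t * k, ?_⟩
      have e3 : ((g n - g' n : ℤ) : ℚ) = (((M : ℤ) * (t * k) : ℤ) : ℚ) := by
        push_cast
        rw [e1, e2]
        linear_combination (n : ℚ) * hab + hk + (k : ℚ) * ht
      exact_mod_cast e3⟩
    set I := max i' (max i j) with hI
    refine ⟨(c.1 * a.1, c.1 * a.2 + c.2), (c.1 * b.1, c.1 * b.2 + c.2), ⟨I, fun n hn => ?_⟩,
      ⟨I, fun n hn => ?_⟩, by simp only [hab], k, by simp only; linear_combination c.1 * hk⟩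
    · have e1 := hi I ((le_max_left _ _).trans (le_max_right _ _)) n hn
      have e2 := (hi' n (pro_deep hy (le_max_left _ _) hn)).1
      rw [Equiv.Perm.mul_apply, e2, e1]
      ring
    · have e1 := hj I ((le_max_right _ _).trans (le_max_right _ _)) n hn
      have e2 := (hi' n (pro_deep hy (le_max_left _ _) hn)).2
      rw [Equiv.Perm.mul_apply, e2, e1]
      ring
  · rintro s hs g hg g' hg' ⟨a, b, ha, hb, hab, k, hk⟩
    obtain ⟨i, hi⟩ := ha.deep hy
    obtain ⟨j, hj⟩ := hb.deep hy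
    obtain ⟨t, ht⟩ := hL _ (hF g hg a ha)
    obtain ⟨c, _, i', hi'⟩ := common_germ hd hy hg hg' hs ⟨max i j, fun n hn => by
      have e1 := hi (max i j) (le_max_left _ _) n hn
      have e2 := hj (max i j) (le_max_right _ _) n hn
      refine ⟨t * k, ?_⟩
      have e3 : ((g n - g' n : ℤ) : ℚ) = (((M : ℤ) * (t * k) : ℤ) : ℚ) := by
        push_cast
        rw [e1, e2]
        linear_combination (n : ℚ) * hab + hk + (k : ℚ) * ht
      exact_mod_cast e3⟩
    exact ⟨c, ⟨i', fun n hn => (hi' n hn).1⟩, ⟨i', fun n hn => (hi' n hn).2⟩⟩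
  · rintro h hh g hg ⟨a, b, ha, hb, hab, k, hk⟩ τ hτ
    have hhCT : h ∈ CT := by
      have h1 : Subgroup.closure S ≤ CT := by
        rw [Subgroup.closure_le]
        exact hCT
      exact h1 hh
    have hsign := sign_CT hhCT
    have hb0 : 0 < b.1 := by
      obtain ⟨b', hb', hb''⟩ := exists_germ hd hy hg
      rwa [← Germ.unique hy hb'' hb]
    -- the class
    obtain ⟨c, hc, i, hi⟩ := aff_class hd hy hF hL hg hh hb
    have hca := Germ.unique hy hc ha
    obtain ⟨i1, h1⟩ := hτ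
    obtain ⟨i2, h2⟩ := ha.deep hy
    obtain ⟨i3, h3⟩ := hb.deep hy
    set I := max (max i i1) (max i2 i3) with hI
    have hn : ((I ! : ℕ) : ℤ) ∣ y I - y I := by simp
    have e1 := h1 (y I) (pro_deep hy ((le_max_right _ _).trans (le_max_left _ _)) hn)
    have e2 := h2 I ((le_max_left _ _).trans (le_max_right _ _)) (y I) hn
    have e3 := h3 I ((le_max_right _ _).trans (le_max_right _ _)) (y I) hn
    have e0 := hi (y I) (pro_deep hy ((le_max_left _ _).trans (le_max_left _ _)) hn)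
    rw [Equiv.Perm.mul_apply] at e2
    -- the modulus of the class
    obtain ⟨t, ht⟩ := hL _ (hF g hg b hb)
    set w : ℤ := M * t with hw
    have hwq : b.1 * L = (w : ℚ) := by rw [ht, hw]; push_cast; ring
    have hw0 : 0 < w := by
      have : (0 : ℚ) < w := by
        rw [← hwq]
        have : (0 : ℚ) < L := by exact_mod_cast hL0
        positivity
      exact_mod_cast this
    -- `τ = w k`
    have hτk : τ = w * k := by
      have e4 : τ = a.2 - b.2 := by
        rw [e2, e3] at e1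
        rw [hab] at e1
        linear_combination -e1
      rw [e4, hk, hab, hwq]
    -- translation of the class
    have htr : ∀ q : ℤ, h (g (y I) + w * q) = g (y I) + w * q + w * k := by
      intro q
      have e5 := e0 q (g (y I) + w * q) (by push_cast; rw [hwq]; ring)
      rw [hca, hab, hwq, e1, hτk] at e5
      have e6 : ((h (g (y I) + w * q) : ℤ) : ℚ) = ((g (y I) + w * q + w * k : ℤ) : ℚ) := by
        push_cast
        linear_combination e5
      exact_mod_cast e6
    have hk0 : k = 0 := by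
      by_contra hk0
      rcases lt_or_gt_of_ne hk0 with hneg | hpos
      · -- smallest nonnegative element of the class
        have f1 := htr (-(g (y I) / w))
        have f2 : 0 ≤ g (y I) + w * -(g (y I) / w) := by
          have := Int.emod_add_mul_ediv (g (y I)) w
          have := Int.emod_nonneg (g (y I)) hw0.ne'
          linarith
        have f3 : g (y I) + w * -(g (y I) / w) < w := by
          have := Int.emod_add_mul_ediv (g (y I)) w
          have := Int.emod_lt_of_pos (g (y I)) hw0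
          linarith
        have f4 := (hsign _).2 f2
        rw [f1] at f4
        nlinarith
      · have f1 := htr (-(g (y I) / w) - 1)
        have f2 : g (y I) + w * (-(g (y I) / w) - 1) < 0 := by
          have := Int.emod_add_mul_ediv (g (y I)) w
          have := Int.emod_lt_of_pos (g (y I)) hw0
          linarith
        have f3 : -w ≤ g (y I) + w * (-(g (y I) / w) - 1) := by
          have := Int.emod_add_mul_ediv (g (y I)) w
          have := Int.emod_nonneg (g (y I)) hw0.ne'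
          linarith
        have f4 : 0 ≤ h (g (y I) + w * (-(g (y I) / w) - 1)) := by
          rw [f1]
          nlinarith
        have f5 := (hsign _).1 f4
        linarith
    rw [hτk, hk0]
    simp

/-- common multiples -/
theorem exists_mult (F : Finset ℚ) (hF : ∀ σ ∈ F, 0 < σ) (M : ℕ) (hM : 0 < M) :
    ∃ L P : ℕ, 0 < L ∧ 0 < P ∧ (∀ σ ∈ F, ∃ t : ℤ, σ * L = M * t) ∧
      ∀ σ ∈ F, ∃ t : ℤ, (P : ℚ) = σ * L * t := by
  classical
  set D : ℕ := ∏ σ ∈ F, σ.den with hD
  set N : ℕ := ∏ σ ∈ F, σ.num.natAbs with hN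
  have hD0 : 0 < D := Finset.prod_pos fun σ _ => σ.den_pos
  have hN0 : 0 < N := Finset.prod_pos fun σ hσ => Int.natAbs_pos.2 (Rat.num_pos.2 (hF σ hσ)).ne'
  refine ⟨M * D, N * (M * D), Nat.mul_pos hM hD0, Nat.mul_pos hN0 (Nat.mul_pos hM hD0), ?_, ?_⟩
  · intro σ hσ
    obtain ⟨c, hc⟩ : σ.den ∣ D := Finset.dvd_prod_of_mem _ hσ
    refine ⟨σ.num * c, ?_⟩
    have h1 : σ * (σ.den : ℚ) = σ.num := Rat.mul_den_eq_num σ
    rw [hc]
    push_cast
    linear_combination (M : ℚ) * c * h1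
  · intro σ hσ
    obtain ⟨c, hc⟩ : σ.num.natAbs ∣ N := Finset.dvd_prod_of_mem (fun σ : ℚ => σ.num.natAbs) hσ
    have hnum : 0 < σ.num := Rat.num_pos.2 (hF σ hσ)
    have h2 : ((σ.num.natAbs : ℕ) : ℤ) = σ.num := Int.natAbs_of_nonneg hnum.le
    have h3 : ((σ.num.natAbs : ℕ) : ℚ) = σ.num := by
      have h4 : (((σ.num.natAbs : ℕ) : ℤ) : ℚ) = σ.num := congrArg (fun z : ℤ => (z : ℚ)) h2
      simpa using h4
    have h1 : σ * (σ.den : ℚ) = σ.num := Rat.mul_den_eq_num σ
    refine ⟨c * σ.den, ?_⟩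
    rw [hc]
    push_cast
    rw [h3]
    linear_combination -((M : ℚ) * D * c) * h1

theorem locAb_of_finSlopes (S : Finset (Equiv.Perm ℤ)) (hS : ∀ s ∈ S, s ∈ CT) (hy : Pro y)
    (h : FinSlopes (Subgroup.closure (S : Set (Equiv.Perm ℤ))) y) :
    LocAb (Subgroup.closure (S : Set (Equiv.Perm ℤ))) y := by
  classical
  obtain ⟨F, hF⟩ := h
  obtain ⟨M, A, hd⟩ := Pool.Agent.Grm.exists_data S hS
  obtain ⟨L, P, hL0, hP0, hL, hP⟩ := exists_mult (F.filter fun σ => 0 < σ)
    (fun σ hσ => (Finset.mem_filter.1 hσ).2) M hd.pos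
  refine (slRel_good hd (fun s hs => hS s hs) hy (F := F.filter fun σ => 0 < σ) ?_ hL hL0 hP0 hP).locAb hy
  intro g hg a ha
  refine Finset.mem_filter.2 ⟨hF g hg a ha, ?_⟩
  obtain ⟨b, hb, hb'⟩ := exists_germ hd hy hg
  rwa [← Germ.unique hy hb' ha]

end Pool.Agent.Lgp
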