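import Pool.Agent.Grm.Defs

/-!
# Orbits and germs along orbits
-/

namespace Pool.Agent.Lgp

open Pool.Agent.CTm Pool.Agent.Grm Nat

/-- `y` is in the closure of the orbit of `x` (profinite integers) -/
def Clo (H : Subgroup (Equiv.Perm ℤ)) (x y : ℕ → ℤ) : Prop :=
  ∀ j : ℕ, ∃ h ∈ H, ∃ i : ℕ, ∀ n : ℤ, ((i ! : ℕ) : ℤ) ∣ n - x i → ((j ! : ℕ) : ℤ) ∣ h n - y j

/-- `c` is the identity near the point `g y` -/
def NearId (y : ℕ → ℤ) (g c : Equiv.Perm ℤ) : Prop :=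
  ∃ i : ℕ, ∀ n : ℤ, ((i ! : ℕ) : ℤ) ∣ n - y i → c (g n) = g n

/-- the germs of `H` along the orbit of `y` form a virtually abelian groupoid: there is a subgroup `K` of finite
index in `H` such that the commutators of elements of `K` are the identity near every point of the orbit -/
def LocAb (H : Subgroup (Equiv.Perm ℤ)) (y : ℕ → ℤ) : Prop :=
  ∃ K : Subgroup (Equiv.Perm ℤ), K ≤ H ∧ (K.subgroupOf H).FiniteIndex ∧
    ∀ a ∈ K, ∀ b ∈ K, ∀ g ∈ H, NearId y g (a * b * a⁻¹ * b⁻¹)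

/-- the slopes of the germs at `y` of the elements of `H` take finitely many values -/
def FinSlopes (H : Subgroup (Equiv.Perm ℤ)) (y : ℕ → ℤ) : Prop :=
  ∃ F : Finset ℚ, ∀ g ∈ H, ∀ a : ℚ × ℚ, Germ y g a → a.1 ∈ F

/-- the slopes of `f` on the residue classes of some modulus are quotients of divisors of powers of `m` -/
def SlopeUnit (m : ℕ) (f : Equiv.Perm ℤ) : Prop :=
  ∃ M : ℤ, 0 < M ∧ ∀ n : ℤ, ∃ u v e : ℕ, u ∣ m ^ e ∧ v ∣ m ^ e ∧
    ∀ k : ℤ, (v : ℤ) * (f (n + M * k) - f n) = u * (M * k)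

/-- the orbit of `y` in the `m`-adic integers is finite: there are finitely many sequences `z c` such that for
every `g ∈ H` some `z c j` is the residue of `g y` modulo `m ^ j` for all `j` -/
def FinOrb (m : ℕ) (H : Subgroup (Equiv.Perm ℤ)) (y : ℕ → ℤ) : Prop :=
  ∃ (k : ℕ) (z : Fin k → ℕ → ℤ), ∀ g ∈ H, ∃ c : Fin k, ∀ j : ℕ, ∃ i : ℕ, ∀ n : ℤ,
    ((i ! : ℕ) : ℤ) ∣ n - y i → ((m ^ j : ℕ) : ℤ) ∣ g n - z c j

end Pool.Agent.Lgp
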