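import Pool.Agent.Lgp.Fg
import Pool.Agent.Lgp.Defs
import Pool.Agent.Grm.GermA

/-!
# The local-global principle
-/

namespace Pool.Agent.Lgp

open Pool.Agent.CTm Pool.Agent.Grm Filter Nat

private theorem fdvd {a b : ℕ} (h : a ∣ b) : ((a : ℕ) : ℤ) ∣ ((b : ℕ) : ℤ) :=
  Int.natCast_dvd_natCast.2 h

theorem pro_deep {x : ℕ → ℤ} (hx : Pro x) {i j : ℕ} (hij : i ≤ j) {n : ℤ}
    (hn : ((j ! : ℕ) : ℤ) ∣ n - x j) : ((i ! : ℕ) : ℤ) ∣ n - x i := by
  have h1 := (fdvd (Nat.factorial_dvd_factorial hij)).trans hn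
  have h2 := Pro.coh hx hij
  have h3 : n - x i = (n - x j) + (x j - x i) := by ring
  rw [h3]
  exact dvd_add h1 h2

/-- a finitely generated group of elements which are the identity near `y`: there is a common class -/
theorem common_class {y : ℕ → ℤ} (hy : Pro y) {V : Subgroup (Equiv.Perm ℤ)} (hV : V.FG)
    (h : ∀ v ∈ V, FixNear y v) :
    ∃ J : ℕ, ∀ v ∈ V, ∀ n : ℤ, ((J ! : ℕ) : ℤ) ∣ n - y J → v n = n := by
  classical
  obtain ⟨T, hT⟩ := hV
  have hTV : ∀ u ∈ T, u ∈ V := by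
    intro u hu
    rw [← hT]
    exact Subgroup.subset_closure hu
  choose! lev hlev using h
  refine ⟨T.sup lev, fun v hv => ?_⟩
  rw [← hT] at hv
  induction hv using Subgroup.closure_induction with
  | mem v hv =>
    intro n hn
    exact hlev v (hTV v hv) n (pro_deep hy (Finset.le_sup (f := lev) hv) hn)
  | one => intro n _; rfl
  | mul a b _ _ ha hb =>
    intro n hn
    show a (b n) = n
    rw [hb n hn, ha n hn]
  | inv a _ ha =>
    intro n hn
    have h1 := ha n hn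
    calc a⁻¹ n = a⁻¹ (a n) := by rw [h1]
      _ = n := a.symm_apply_apply n

/-- the normal core: a normal finite index subgroup -/
theorem exists_core {H K : Subgroup (Equiv.Perm ℤ)} (hfi : (K.subgroupOf H).FiniteIndex) :
    ∃ L : Subgroup (Equiv.Perm ℤ), L ≤ K ∧ L ≤ H ∧ (L.subgroupOf H).FiniteIndex ∧
      ∀ h ∈ H, ∀ l ∈ L, h * l * h⁻¹ ∈ L := by
  have := hfi
  refine ⟨(K.subgroupOf H).normalCore.map H.subtype, ?_, ?_, ?_, ?_⟩
  · rintro _ ⟨l, hl, rfl⟩
    have h1 := Subgroup.normalCore_le _ hl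
    rw [Subgroup.mem_subgroupOf] at h1
    exact h1
  · rintro _ ⟨l, _, rfl⟩
    exact l.2
  · have h1 : ((K.subgroupOf H).normalCore.map H.subtype).subgroupOf H =
        (K.subgroupOf H).normalCore := by
      unfold Subgroup.subgroupOf
      exact Subgroup.comap_map_eq_self_of_injective H.subtype_injective _
    rw [h1]
    infer_instance
  · rintro h hh _ ⟨l, hl, rfl⟩
    refine ⟨⟨h, hh⟩ * l * ⟨h, hh⟩⁻¹, ?_, rfl⟩
    exact (Subgroup.normalCore_normal _).conj_mem l hl ⟨h, hh⟩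

/-- a finite index subgroup of a finitely generated group is finitely generated -/
theorem fg_of_fi {H K : Subgroup (Equiv.Perm ℤ)} (hH : H.FG) (hKH : K ≤ H)
    (hfi : (K.subgroupOf H).FiniteIndex) : K.FG := by
  have := hfi
  have : Group.FG H := (Group.fg_iff_subgroup_fg H).2 hH
  have : Group.FG (K.subgroupOf H) := Subgroup.fg_of_index_ne_zero _
  have h1 : (K.subgroupOf H).FG := (Group.fg_iff_subgroup_fg _).1 inferInstance
  have h3 : (K.subgroupOf H).map H.subtype = K := by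
    rw [Subgroup.subgroupOf_map_subtype]
    exact inf_eq_left.2 hKH
  obtain ⟨T, hT⟩ := h1
  classical
  refine ⟨T.image H.subtype, ?_⟩
  rw [Finset.coe_image, ← MonoidHom.map_closure, hT, h3]

/-- the commutators of a finite index subgroup vanish on the class `r + j! ℤ` -/
def Good (H : Subgroup (Equiv.Perm ℤ)) (r : ℤ) (j : ℕ) : Prop :=
  ∃ K : Subgroup (Equiv.Perm ℤ), K ≤ H ∧ (K.subgroupOf H).FiniteIndex ∧
    ∀ a ∈ K, ∀ b ∈ K, ∀ n : ℤ, ((j ! : ℕ) : ℤ) ∣ n - r → (a * b * a⁻¹ * b⁻¹) n = n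

/-- (1), (2): transport from `y` to `x` -/
theorem good_of_locAb {S : Finset (Equiv.Perm ℤ)} (hexp : NoExp (S : Set (Equiv.Perm ℤ)))
    {x y : ℕ → ℤ} (hy : Pro y) (hxy : Clo (Subgroup.closure (S : Set (Equiv.Perm ℤ))) x y)
    (h : LocAb (Subgroup.closure (S : Set (Equiv.Perm ℤ))) y) :
    ∃ i : ℕ, Good (Subgroup.closure (S : Set (Equiv.Perm ℤ))) (x i) i := by
  set H := Subgroup.closure (S : Set (Equiv.Perm ℤ)) with hH
  obtain ⟨K, hKH, hfi, hK⟩ := h
  obtain ⟨L, hLK, hLH, hLfi, hLn⟩ := exists_core hfi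
  have hHfg : H.FG := ⟨S, rfl⟩
  have hLfg : L.FG := fg_of_fi hHfg hLH hLfi
  -- `V = L ∩ N`
  let V : Subgroup (Equiv.Perm ℤ) :=
    { carrier := {v | v ∈ L ∧ ∀ g ∈ H, NearId y g v}
      one_mem' := ⟨one_mem _, fun g _ => ⟨0, fun n _ => rfl⟩⟩
      mul_mem' := by
        rintro a b ⟨ha, ha'⟩ ⟨hb, hb'⟩
        refine ⟨mul_mem ha hb, fun g hg => ?_⟩
        obtain ⟨i, hi⟩ := ha' g hg
        obtain ⟨j, hj⟩ := hb' g hg
        refine ⟨max i j, fun n hn => ?_⟩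
        show a (b (g n)) = g n
        rw [hj n (pro_deep hy (le_max_right _ _) hn), hi n (pro_deep hy (le_max_left _ _) hn)]
      inv_mem' := by
        rintro a ⟨ha, ha'⟩
        refine ⟨inv_mem ha, fun g hg => ?_⟩
        obtain ⟨i, hi⟩ := ha' g hg
        refine ⟨i, fun n hn => ?_⟩
        calc a⁻¹ (g n) = a⁻¹ (a (g n)) := by rw [hi n hn]
          _ = g n := a.symm_apply_apply _ }
  have hVL : V ≤ L := fun v hv => hv.1
  have hVfg : V.FG := by
    refine coabelian_fg S.finite_toSet hexp hLfg (hLH.trans hH.le) hVL ?_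
    intro a ha b hb
    exact ⟨mul_mem (mul_mem (mul_mem ha hb) (inv_mem ha)) (inv_mem hb),
      fun g hg => hK a (hLK ha) b (hLK hb) g hg⟩
  obtain ⟨J, hJ⟩ := common_class hy hVfg (fun v hv => by
    obtain ⟨i, hi⟩ := hv.2 1 (one_mem _)
    exact ⟨i, hi⟩)
  obtain ⟨h, hh, i, hi⟩ := hxy J
  refine ⟨i, L, hLH, hLfi, fun a ha b hb n hn => ?_⟩
  -- the commutator of the conjugates is in `V`
  have h1 : h * (a * b * a⁻¹ * b⁻¹) * h⁻¹ ∈ V := by
    have e1 : h * (a * b * a⁻¹ * b⁻¹) * h⁻¹ =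
        (h * a * h⁻¹) * (h * b * h⁻¹) * (h * a * h⁻¹)⁻¹ * (h * b * h⁻¹)⁻¹ := by group
    rw [e1]
    have ha' := hLn h hh a ha
    have hb' := hLn h hh b hb
    exact ⟨mul_mem (mul_mem (mul_mem ha' hb') (inv_mem ha')) (inv_mem hb'),
      fun g hg => hK _ (hLK ha') _ (hLK hb') g hg⟩
  have h2 := hJ _ h1 (h n) (hi n hn)
  have h3 : h ((a * b * a⁻¹ * b⁻¹) n) = h n := by
    have e2 : (h * (a * b * a⁻¹ * b⁻¹) * h⁻¹) (h n) = h ((a * b * a⁻¹ * b⁻¹) n) := by
      simp [Equiv.Perm.mul_apply]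
    rw [← e2]
    exact h2
  exact h.injective h3

/-- (3): the tree of classes -/
theorem good_step {H : Subgroup (Equiv.Perm ℤ)} {r : ℤ} {j : ℕ}
    (h : ∀ k ∈ Finset.range (j + 1), Good H (r + ((j ! : ℕ) : ℤ) * k) (j + 1)) : Good H r j := by
  classical
  choose! K h1 h2 h3 using h
  refine ⟨H ⊓ (Finset.range (j + 1)).inf K, inf_le_left, ?_, ?_⟩
  · have e1 : (H ⊓ (Finset.range (j + 1)).inf K).subgroupOf H =
        ⨅ k ∈ Finset.range (j + 1), (K k).subgroupOf H := by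
      ext u
      simp only [Subgroup.mem_subgroupOf, Subgroup.mem_inf, Subgroup.mem_iInf]
      constructor
      · rintro ⟨_, hu⟩ k hk
        exact (Finset.inf_le hk : (Finset.range (j + 1)).inf K ≤ K k) hu
      · intro hu
        refine ⟨u.2, ?_⟩
        rw [Finset.inf_eq_iInf]
        simp only [Subgroup.mem_iInf]
        exact hu
    rw [e1]
    exact Subgroup.finiteIndex_iInf' _ fun k hk => h2 k hk
  · rintro a ⟨_, ha⟩ b ⟨_, hb⟩ n hn
    -- the class of `n`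
    obtain ⟨q, hq⟩ := hn
    have hj1 : (0 : ℤ) < ((j + 1 : ℕ) : ℤ) := by positivity
    have hk : (q % ((j + 1 : ℕ) : ℤ)).toNat ∈ Finset.range (j + 1) := by
      rw [Finset.mem_range]
      have h4 := Int.emod_lt_of_pos q hj1
      have h5 := Int.emod_nonneg q hj1.ne'
      omega
    have hkc : (((q % ((j + 1 : ℕ) : ℤ)).toNat : ℕ) : ℤ) = q % ((j + 1 : ℕ) : ℤ) :=
      Int.toNat_of_nonneg (Int.emod_nonneg q hj1.ne')
    refine h3 _ hk a ((Finset.inf_le hk : (Finset.range (j + 1)).inf K ≤ _) ha) b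
      ((Finset.inf_le hk : (Finset.range (j + 1)).inf K ≤ _) hb) n ?_
    rw [hkc, Nat.factorial_succ]
    refine ⟨q / ((j + 1 : ℕ) : ℤ), ?_⟩
    have h6 := Int.emod_add_mul_ediv q ((j + 1 : ℕ) : ℤ)
    push_cast at h6 ⊢
    linear_combination hq - ((j ! : ℕ) : ℤ) * h6

/-- (3): compactness -/
theorem good_zero {H : Subgroup (Equiv.Perm ℤ)}
    (h : ∀ x : ℕ → ℤ, Pro x → ∃ i : ℕ, Good H (x i) i) : Good H 0 0 := by
  classical
  by_contra h0
  have hstep : ∀ (j : ℕ) (r : ℤ), ¬ Good H r j → ∃ k : ℕ, ¬ Good H (r + ((j ! : ℕ) : ℤ) * k) (j + 1) := by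
    intro j r hr
    by_contra h1
    push Not at h1
    exact hr (good_step fun k _ => h1 k)
  choose! f hf using hstep
  let x : ℕ → ℤ := fun j => Nat.rec 0 (fun j r => r + ((j ! : ℕ) : ℤ) * f j r) j
  have hx0 : x 0 = 0 := rfl
  have hxs : ∀ j, x (j + 1) = x j + ((j ! : ℕ) : ℤ) * f j (x j) := fun j => rfl
  have hx : Pro x := by
    intro j
    rw [hxs]
    exact ⟨f j (x j), by ring⟩
  have hbad : ∀ j, ¬ Good H (x j) j := by
    intro j
    induction j with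
    | zero => rw [hx0]; exact h0
    | succ j ih =>
      rw [hxs]
      exact hf j (x j) ih
  obtain ⟨i, hi⟩ := h x hx
  exact hbad i hi

/-- the local-global principle -/
theorem local_global (S : Finset (Equiv.Perm ℤ))
    (h : ∀ x : ℕ → ℤ, Pro x → ∃ y : ℕ → ℤ, Pro y ∧
      Clo (Subgroup.closure (S : Set (Equiv.Perm ℤ))) x y ∧
      LocAb (Subgroup.closure (S : Set (Equiv.Perm ℤ))) y) :
    (∃ A : Subgroup (Equiv.Perm ℤ), A ≤ Subgroup.closure (S : Set (Equiv.Perm ℤ)) ∧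
      (A.subgroupOf (Subgroup.closure (S : Set (Equiv.Perm ℤ)))).FiniteIndex ∧
      ∀ a ∈ A, ∀ b ∈ A, a * b = b * a) ∨
    ∃ c : ℝ, 1 < c ∧ ∀ᶠ n : ℕ in atTop, c ^ n ≤ growth (S : Set (Equiv.Perm ℤ)) n := by
  by_cases hexp : ∃ c : ℝ, 1 < c ∧ ∀ᶠ n : ℕ in atTop, c ^ n ≤ growth (S : Set (Equiv.Perm ℤ)) n
  · exact Or.inr hexp
  · left
    obtain ⟨K, h1, h2, h3⟩ := good_zero fun x hx => by
      obtain ⟨y, hy, hxy, hl⟩ := h x hx
      exact good_of_locAb hexp hy hxy hl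
    refine ⟨K, h1, h2, fun a ha b hb => ?_⟩
    have h4 : a * b * a⁻¹ * b⁻¹ = 1 := by
      ext n
      rw [h3 a ha b hb n (by simp)]
      rfl
    have h5 : a * b = (a * b * a⁻¹ * b⁻¹) * (b * a) := by group
    rw [h5, h4, one_mul]

end Pool.Agent.Lgp
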