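import Pool.Agent.Lgp.Cnt
import Pool.Agent.Lgp.Core

/-!
# The germs at a recurrent point are virtually abelian
-/

namespace Pool.Agent.Lgp

open Pool.Agent.CTm Pool.Agent.Grm Filter Nat Topology

variable {S : Set (Equiv.Perm ℤ)} {M : Set (Ultrafilter ℤ)} {M0 : ℕ} {A : Finset (ℚ × ℚ)}
  {F : Finset ℚ} {a b L1 L2 : ℕ}

theorem act_of_gm {u : Ultrafilter ℤ} {f : Equiv.Perm ℤ} (h : Gm u f (1, 0)) : act f u = u := by
  obtain ⟨r, Q, _, h1, h2⟩ := h
  have h3 : ∀ n ∈ cl r Q, f n = n := by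
    intro n hn
    have := h2 n hn
    simp only [one_mul, add_zero] at this
    exact_mod_cast this
  apply Ultrafilter.ext
  intro B
  rw [mem_act]
  constructor
  · intro hB
    refine mem_of_superset (inter_mem hB h1) ?_
    rintro n ⟨hn1, hn2⟩
    have : f n ∈ B := hn1
    rwa [h3 n hn2] at this
  · intro hB
    refine mem_of_superset (inter_mem hB h1) ?_
    rintro n ⟨hn1, hn2⟩
    change f n ∈ B
    rwa [h3 n hn2]

theorem Gm.mul_id {u : Ultrafilter ℤ} {f g : Equiv.Perm ℤ} (hf : Gm u f (1, 0))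
    (hg : Gm u g (1, 0)) : Gm u (f * g) (1, 0) := by
  have h1 : Gm (act g u) f (1, 0) := by rw [act_of_gm hg]; exact hf
  have h2 := hg.comp h1
  simpa using h2

theorem Gm.inv_id {u : Ultrafilter ℤ} {f : Equiv.Perm ℤ} (hf : Gm u f (1, 0)) :
    Gm u f⁻¹ (1, 0) := by
  obtain ⟨r, Q, hQ, h1, h2⟩ := hf
  refine ⟨r, Q, hQ, h1, fun n hn => ?_⟩
  have h3 := h2 n hn
  simp only [one_mul, add_zero] at h3 ⊢
  have h4 : f n = n := by exact_mod_cast h3
  have h5 : f⁻¹ n = n := by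
    conv_lhs => rw [← h4]
    exact f.symm_apply_apply n
  rw [h5]

/-- conjugation of a trivial germ -/
theorem Gm.conj_id {u : Ultrafilter ℤ} {f h : Equiv.Perm ℤ} (hh : h ∈ CT) (hf : Gm u f (1, 0)) :
    Gm (act h u) (h * f * h⁻¹) (1, 0) := by
  have h1 := gm_sl (u := act h u) (inv_mem hh)
  have h2 : Gm (act h⁻¹ (act h u)) f (1, 0) := by rw [act_inv]; exact hf
  have h3 := h1.comp h2
  have h4 : act (f * h⁻¹) (act h u) = u := by
    rw [act_mul, act_inv, act_of_gm hf]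
  have h5 : Gm (act (f * h⁻¹) (act h u)) h (sl u h, tr u h) := by
    rw [h4]
    exact gm_sl hh
  have h6 := h3.comp h5
  have h7 : Gm (act h⁻¹ (act h u)) h (sl u h, tr u h) := by
    rw [act_inv]
    exact gm_sl hh
  have h8 := h1.comp h7
  rw [mul_inv_cancel] at h8
  have h9 := h8.unique (Gm.one _)
  rw [← mul_assoc] at h6
  have h10 : (sl u h * (1 * sl (act h u) h⁻¹), sl u h * (1 * tr (act h u) h⁻¹ + 0) + tr u h) =
      ((1, 0) : ℚ × ℚ) := by
    rw [← h9]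
    simp
  simp only at h6 h10
  rw [h10] at h6
  exact h6

theorem gm_of_eq {u : Ultrafilter ℤ} {h h' : Equiv.Perm ℤ} (hh : h ∈ CT) (hh' : h' ∈ CT)
    (h1 : sl u h = sl u h') (h2 : tr u h = tr u h') : Gm u (h'⁻¹ * h) (1, 0) := by
  obtain ⟨r, Q, hQ, k1, k2⟩ := gm_sl (u := u) hh
  obtain ⟨r', Q', hQ', k1', k2'⟩ := gm_sl (u := u) hh'
  obtain ⟨s, hs⟩ := exists_cl u (Q * Q') (Nat.mul_pos hQ hQ')
  refine ⟨s, Q * Q', Nat.mul_pos hQ hQ', hs, fun n hn => ?_⟩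
  have e1 := k2 n (cl_mem_sub k1 hs (Dvd.intro _ rfl) hn)
  have e2 := k2' n (cl_mem_sub k1' hs (Dvd.intro_left _ rfl) hn)
  simp only at e1 e2
  rw [h1, h2, ← e2] at e1
  have e3 : h n = h' n := by exact_mod_cast e1
  have e4 : (h'⁻¹ * h) n = n := by
    rw [Equiv.Perm.mul_apply, e3]
    exact h'.symm_apply_apply n
  rw [e4]
  simp

/-- the elements whose germ at `u` is trivial -/
def KS (H : Subgroup (Equiv.Perm ℤ)) (u : Ultrafilter ℤ) : Subgroup (Equiv.Perm ℤ) where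
  carrier := {f | f ∈ H ∧ Gm u f (1, 0)}
  mul_mem' := fun ha hb => ⟨mul_mem ha.1 hb.1, ha.2.mul_id hb.2⟩
  one_mem' := ⟨one_mem _, Gm.one u⟩
  inv_mem' := fun ha => ⟨inv_mem ha.1, ha.2.inv_id⟩

theorem mem_KS {H : Subgroup (Equiv.Perm ℤ)} {u : Ultrafilter ℤ} {f : Equiv.Perm ℤ} :
    f ∈ KS H u ↔ f ∈ H ∧ Gm u f (1, 0) := Iff.rfl

/-- the group generated by `K` and an element which normalises it -/
def extG (K : Subgroup (Equiv.Perm ℤ)) (g : Equiv.Perm ℤ)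
    (hn : ∀ i : ℤ, ∀ k ∈ K, g ^ i * k * (g ^ i)⁻¹ ∈ K) : Subgroup (Equiv.Perm ℤ) where
  carrier := {h | ∃ i : ℤ, ∃ k ∈ K, h = g ^ i * k}
  mul_mem' := by
    rintro _ _ ⟨i, k, hk, rfl⟩ ⟨j, k', hk', rfl⟩
    refine ⟨i + j, (g ^ (-j) * k * (g ^ (-j))⁻¹) * k', mul_mem (hn _ _ hk) hk', ?_⟩
    group
  one_mem' := ⟨0, 1, one_mem _, by simp⟩
  inv_mem' := by
    rintro _ ⟨i, k, hk, rfl⟩
    refine ⟨-i, g ^ i * k⁻¹ * (g ^ i)⁻¹, hn _ _ (inv_mem hk), ?_⟩
    group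

theorem conj_zpow {K : Subgroup (Equiv.Perm ℤ)} {g : Equiv.Perm ℤ}
    (h1 : ∀ k ∈ K, g * k * g⁻¹ ∈ K) (h2 : ∀ k ∈ K, g⁻¹ * k * g ∈ K) (i : ℤ) :
    ∀ k ∈ K, g ^ i * k * (g ^ i)⁻¹ ∈ K := by
  induction i using Int.induction_on with
  | zero =>
    intro k hk
    simpa using hk
  | succ i ih =>
    intro k hk
    have h3 := h1 _ (ih k hk)
    have h4 : g * (g ^ (i : ℤ) * k * (g ^ (i : ℤ))⁻¹) * g⁻¹ =
        g ^ ((i : ℤ) + 1) * k * (g ^ ((i : ℤ) + 1))⁻¹ := by group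
    rwa [h4] at h3
  | pred i ih =>
    intro k hk
    have h3 := h2 _ (ih k hk)
    have h4 : g⁻¹ * (g ^ (-(i : ℤ)) * k * (g ^ (-(i : ℤ)))⁻¹) * g =
        g ^ (-(i : ℤ) - 1) * k * (g ^ (-(i : ℤ) - 1))⁻¹ := by group
    rwa [h4] at h3

/-- the germs at some point are virtually abelian -/
theorem R1.locAb (R : R1 S M M0 A F a b L1 L2) (hexp : NoExp S) : ∃ v ∈ M, ∀ y : ℕ → ℤ, Rep v y →
    LocAb (Subgroup.closure S) y := by
  classical
  obtain ⟨c0, hc0⟩ := R.exists_rec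
  obtain ⟨c1, hc1⟩ := R.lemX hexp
  obtain ⟨c2, hc2⟩ := R.no_pow hexp
  obtain ⟨C0, hC0⟩ := R.count hexp
  set c : ℕ := max c0 (max c1 c2) with hc
  have k0 : c0 ≤ c := le_max_left _ _
  have k1 : c1 ≤ c := (le_max_left _ _).trans (le_max_right _ _)
  have k2 : c2 ≤ c := (le_max_right _ _).trans (le_max_right _ _)
  obtain ⟨x, hx⟩ := R.mnl.ne
  obtain ⟨h, hh, ρ, hrec, κ, g, r, r', hκ, hg, hmk, _, hrec'⟩ := hc0 c k0 L2 R.l12 R.L20 x hx
  have hv := R.mnl.mem hh hx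
  set v := act h x with hvdef
  have hgv := R.mnl.mem hg hv
  have hX := hc1 c k1 L2 dvd_rfl R.L20
  set H := Subgroup.closure S with hH
  have hHCT := R.hCT
  -- `g` normalises the kernel
  have hn1 : ∀ k ∈ KS H v, g * k * g⁻¹ ∈ KS H v := by
    rintro k ⟨hk1, hk2⟩
    have h1 : g * k * g⁻¹ ∈ H := mul_mem (mul_mem hg hk1) (inv_mem hg)
    exact ⟨h1, hX _ hgv v hv ρ hrec' hrec _ h1 (hk2.conj_id (hHCT hg))⟩
  have hn2 : ∀ k ∈ KS H v, g⁻¹ * k * g ∈ KS H v := by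
    rintro k ⟨hk1, hk2⟩
    have h1 : g⁻¹ * k * g ∈ H := mul_mem (mul_mem (inv_mem hg) hk1) hg
    have h2 := hX v hv _ hgv ρ hrec hrec' _ hk1 hk2
    have h3 := h2.conj_id (inv_mem (hHCT hg))
    rw [act_inv, inv_inv] at h3
    exact ⟨h1, h3⟩
  have hn := conj_zpow hn1 hn2
  -- no power of `g` is in the kernel
  have hpow : ∀ j : ℤ, g ^ j ∈ KS H v → j = 0 := by
    intro j hj
    by_contra hj0
    have h1 : g ^ j.natAbs ∈ KS H v := by
      rcases Int.natAbs_eq j with h | h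
      · rw [h, zpow_natCast] at hj
        exact hj
      · rw [h, zpow_neg, zpow_natCast] at hj
        exact (Subgroup.inv_mem_iff _).1 hj
    obtain ⟨i, hi⟩ : ∃ i, j.natAbs = i + 1 := ⟨j.natAbs - 1, by omega⟩
    rw [hi] at h1
    exact hc2 c k2 L2 dvd_rfl R.L20 v hv ρ hrec κ g r r' hκ hg hmk i h1.2
  set A0 := extG (KS H v) g hn with hA0
  have hA0H : A0 ≤ H := by
    rintro _ ⟨i, k, hk, rfl⟩
    exact mul_mem (zpow_mem hg i) hk.1
  -- finite index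
  have hfi : (A0.subgroupOf H).FiniteIndex := by
    by_contra hinf
    have hinf' : Infinite (H ⧸ A0.subgroupOf H) := by
      by_contra hfin
      rw [not_infinite_iff_finite] at hfin
      exact hinf Subgroup.finiteIndex_of_finite_quotient
    obtain ⟨lg, hlg⟩ := mem_ball_of_closure hg
    obtain ⟨Y, hY⟩ := Infinite.exists_subset_card_eq (H ⧸ A0.subgroupOf H) (C0 * lg + 1)
    set rep : (H ⧸ A0.subgroupOf H) → Equiv.Perm ℤ := fun q => (q.out : H) with hrepdef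
    have hrepH : ∀ q, rep q ∈ H := fun q => (q.out : H).2
    obtain ⟨lh, hlh⟩ : ∃ lh : ℕ, ∀ q ∈ Y, rep q ∈ ball S lh := by
      have h1 : ∀ q, ∃ m : ℕ, rep q ∈ ball S m := fun q => mem_ball_of_closure (hrepH q)
      choose m hm using h1
      refine ⟨Y.sup m, fun q hq => ball_mono (Finset.le_sup hq) (hm q)⟩
    set n : ℕ := C0 * (lh + 1) with hndef
    set X : Finset (Equiv.Perm ℤ) := (Y ×ˢ Finset.Icc (-(n : ℤ)) n).image
      (fun c => rep c.1 * g ^ c.2) with hXdef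
    have hzp : ∀ i : ℤ, g ^ i ∈ ball S (lg * i.natAbs) := by
      have h1 : ∀ i : ℕ, g ^ i ∈ ball S (lg * i) := by
        intro i
        induction i with
        | zero => exact ⟨[], by simp, by simp, by simp⟩
        | succ i ih =>
          rw [pow_succ, Nat.mul_succ]
          exact ball_mul ih hlg
      intro i
      rcases Int.natAbs_eq i with h | h
      · have h2 : g ^ i = g ^ i.natAbs := by
          conv_lhs => rw [h]
          rw [zpow_natCast]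
        rw [h2]
        exact h1 _
      · have h2 : g ^ i = (g ^ i.natAbs)⁻¹ := by
          conv_lhs => rw [h]
          rw [zpow_neg, zpow_natCast]
        rw [h2]
        exact ball_inv (h1 _)
    have hXball : ∀ f ∈ X, f ∈ ball S (lh + lg * n) := by
      intro f hf
      obtain ⟨⟨q, i⟩, hc, rfl⟩ := Finset.mem_image.1 hf
      obtain ⟨hq, hi⟩ := Finset.mem_product.1 hc
      simp only at hq hi ⊢
      rw [Finset.mem_Icc] at hi
      refine ball_mul (hlh q hq) (ball_mono (Nat.mul_le_mul_left _ ?_) (hzp i))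
      omega
    -- distinct germs
    have key : ∀ (q : H ⧸ A0.subgroupOf H) (i : ℤ) (q' : H ⧸ A0.subgroupOf H) (i' : ℤ), sl v (rep q * g ^ i) = sl v (rep q' * g ^ i') →
        tr v (rep q * g ^ i) = tr v (rep q' * g ^ i') → q = q' ∧ i = i' := by
      intro q i q' i' h1 h2
      have m1 : rep q * g ^ i ∈ H := mul_mem (hrepH q) (zpow_mem hg i)
      have m2 : rep q' * g ^ i' ∈ H := mul_mem (hrepH q') (zpow_mem hg i')
      have h3 : (rep q' * g ^ i')⁻¹ * (rep q * g ^ i) ∈ KS H v :=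
        ⟨mul_mem (inv_mem m2) m1, gm_of_eq (hHCT m1) (hHCT m2) h1 h2⟩
      have h4 : (rep q')⁻¹ * rep q ∈ A0 := by
        refine ⟨i' - i, _, hn i _ h3, ?_⟩
        group
      have h5 : q = q' := by
        have h6 : (q'.out : H ⧸ A0.subgroupOf H) = (q.out : H) := by
          rw [QuotientGroup.eq, Subgroup.mem_subgroupOf]
          exact h4
        rw [QuotientGroup.out_eq', QuotientGroup.out_eq'] at h6
        exact h6.symm
      subst h5
      refine ⟨rfl, ?_⟩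
      have h6 : (rep q * g ^ i')⁻¹ * (rep q * g ^ i) = g ^ (i - i') := by group
      rw [h6] at h3
      have := hpow _ h3
      omega
    have hXinj : ∀ f ∈ X, ∀ f' ∈ X, sl v f = sl v f' → tr v f = tr v f' → f = f' := by
      intro f hf f' hf' h1 h2
      obtain ⟨⟨q, i⟩, _, rfl⟩ := Finset.mem_image.1 hf
      obtain ⟨⟨q', i'⟩, _, rfl⟩ := Finset.mem_image.1 hf'
      obtain ⟨e1, e2⟩ := key q i q' i' h1 h2
      rw [e1, e2]
    have hXcard : X.card = (C0 * lg + 1) * (2 * n + 1) := by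
      rw [hXdef, Finset.card_image_of_injOn, Finset.card_product, hY, Int.card_Icc]
      · congr 1
        omega
      · rintro ⟨q, i⟩ _ ⟨q', i'⟩ _ he
        simp only at he
        obtain ⟨e1, e2⟩ := key q i q' i' (by rw [he]) (by rw [he])
        rw [e1, e2]
    have h1 := hC0 v hv (lh + lg * n) X hXball hXinj
    rw [hXcard] at h1
    have h2 : C0 * (lh + lg * n + 1) = C0 * lg * n + n := by rw [hndef]; ring
    rw [h2] at h1
    nlinarith [Nat.zero_le (C0 * lg * n)]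
  refine ⟨v, hv, fun y hy => ?_⟩
  obtain ⟨Lc, hL1, hL2, hL3, hL4⟩ := exists_core hfi
  refine ⟨Lc, hL2, hL3, fun p hp q hq w hw => ?_⟩
  have hp' : w⁻¹ * p * w ∈ A0 := by
    have := hL4 w⁻¹ (inv_mem hw) p hp
    rw [inv_inv] at this
    exact hL1 this
  have hq' : w⁻¹ * q * w ∈ A0 := by
    have := hL4 w⁻¹ (inv_mem hw) q hq
    rw [inv_inv] at this
    exact hL1 this
  obtain ⟨i, k, hk, e1⟩ := hp'
  obtain ⟨j, k', hk', e2⟩ := hq'
  have hcom : w⁻¹ * (p * q * p⁻¹ * q⁻¹) * w ∈ KS H v := by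
    have e3 : w⁻¹ * (p * q * p⁻¹ * q⁻¹) * w =
        (w⁻¹ * p * w) * (w⁻¹ * q * w) * (w⁻¹ * p * w)⁻¹ * (w⁻¹ * q * w)⁻¹ := by group
    rw [e3, e1, e2]
    have e4 : g ^ i * k * (g ^ j * k') * (g ^ i * k)⁻¹ * (g ^ j * k')⁻¹ =
        (g ^ i * k * (g ^ i)⁻¹) * (g ^ (i + j) * (k' * k⁻¹) * (g ^ (i + j))⁻¹) *
          (g ^ j * k'⁻¹ * (g ^ j)⁻¹) := by group
    rw [e4]
    exact mul_mem (mul_mem (hn _ _ hk) (hn _ _ (mul_mem hk' (inv_mem hk)))) (hn _ _ (inv_mem hk'))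
  obtain ⟨i0, hi0⟩ := hcom.2.germ hy
  refine ⟨i0, fun n hn => ?_⟩
  have h1 := hi0 n hn
  simp only [one_mul, add_zero] at h1
  have h2 : (w⁻¹ * (p * q * p⁻¹ * q⁻¹) * w) n = n := by exact_mod_cast h1
  have h3 : w⁻¹ ((p * q * p⁻¹ * q⁻¹) (w n)) = n := by
    simpa only [Equiv.Perm.mul_apply] using h2
  have h4 : (p * q * p⁻¹ * q⁻¹) (w n) = w n := by
    rw [← h3]
    have : w (w⁻¹ ((p * q * p⁻¹ * q⁻¹) (w n))) = (p * q * p⁻¹ * q⁻¹) (w n) :=
      w.apply_symm_apply _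
    rw [h3] at this ⊢
    exact this.symm
  exact h4

end Pool.Agent.Lgp
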