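import Pool.Agent.Lgp.IntC
import Pool.Agent.Lgp.Loc
import Pool.Agent.Lgp.FinSl

/-!
# Slopes in finitely many cosets of a cyclic group
-/

namespace Pool.Agent.Lgp

open Pool.Agent.CTm Pool.Agent.Grm Filter Nat Topology

/-- the slopes of the germs at `y` of the elements of `H` lie in finitely many cosets of the cyclic group
generated by `lam` -/
def CyclicSlopes (H : Subgroup (Equiv.Perm ℤ)) (lam : ℚ) (y : ℕ → ℤ) : Prop :=
  ∃ F : Finset ℚ, ∀ g ∈ H, ∀ a : ℚ × ℚ, Germ y g a → ∃ f ∈ F, ∃ k : ℤ, a.1 = f * lam ^ k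

/-- at every point of the closure of the orbit of `y` the slopes of the germs of the elements of `H` are
unbounded -/
def NoCap (H : Subgroup (Equiv.Perm ℤ)) (y : ℕ → ℤ) : Prop :=
  ∀ z : ℕ → ℤ, Pro z → Clo H y z → ∀ C : ℚ, ∃ g ∈ H, ∃ a : ℚ × ℚ, Germ z g a ∧ C ≤ a.1

theorem Clo.trans {H : Subgroup (Equiv.Perm ℤ)} {x y z : ℕ → ℤ} (h : Clo H x y) (h' : Clo H y z) :
    Clo H x z := by
  intro j
  obtain ⟨g, hg, i, h1⟩ := h' j
  obtain ⟨g', hg', i', h2⟩ := h i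
  exact ⟨g * g', mul_mem hg hg', i', fun n hn => h1 _ (h2 n hn)⟩

theorem exists_R0 (S : Finset (Equiv.Perm ℤ)) (hS : ∀ s ∈ S, s ∈ CT) {y : ℕ → ℤ} (hy : Pro y)
    {lam : ℚ} (hlam : 1 < lam) (h : CyclicSlopes (Subgroup.closure (S : Set (Equiv.Perm ℤ))) lam y) :
    ∃ (u : Ultrafilter ℤ) (M : Set (Ultrafilter ℤ)) (M0 : ℕ) (A : Finset (ℚ × ℚ)) (F : Finset ℚ)
      (L1 L2 : ℕ), Rep u y ∧ M ⊆ orb (Subgroup.closure (S : Set (Equiv.Perm ℤ))) u ∧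
        R0 (S : Set (Equiv.Perm ℤ)) M M0 A F lam.num.natAbs lam.den L1 L2 := by
  classical
  set H := Subgroup.closure (S : Set (Equiv.Perm ℤ)) with hH
  have hHCT : H ≤ CT := (Subgroup.closure_le _).2 fun s hs => hS s hs
  obtain ⟨F, hF⟩ := h
  obtain ⟨u, hu⟩ := exists_uf hy
  obtain ⟨M, hMu, hM⟩ := exists_mnl (orb_closed H u) ⟨u, orb_self H u⟩ (orb_inv H u)
  obtain ⟨M0, A, hd⟩ := Pool.Agent.Grm.exists_data S hS
  have hlam0 : 0 < lam := by linarith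
  -- positive representatives
  set Fp : Finset ℚ := F.filter fun f => 0 < f with hFp
  have hFp1 : ∀ g ∈ H, ∃ f ∈ Fp, ∃ k : ℤ, sl u g = f * lam ^ k := by
    intro g hg
    obtain ⟨f, hf, k, hk⟩ := hF g hg _ ((gm_sl (u := u) (hHCT hg)).germ hu)
    simp only at hk
    refine ⟨f, Finset.mem_filter.2 ⟨hf, ?_⟩, k, hk⟩
    have h1 : 0 < sl u g := sl_pos (hHCT hg)
    rw [hk] at h1
    exact (pos_iff_pos_of_mul_pos h1).2 (zpow_pos hlam0 k)
  set F2 : Finset ℚ := (Fp ×ˢ Fp).image (fun c => c.1 / c.2) with hF2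
  have hF2p : ∀ f ∈ F2, 0 < f := by
    intro f hf
    obtain ⟨c, hc, rfl⟩ := Finset.mem_image.1 hf
    obtain ⟨h1, h2⟩ := Finset.mem_product.1 hc
    exact div_pos (Finset.mem_filter.1 h1).2 (Finset.mem_filter.1 h2).2
  obtain ⟨L1, _, hL1, _, hl1, _⟩ := exists_mult F2 hF2p M0 hd.pos
  obtain ⟨L2, _, hL2, _, hl2, _⟩ := exists_mult F2 hF2p L1 hL1
  have hnum : (0 : ℤ) < lam.num := Rat.num_pos.2 hlam0
  have hnum' : ((lam.num.natAbs : ℕ) : ℚ) = lam.num := by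
    have h2 : ((lam.num.natAbs : ℕ) : ℤ) = lam.num := Int.natAbs_of_nonneg hnum.le
    have h4 : (((lam.num.natAbs : ℕ) : ℤ) : ℚ) = lam.num := congrArg (fun z : ℤ => (z : ℚ)) h2
    simpa using h4
  have hab : ((lam.num.natAbs : ℕ) : ℚ) / (lam.den : ℕ) = lam := by
    rw [hnum']
    exact Rat.num_div_den lam
  have hden : (0 : ℚ) < lam.den := by exact_mod_cast lam.den_pos
  refine ⟨u, M, M0, A, F2, L1, L2 * L1, hu, hMu, ?_⟩
  refine ⟨S.finite_toSet, hHCT, hd, hM, lam.den_pos, ?_, lam.reduced, ?_, hF2p, hL1,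
    Nat.mul_pos hL2 hL1, hl1, Dvd.intro_left _ rfl, ?_⟩
  · have h1 : (lam.den : ℚ) < (lam.num.natAbs : ℕ) := by
      rw [← hab, one_lt_div hden] at hlam
      exact hlam
    exact_mod_cast h1
  · intro v hv h hh
    rw [hab]
    obtain ⟨r, Q, hQ, hr, hloc⟩ := sl_loc (u := v) (hHCT hh)
    obtain ⟨g, hg, hgr⟩ := orb_hit (hMu hv) hr
    have h1 := sl_eq (hloc _ hgr)
    have h2 := sl_mul (u := u) (hHCT hh) (hHCT hg)
    obtain ⟨f, hf, k, hk⟩ := hFp1 g hg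
    obtain ⟨f', hf', k', hk'⟩ := hFp1 _ (mul_mem hh hg)
    refine ⟨f' / f, Finset.mem_image.2 ⟨(f', f), Finset.mem_product.2 ⟨hf', hf⟩, rfl⟩, k' - k, ?_⟩
    have hf0 : f ≠ 0 := (Finset.mem_filter.1 hf).2.ne'
    have hk0 : lam ^ k ≠ 0 := zpow_ne_zero _ hlam0.ne'
    rw [hk', h1, hk] at h2
    simp only at h2
    rw [zpow_sub₀ hlam0.ne']
    field_simp
    linear_combination -h2
  · intro f hf
    obtain ⟨t, ht⟩ := hl2 f hf
    refine ⟨t * L1, ?_⟩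
    push_cast
    linear_combination (L1 : ℚ) * ht

/-- the conclusion in rank one -/
theorem locAb_of_cyclic (S : Finset (Equiv.Perm ℤ)) (hS : ∀ s ∈ S, s ∈ CT)
    (hexp : NoExp (S : Set (Equiv.Perm ℤ))) {y : ℕ → ℤ} (hy : Pro y)
    {lam : ℚ} (hlam : 1 < lam) (h : CyclicSlopes (Subgroup.closure (S : Set (Equiv.Perm ℤ))) lam y)
    (h' : lam.den = 1 ∨ NoCap (Subgroup.closure (S : Set (Equiv.Perm ℤ))) y) :
    ∃ z : ℕ → ℤ, Pro z ∧ Clo (Subgroup.closure (S : Set (Equiv.Perm ℤ))) y z ∧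
      LocAb (Subgroup.closure (S : Set (Equiv.Perm ℤ))) z := by
  obtain ⟨u, M, M0, A, F, L1, L2, hu, hMu, R⟩ := exists_R0 S hS hy hlam h
  have hHCT := R.hCT
  have hup : (∃ v ∈ M, ∃ F' : Finset ℚ, ∀ h ∈ Subgroup.closure (S : Set (Equiv.Perm ℤ)), sl v h ∈ F') ∨
      ∀ u ∈ M, ∀ C : ℚ, ∃ h ∈ Subgroup.closure (S : Set (Equiv.Perm ℤ)), C ≤ sl u h := by
    rcases h' with h1 | h1
    · rw [h1] at R
      exact R.int
    · right
      intro v hv C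
      obtain ⟨z, hz⟩ := exists_rep v
      obtain ⟨g, hg, a, ha, hC⟩ := h1 z hz.pro (clo_of_orb hHCT hu hz (hMu hv)) C
      refine ⟨g, hg, ?_⟩
      rw [sl_eq (gm_of_germ hz ha)]
      exact hC
  rcases hup with ⟨v, hv, F', hF'⟩ | hup
  · obtain ⟨z, hz⟩ := exists_rep v
    refine ⟨z, hz.pro, clo_of_orb hHCT hu hz (hMu hv), ?_⟩
    refine locAb_of_finSlopes S hS hz.pro ⟨F', fun g hg a ha => ?_⟩
    rw [← sl_eq (gm_of_germ hz ha)]
    exact hF' g hg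
  · have R' : R1 (S : Set (Equiv.Perm ℤ)) M M0 A F lam.num.natAbs lam.den L1 L2 := { R with up := hup }
    obtain ⟨v, hv, hloc⟩ := R'.locAb hexp
    obtain ⟨z, hz⟩ := exists_rep v
    exact ⟨z, hz.pro, clo_of_orb hHCT hu hz (hMu hv), hloc z hz⟩

end Pool.Agent.Lgp
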