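import Pool.Agent.Lgp.Cont

/-!
# Finite orbits in the `m`-adic integers
-/

namespace Pool.Agent.Lgp

open Pool.Agent.CTm Pool.Agent.Grm Filter Nat

/-- `g y = g' y` in the `m`-adic integers and modulo `N` -/
def OrbRel (y : ℕ → ℤ) (m N : ℕ) (g g' : Equiv.Perm ℤ) : Prop :=
  ∀ j : ℕ, ∃ i : ℕ, ∀ n : ℤ, ((i ! : ℕ) : ℤ) ∣ n - y i → ((N * m ^ j : ℕ) : ℤ) ∣ g n - g' n

variable {S : Set (Equiv.Perm ℤ)} {M : ℕ} {A : Finset (ℚ × ℚ)} {y : ℕ → ℤ}

theorem orbRel_good (hd : Data S M A) (hy : Pro y) {m N e : ℕ} (hm : 2 ≤ m) (hN : 0 < N)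
    (hcop : Nat.Coprime N m) (hM : M ∣ N * m ^ e) (hA : ∀ c ∈ A, c.1.den ∣ m ^ e)
    (hfin : FinOrb m (Subgroup.closure S) y) : GoodRel S y (OrbRel y m N) := by
  have hcommon : ∀ g ∈ Subgroup.closure S, ∀ g' ∈ Subgroup.closure S, OrbRel y m N g g' →
      ∃ i : ℕ, ∀ n : ℤ, ((i ! : ℕ) : ℤ) ∣ n - y i → (M : ℤ) ∣ g n - g' n := by
    intro g _ g' _ h
    obtain ⟨i, hi⟩ := h e
    exact ⟨i, fun n hn => (Int.natCast_dvd_natCast.2 hM).trans (hi n hn)⟩
  constructor
  · intro g _ j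
    exact ⟨0, fun n _ => by simp⟩
  · intro g _ g' _ h j
    obtain ⟨i, hi⟩ := h j
    refine ⟨i, fun n hn => ?_⟩
    rw [← neg_sub]
    exact (hi n hn).neg_right
  · intro g _ g' _ g'' _ h h' j
    obtain ⟨i, hi⟩ := h j
    obtain ⟨i', hi'⟩ := h' j
    refine ⟨max i i', fun n hn => ?_⟩
    have e1 : g n - g'' n = (g n - g' n) + (g' n - g'' n) := by ring
    rw [e1]
    exact dvd_add (hi n (pro_deep hy (le_max_left _ _) hn)) (hi' n (pro_deep hy (le_max_right _ _) hn))
  · obtain ⟨k, z, hz⟩ := hfin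
    have hk : Nonempty (Fin k) := by
      obtain ⟨c, _⟩ := hz 1 (one_mem _)
      exact ⟨c⟩
    choose! c hc using hz
    have hex : ∀ g ∈ Subgroup.closure S, ∃ r : ZMod N, ∃ i : ℕ, ∀ n : ℤ,
        ((i ! : ℕ) : ℤ) ∣ n - y i → ((g n : ℤ) : ZMod N) = r := fun g hg =>
      exists_resid hd hy hg N hN
    choose! r hr using hex
    have : NeZero N := ⟨hN.ne'⟩
    classical
    refine ⟨Fin k × ZMod N, inferInstance, fun g => (c g, r g), ?_⟩
    intro g hg g' hg' h j
    rw [Prod.mk.injEq] at h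
    obtain ⟨i1, h1⟩ := hc g hg j
    obtain ⟨i2, h2⟩ := hc g' hg' j
    obtain ⟨i3, h3⟩ := hr g hg
    obtain ⟨i4, h4⟩ := hr g' hg'
    refine ⟨max (max i1 i2) (max i3 i4), fun n hn => ?_⟩
    have e1 := h1 n (pro_deep hy ((le_max_left _ _).trans (le_max_left _ _)) hn)
    have e2 := h2 n (pro_deep hy ((le_max_right _ _).trans (le_max_left _ _)) hn)
    have e3 := h3 n (pro_deep hy ((le_max_left _ _).trans (le_max_right _ _)) hn)
    have e4 := h4 n (pro_deep hy ((le_max_right _ _).trans (le_max_right _ _)) hn)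
    have e5 : ((m ^ j : ℕ) : ℤ) ∣ g n - g' n := by
      have e6 : g n - g' n = (g n - z (c g) j) - (g' n - z (c g) j) := by ring
      rw [e6]
      rw [← h.1] at e2
      exact dvd_sub e1 e2
    have e6 : ((N : ℕ) : ℤ) ∣ g n - g' n := by
      rw [← ZMod.intCast_zmod_eq_zero_iff_dvd, Int.cast_sub, e3, e4, h.2, sub_self]
    rw [Nat.cast_mul]
    have hcp : IsCoprime ((N : ℕ) : ℤ) ((m ^ j : ℕ) : ℤ) :=
      Nat.isCoprime_iff_coprime.2 (Nat.Coprime.pow_right j hcop)
    exact hcp.mul_dvd e6 e5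
  · intro s hs g hg g' hg' h j
    obtain ⟨c, hcA, i', hi'⟩ := common_germ hd hy hg hg' hs (hcommon g hg g' hg' h)
    obtain ⟨i, hi⟩ := h (j + e)
    refine ⟨max i i', fun n hn => ?_⟩
    have e1 := hi n (pro_deep hy (le_max_left _ _) hn)
    obtain ⟨e2, e3⟩ := hi' n (pro_deep hy (le_max_right _ _) hn)
    obtain ⟨q, hq⟩ := e1
    obtain ⟨w, hw⟩ := hA c hcA
    refine ⟨c.1.num * w * q, ?_⟩
    have h1 : c.1 * (c.1.den : ℚ) = c.1.num := Rat.mul_den_eq_num c.1
    have hw' : ((m ^ e : ℕ) : ℚ) = (c.1.den : ℚ) * w := by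
      rw [hw]
      push_cast
      ring
    have hq' : ((g n - g' n : ℤ) : ℚ) = ((N * m ^ (j + e) : ℕ) : ℤ) * q := by rw [hq]; push_cast; ring
    have e4 : (((s * g) n - (s * g') n : ℤ) : ℚ) =
        ((((N * m ^ j : ℕ) : ℤ) * (c.1.num * w * q) : ℤ) : ℚ) := by
      rw [Equiv.Perm.mul_apply, Equiv.Perm.mul_apply]
      push_cast at hq' hw' ⊢
      rw [e2, e3]
      rw [pow_add, hw'] at hq'
      linear_combination c.1 * hq' + (N : ℚ) * (m : ℚ) ^ j * w * q * h1
    exact_mod_cast e4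
  · intro s hs g hg g' hg' h
    obtain ⟨c, _, i', hi'⟩ := common_germ hd hy hg hg' hs (hcommon g hg g' hg' h)
    exact ⟨c, ⟨i', fun n hn => (hi' n hn).1⟩, ⟨i', fun n hn => (hi' n hn).2⟩⟩
  · intro h _ g _ hR τ hτ
    obtain ⟨i, hi⟩ := hτ
    have hn : ((i ! : ℕ) : ℤ) ∣ y i - y i := by simp
    have e1 := hi (y i) hn
    -- `τ` is the integer `t`
    set t : ℤ := h (g (y i)) - g (y i) with ht
    have e2 : τ = t := by
      rw [ht]
      push_cast
      rw [e1]
      ring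
    have hdvd : ∀ j : ℕ, ((m ^ j : ℕ) : ℤ) ∣ t := by
      intro j
      obtain ⟨i', hi'⟩ := hR j
      have hn' : (((max i i') ! : ℕ) : ℤ) ∣ y (max i i') - y (max i i') := by simp
      have e3 := hi (y (max i i')) (pro_deep hy (le_max_left _ _) hn')
      have e4 := hi' (y (max i i')) (pro_deep hy (le_max_right _ _) hn')
      rw [Equiv.Perm.mul_apply] at e4
      have e5 : h (g (y (max i i'))) - g (y (max i i')) = t := by
        have e6 : ((h (g (y (max i i'))) - g (y (max i i')) : ℤ) : ℚ) = (t : ℚ) := by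
          push_cast
          rw [e3, ← e2]
          ring
        exact_mod_cast e6
      rw [e5] at e4
      refine dvd_trans ?_ e4
      exact Int.natCast_dvd_natCast.2 (Dvd.intro_left _ rfl)
    have ht0 : t = 0 := by
      by_contra hne
      have h1 := hdvd t.natAbs
      have h2 := Int.natAbs_dvd_natAbs.2 h1
      rw [Int.natAbs_natCast] at h2
      have h3 := Nat.le_of_dvd (Int.natAbs_pos.2 hne) h2
      have h4 : t.natAbs < m ^ t.natAbs := Nat.lt_pow_self (by omega)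
      omega
    rw [e2, ht0]
    simp

/-- a modulus is a product of a divisor of a power of `m` and a number prime to `m` -/
theorem exists_split (m : ℕ) (M : ℕ) (hM : 0 < M) :
    ∃ N e : ℕ, 0 < N ∧ Nat.Coprime N m ∧ M ∣ N * m ^ e := by
  induction M using Nat.strong_induction_on with
  | _ M ih =>
    by_cases hg : Nat.gcd M m = 1
    · exact ⟨M, 0, hM, hg, by simp⟩
    · obtain ⟨q, hq⟩ := Nat.gcd_dvd_left M m
      have hg0 : 0 < Nat.gcd M m := Nat.gcd_pos_of_pos_left _ hM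
      have hq0 : 0 < q := by
        rcases Nat.eq_zero_or_pos q with h | h
        · rw [h, mul_zero] at hq
          omega
        · exact h
      have hlt : q < M := by
        have h2 : 2 ≤ Nat.gcd M m := by omega
        calc q < 2 * q := by omega
          _ ≤ Nat.gcd M m * q := Nat.mul_le_mul_right _ h2
          _ = M := hq.symm
      obtain ⟨N, e, h1, h2, h3⟩ := ih q hlt hq0
      refine ⟨N, e + 1, h1, h2, ?_⟩
      have h4 : Nat.gcd M m * q ∣ m * (N * m ^ e) := mul_dvd_mul (Nat.gcd_dvd_right M m) h3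
      rw [← hq] at h4
      refine h4.trans (dvd_of_eq ?_)
      ring

/-- the denominators of the slopes divide a power of `m` -/
theorem exists_data_unit {m : ℕ} (hm : 2 ≤ m) (S : Finset (Equiv.Perm ℤ)) (hS : ∀ s ∈ S, s ∈ CT)
    (hU : ∀ s ∈ S, SlopeUnit m s) : ∃ (M : ℕ) (A : Finset (ℚ × ℚ)) (e : ℕ),
      Data (S : Set (Equiv.Perm ℤ)) M A ∧ ∀ c ∈ A, c.1.den ∣ m ^ e := by
  classical
  obtain ⟨M, A, hd⟩ := Grm.exists_data S hS
  set P : ℚ × ℚ → Prop := fun c => ∃ s, (s ∈ S ∨ s⁻¹ ∈ S) ∧ ∃ n : ℤ, ∀ n' : ℤ, (M : ℤ) ∣ n' - n →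
    ((s n' : ℤ) : ℚ) = c.1 * n' + c.2 with hP
  have hden : ∀ c ∈ A.filter P, ∃ e : ℕ, c.1.den ∣ m ^ e := by
    intro c hc
    obtain ⟨hcA, s, hs, n, hn⟩ := Finset.mem_filter.1 hc
    have hM0 : (0 : ℚ) < M := by exact_mod_cast hd.pos
    have hc0 : 0 < c.1 := hd.slope c hcA
    have hpow : ∀ e : ℕ, m ^ e ≠ 0 := fun e => pow_ne_zero _ (by omega)
    rcases hs with hs | hs
    · obtain ⟨M', hM', hu⟩ := hU s hs
      obtain ⟨u, v, e, hue, hve, huv⟩ := hu n
      refine ⟨e, ?_⟩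
      have hv0 : (v : ℚ) ≠ 0 := by
        have : v ≠ 0 := fun h => hpow e (by rw [h] at hve; exact Nat.eq_zero_of_zero_dvd hve)
        exact_mod_cast this
      have hM'q : (0 : ℚ) < M' := by exact_mod_cast hM'
      have e1 := hn n (by simp)
      have e2 := hn (n + M' * M) ⟨M', by ring⟩
      have e3 : ((v * (s (n + M' * M) - s n) : ℤ) : ℚ) = ((u * (M' * M) : ℤ) : ℚ) := by
        rw [huv M]
      push_cast at e3
      rw [e1, e2] at e3
      push_cast at e3
      have e4 : c.1 = ((u : ℤ) : ℚ) / ((v : ℤ) : ℚ) := by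
        push_cast
        rw [eq_div_iff hv0]
        have e5 : (c.1 * v - u) * (M' * M) = 0 := by linear_combination e3
        rcases mul_eq_zero.1 e5 with h | h
        · linarith
        · exact absurd h (mul_pos hM'q hM0).ne'
      have e6 : ((c.1.den : ℕ) : ℤ) ∣ ((v : ℕ) : ℤ) := by
        rw [e4, ← Rat.divInt_eq_div]
        exact Rat.den_dvd _ _
      exact (Int.natCast_dvd_natCast.1 e6).trans hve
    · obtain ⟨M', hM', hu⟩ := hU s⁻¹ hs
      obtain ⟨u, v, e, hue, hve, huv⟩ := hu (s n)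
      refine ⟨e, ?_⟩
      have hu0 : (u : ℚ) ≠ 0 := by
        have : u ≠ 0 := fun h => hpow e (by rw [h] at hue; exact Nat.eq_zero_of_zero_dvd hue)
        exact_mod_cast this
      have hM'q : (0 : ℚ) < M' := by exact_mod_cast hM'
      have h1 : c.1 * (c.1.den : ℚ) = c.1.num := Rat.mul_den_eq_num c.1
      have e1 := hn n (by simp)
      have e2 := hn (n + M * (M' * c.1.den)) ⟨M' * c.1.den, by ring⟩
      have e3 : s (n + M * (M' * c.1.den)) = s n + M' * (c.1.num * M) := by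
        have e4 : ((s (n + M * (M' * c.1.den)) : ℤ) : ℚ) = ((s n + M' * (c.1.num * M) : ℤ) : ℚ) := by
          push_cast
          rw [e1, e2]
          push_cast
          linear_combination (M : ℚ) * M' * h1
        exact_mod_cast e4
      have e4 := huv (c.1.num * M)
      rw [← e3] at e4
      have e5 : s⁻¹ (s (n + M * (M' * c.1.den))) = n + M * (M' * c.1.den) := s.symm_apply_apply _
      have e6 : s⁻¹ (s n) = n := s.symm_apply_apply _
      rw [e5, e6] at e4
      have e7 : ((v * (n + M * (M' * c.1.den) - n) : ℤ) : ℚ) = ((u * (M' * (c.1.num * M)) : ℤ) : ℚ) := by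
        rw [e4]
      push_cast at e7
      have e8 : c.1 = ((v : ℤ) : ℚ) / ((u : ℤ) : ℚ) := by
        push_cast
        rw [eq_div_iff hu0]
        have hden0 : (0 : ℚ) < c.1.den := by exact_mod_cast c.1.den_pos
        have e9 : (c.1 * u - v) * (M' * M * c.1.den) = 0 := by
          linear_combination -e7 + (u : ℚ) * M' * M * h1
        rcases mul_eq_zero.1 e9 with h | h
        · linarith
        · exact absurd h (mul_pos (mul_pos hM'q hM0) hden0).ne'
      have e10 : ((c.1.den : ℕ) : ℤ) ∣ ((u : ℕ) : ℤ) := by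
        rw [e8, ← Rat.divInt_eq_div]
        exact Rat.den_dvd _ _
      exact (Int.natCast_dvd_natCast.1 e10).trans hue
  choose! f hf using hden
  refine ⟨M, A.filter P, (A.filter P).sup f, ⟨hd.pos, fun a ha => hd.slope a (Finset.mem_filter.1 ha).1, ?_⟩, ?_⟩
  · intro s hs n
    obtain ⟨a, ha, h1⟩ := hd.aff s hs n
    exact ⟨a, Finset.mem_filter.2 ⟨ha, s, hs, n, h1⟩, h1⟩
  · intro c hc
    exact (hf c hc).trans (pow_dvd_pow m (Finset.le_sup hc))

theorem locAb_of_finOrb {m : ℕ} (hm : 2 ≤ m) (S : Finset (Equiv.Perm ℤ)) (hS : ∀ s ∈ S, s ∈ CT)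
    (hU : ∀ s ∈ S, SlopeUnit m s) (hy : Pro y)
    (h : FinOrb m (Subgroup.closure (S : Set (Equiv.Perm ℤ))) y) :
    LocAb (Subgroup.closure (S : Set (Equiv.Perm ℤ))) y := by
  obtain ⟨M, A, e, hd, hA⟩ := exists_data_unit hm S hS hU
  obtain ⟨N, e', hN, hcop, hM⟩ := exists_split m M hd.pos
  refine (orbRel_good hd hy (e := max e e') hm hN hcop ?_ ?_ h).locAb hy
  · exact hM.trans (mul_dvd_mul_left _ (pow_dvd_pow m (le_max_right _ _)))
  · intro c hc
    exact (hA c hc).trans (pow_dvd_pow m (le_max_left _ _))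

end Pool.Agent.Lgp
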