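import Pool.Agent.Lgp.Stp

/-!
# The translations of the germs of slope one are bounded
-/

namespace Pool.Agent.Lgp

open Pool.Agent.CTm Pool.Agent.Grm Filter Nat Topology

variable {S : Set (Equiv.Perm ℤ)} {M : Set (Ultrafilter ℤ)} {M0 : ℕ} {A : Finset (ℚ × ℚ)}

/-- the preimage of `0` under the real affine map of the germ -/
noncomputable def phi (u : Ultrafilter ℤ) (h : Equiv.Perm ℤ) : ℚ := -tr u h / sl u h

theorem phi_mul {u : Ultrafilter ℤ} {g h : Equiv.Perm ℤ} (hg : g ∈ CT) (hh : h ∈ CT) :
    phi u (g * h) = (phi (act h u) g - tr u h) / sl u h := by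
  have h1 : sl u h ≠ 0 := (sl_pos hh).ne'
  have h2 : sl (act h u) g ≠ 0 := (sl_pos hg).ne'
  unfold phi
  rw [sl_mul hg hh, tr_mul hg hh]
  field_simp
  ring

theorem phi_one (u : Ultrafilter ℤ) : phi u 1 = 0 := by
  unfold phi
  rw [tr_one]
  simp

theorem phi_le {u : Ultrafilter ℤ} {g h : Equiv.Perm ℤ} (hg : g ∈ CT) (hh : h ∈ CT) :
    |phi u (g * h)| ≤ |phi (act h u) g| / sl u h + |phi u h| := by
  have h1 : 0 < sl u h := sl_pos hh
  rw [phi_mul hg hh, sub_div, sub_eq_add_neg]
  refine (abs_add_le _ _).trans ?_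
  rw [abs_div, abs_of_pos h1, ← neg_div]
  exact le_rfl

theorem word_tr (hCT : Subgroup.closure S ≤ CT) {C : ℚ} (hC : 1 ≤ C)
    (h : ∀ (u : Ultrafilter ℤ) (s : Equiv.Perm ℤ), (s ∈ S ∨ s⁻¹ ∈ S) →
      C⁻¹ ≤ sl u s ∧ sl u s ≤ C ∧ |tr u s| ≤ C)
    (u : Ultrafilter ℤ) (l : List (Equiv.Perm ℤ)) (hl : Ltr S l) {n : ℕ} (hn : l.length ≤ n) :
    |tr u l.prod| ≤ n * C ^ n := by
  have key : |tr u l.prod| ≤ l.length * C ^ l.length := by
    clear hn
    induction l with
    | nil =>
      rw [List.prod_nil, tr_one]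
      simp
    | cons s l ih =>
      have hl' : Ltr S l := hl.suffix (List.suffix_cons s l)
      have hs := hl s (by simp)
      have h1 := ih hl'
      obtain ⟨h3, h4, h5⟩ := h (act l.prod u) s hs
      rw [List.prod_cons, tr_mul (hCT (gen_mem hs)) (hCT hl'.mem), List.length_cons]
      refine (abs_add_le _ _).trans ?_
      rw [abs_mul, abs_of_pos (sl_pos (hCT (gen_mem hs)))]
      have h6 : sl (act l.prod u) s * |tr u l.prod| ≤ C * (l.length * C ^ l.length) :=
        mul_le_mul h4 h1 (abs_nonneg _) (by linarith)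
      have h7 : C ≤ C ^ (l.length + 1) := le_self_pow₀ hC (by omega)
      push_cast
      have h8 : ((l.length : ℚ) + 1) * C ^ (l.length + 1) =
          C * (l.length * C ^ l.length) + C ^ (l.length + 1) := by ring
      rw [h8]
      linarith
  refine key.trans ?_
  have h1 : C ^ l.length ≤ C ^ n := pow_le_pow_right₀ hC hn
  have h2 : (l.length : ℚ) ≤ n := by exact_mod_cast hn
  exact mul_le_mul h2 h1 (pow_nonneg (by linarith) _) (by positivity)

/-- ascents whose affine maps have a bounded preimage of `0` -/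
theorem asc_phi (hCT : Subgroup.closure S ≤ CT) (hd : Data S M0 A)
    (hM : Mnl (Subgroup.closure S) M)
    (hup : ∀ u ∈ M, ∀ C : ℚ, ∃ h ∈ Subgroup.closure S, C ≤ sl u h) :
    ∃ (n0 : ℕ) (R : ℚ), 0 ≤ R ∧ ∀ n : ℕ, ∀ x ∈ M, ∃ l, Ltr S l ∧ l.length ≤ n0 * n ∧
      2 ^ n ≤ sl x l.prod ∧ |phi x l.prod| ≤ R := by
  obtain ⟨C, hC, hC'⟩ := letter_bound hd
  obtain ⟨n0, h0⟩ := up_fin hCT hM hup 2
  set B : ℚ := n0 * C ^ n0 with hB
  have hB0 : 0 ≤ B := by
    have : 0 ≤ C ^ n0 := pow_nonneg (by linarith) _
    positivity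
  refine ⟨n0, 2 * B, by positivity, fun n => ?_⟩
  induction n with
  | zero =>
    intro x hx
    refine ⟨[], by intro x hx; simp at hx, by simp, by rw [List.prod_nil, sl_one, pow_zero], ?_⟩
    rw [List.prod_nil, phi_one, abs_zero]
    positivity
  | succ n ih =>
    intro x hx
    obtain ⟨l', k1, k2, k3⟩ := h0 x hx
    obtain ⟨l, h1, h2, h3, h4⟩ := ih _ (hM.mem k1.mem hx)
    have hpos : (0 : ℚ) < sl x l'.prod := by linarith
    refine ⟨l ++ l', h1.append k1, ?_, ?_, ?_⟩
    · rw [List.length_append]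
      nlinarith
    · rw [List.prod_append, sl_mul (hCT h1.mem) (hCT k1.mem), _root_.pow_succ]
      exact mul_le_mul h3 k3 (by linarith) (by
        have : (0 : ℚ) ≤ 2 ^ n := by positivity
        linarith)
    · rw [List.prod_append]
      refine (phi_le (hCT h1.mem) (hCT k1.mem)).trans ?_
      have h5 : |phi (act l'.prod x) l.prod| / sl x l'.prod ≤ B := by
        rw [div_le_iff₀ hpos]
        nlinarith
      have h6 : |phi x l'.prod| ≤ B := by
        unfold phi
        rw [abs_div, abs_neg, abs_of_pos hpos, div_le_iff₀ hpos]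
        have h7 := word_tr hCT hC hC' x l' k1 k2
        nlinarith
      linarith

/-- the words of a branching process -/
def bw (blk : Ultrafilter ℤ → Bool → List (Equiv.Perm ℤ)) : Ultrafilter ℤ → List Bool →
    List (Equiv.Perm ℤ)
  | _, [] => []
  | x, b :: l => bw blk (act (blk x b).prod x) l ++ blk x b

theorem branch (hCT : Subgroup.closure S ≤ CT) (hS : S.Finite) (hM : Mnl (Subgroup.closure S) M)
    (hexp : NoExp S) {blk : Ultrafilter ℤ → Bool → List (Equiv.Perm ℤ)} {n0 : ℕ} {R : ℚ}
    (hR : 0 ≤ R)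
    (h1 : ∀ x ∈ M, ∀ b, Ltr S (blk x b)) (h2 : ∀ x ∈ M, ∀ b, (blk x b).length ≤ n0)
    (h3 : ∀ x ∈ M, ∀ b, ∀ s : ℚ, |s| ≤ R → |(s - tr x (blk x b).prod) / sl x (blk x b).prod| ≤ R)
    (h4 : ∀ x ∈ M, ∀ s s' : ℚ, |s| ≤ R → |s'| ≤ R →
      (s - tr x (blk x true).prod) / sl x (blk x true).prod ≠
        (s' - tr x (blk x false).prod) / sl x (blk x false).prod) : False := by
  have hltr : ∀ l : List Bool, ∀ x ∈ M, Ltr S (bw blk x l) := by
    intro l
    induction l with
    | nil => intro x _ y hy; change y ∈ [] at hy; simp at hy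
    | cons b l ih => exact fun x hx => (ih _ (hM.mem (h1 x hx b).mem hx)).append (h1 x hx b)
  have hlen : ∀ l : List Bool, ∀ x ∈ M, (bw blk x l).length ≤ n0 * l.length := by
    intro l
    induction l with
    | nil => exact fun x _ => le_rfl
    | cons b l ih =>
      intro x hx
      change (bw blk (act (blk x b).prod x) l ++ blk x b).length ≤ _
      have e1 := ih _ (hM.mem (h1 x hx b).mem hx)
      have e2 := h2 x hx b
      rw [List.length_append, List.length_cons]
      nlinarith
  have hstep : ∀ (b : Bool) (l : List Bool), ∀ x ∈ M, phi x (bw blk x (b :: l)).prod =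
      (phi (act (blk x b).prod x) (bw blk (act (blk x b).prod x) l).prod - tr x (blk x b).prod) /
        sl x (blk x b).prod := by
    intro b l x hx
    change phi x (bw blk (act (blk x b).prod x) l ++ blk x b).prod = _
    rw [List.prod_append, phi_mul (hCT (hltr l _ (hM.mem (h1 x hx b).mem hx)).mem)
      (hCT (h1 x hx b).mem)]
  have hphi : ∀ l : List Bool, ∀ x ∈ M, |phi x (bw blk x l).prod| ≤ R := by
    intro l
    induction l with
    | nil =>
      intro x _
      change |phi x ([] : List (Equiv.Perm ℤ)).prod| ≤ R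
      rw [List.prod_nil, phi_one, abs_zero]
      exact hR
    | cons b l ih =>
      intro x hx
      rw [hstep b l x hx]
      exact h3 x hx b _ (ih _ (hM.mem (h1 x hx b).mem hx))
  have hinj : ∀ l l' : List Bool, l.length = l'.length → ∀ x ∈ M,
      phi x (bw blk x l).prod = phi x (bw blk x l').prod → l = l' := by
    intro l
    induction l with
    | nil =>
      intro l' e1 x _ _
      exact (List.length_eq_zero_iff.1 e1.symm).symm
    | cons b l ih =>
      intro l' e1 x hx e2
      cases l' with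
      | nil => simp at e1
      | cons b' l' =>
        rw [List.length_cons, List.length_cons] at e1
        have e3 : l.length = l'.length := by omega
        rw [hstep b l x hx, hstep b' l' x hx] at e2
        have k1 := fun b l => hphi l _ (hM.mem (h1 x hx b).mem hx)
        have key : ∀ b : Bool, ∀ l', (phi (act (blk x b).prod x)
            (bw blk (act (blk x b).prod x) l).prod - tr x (blk x b).prod) / sl x (blk x b).prod =
            (phi (act (blk x b).prod x)
            (bw blk (act (blk x b).prod x) l').prod - tr x (blk x b).prod) / sl x (blk x b).prod →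
            l.length = l'.length → l = l' := by
          intro b l' e4 e5
          refine ih l' e5 _ (hM.mem (h1 x hx b).mem hx) ?_
          have hpos : 0 < sl x (blk x b).prod := sl_pos (hCT (h1 x hx b).mem)
          have e6 := (div_left_inj' hpos.ne').1 e4
          linarith
        cases b <;> cases b'
        · rw [key false l' e2 e3]
        · exact absurd e2.symm (h4 x hx _ _ (k1 true l') (k1 false l))
        · exact absurd e2 (h4 x hx _ _ (k1 true l) (k1 false l'))
        · rw [key true l' e2 e3]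
  obtain ⟨x, hx⟩ := hM.ne
  refine hexp (exp_of_inj hS n0 fun k => ?_)
  refine ⟨fun v => (bw blk x (List.ofFn v)).prod, ?_, fun v => ?_⟩
  · intro v v' hv
    have e1 := hinj (List.ofFn v) (List.ofFn v') (by rw [List.length_ofFn, List.length_ofFn]) x hx
      (by simp only at hv; rw [hv])
    exact List.ofFn_injective e1
  · have := hlen (List.ofFn v) x hx
    rw [List.length_ofFn] at this
    exact ⟨_, this, hltr _ x hx, rfl⟩

/-- the translations of the germs of slope one are bounded -/
theorem tr_bdd (hCT : Subgroup.closure S ≤ CT) (hS : S.Finite) (hd : Data S M0 A)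
    (hM : Mnl (Subgroup.closure S) M)
    (hup : ∀ u ∈ M, ∀ C : ℚ, ∃ h ∈ Subgroup.closure S, C ≤ sl u h) (hexp : NoExp S) :
    ∃ T : ℚ, ∀ z ∈ M, ∀ g ∈ Subgroup.closure S, sl z g = 1 → |tr z g| ≤ T := by
  obtain ⟨C, hC, hC'⟩ := letter_bound hd
  obtain ⟨n0, R, hR, hasc⟩ := asc_phi hCT hd hM hup
  refine ⟨2 * (R + 1), fun z hz g hg hsl => ?_⟩
  by_contra hT
  push Not at hT
  set T : ℚ := tr z g with hTdef
  obtain ⟨lg, hlg, rfl⟩ := list_of_closure hg
  have hlg : Ltr S lg := hlg
  obtain ⟨r, Q, hQ, hr, hloc⟩ := sl_loc (u := z) (hCT hg)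
  rw [hsl, ← hTdef] at hloc
  obtain ⟨m, hm⟩ := hit_fin hM hz hr
  have hC0 : 0 < C⁻¹ := inv_pos.2 (by linarith)
  have hCm : (1 : ℚ) ≤ C ^ m := one_le_pow₀ hC
  set R' : ℚ := (1 + R + |T| + m * C ^ m) * C ^ m with hR'
  have hR'0 : 0 ≤ R' := by
    have := abs_nonneg T
    positivity
  obtain ⟨N, hN⟩ := pow_unbounded_of_one_lt R' (one_lt_two : (1 : ℚ) < 2)
  have hasc' := hasc N
  choose! p hp1 hp2 hp3 using hm
  choose! q hq1 hq2 hq3 hq4 using hasc'
  set gb : Bool → List (Equiv.Perm ℤ) := fun b => if b then lg else [] with hgb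
  have hgbl : ∀ b, Ltr S (gb b) := by
    intro b
    cases b
    · intro y hy; change y ∈ [] at hy; simp at hy
    · exact hlg
  have hgblen : ∀ b, (gb b).length ≤ lg.length := by
    intro b
    cases b
    · exact Nat.zero_le _
    · exact le_rfl
  -- the germ of `gb b`
  have hgm : ∀ x ∈ M, ∀ b, sl (act (p x).prod x) (gb b).prod = 1 ∧
      tr (act (p x).prod x) (gb b).prod = if b then T else 0 := by
    intro x hx b
    cases b
    · change sl _ ([] : List (Equiv.Perm ℤ)).prod = 1 ∧ tr _ ([] : List (Equiv.Perm ℤ)).prod = _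
      rw [List.prod_nil, sl_one, tr_one]
      simp
    · have := hloc _ (hp3 x hx)
      exact ⟨sl_eq this, tr_eq this⟩
  have hmem : ∀ x ∈ M, ∀ b, act ((gb b).prod * (p x).prod) x ∈ M := fun x hx b =>
    hM.mem (mul_mem (hgbl b).mem (hp1 x hx).mem) hx
  set blk : Ultrafilter ℤ → Bool → List (Equiv.Perm ℤ) := fun x b =>
    q (act ((gb b).prod * (p x).prod) x) ++ (gb b ++ p x) with hblk
  -- the affine map of a block
  have hval : ∀ x ∈ M, ∀ b, ∀ s : ℚ, |s| ≤ R' → ∃ s2 : ℚ, |s2| ≤ R + 1 ∧
      (s - tr x (blk x b).prod) / sl x (blk x b).prod =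
        (s2 - (if b then T else 0) - tr x (p x).prod) / sl x (p x).prod := by
    intro x hx b s hs
    have hy := hmem x hx b
    set y := act ((gb b).prod * (p x).prod) x with hydef
    have hqy : 0 < sl y (q y).prod := sl_pos (hCT (hq1 y hy).mem)
    have hpx : 0 < sl x (p x).prod := sl_pos (hCT (hp1 x hx).mem)
    refine ⟨(s - tr y (q y).prod) / sl y (q y).prod, ?_, ?_⟩
    · have e1 : (s - tr y (q y).prod) / sl y (q y).prod =
          s / sl y (q y).prod + phi y (q y).prod := by
        unfold phi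
        ring
      rw [e1]
      refine (abs_add_le _ _).trans ?_
      have e2 : |s / sl y (q y).prod| ≤ 1 := by
        rw [abs_div, abs_of_pos hqy, div_le_one hqy]
        have := hq3 y hy
        linarith
      have e3 := hq4 y hy
      linarith
    · obtain ⟨g1, g2⟩ := hgm x hx b
      have e1 : (blk x b).prod = (q y).prod * ((gb b).prod * (p x).prod) := by
        change (q y ++ (gb b ++ p x)).prod = _
        rw [List.prod_append, List.prod_append]
      have hgbm := hCT (hgbl b).mem
      have hpm := hCT (hp1 x hx).mem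
      have e2 : sl x ((gb b).prod * (p x).prod) = sl x (p x).prod := by
        rw [sl_mul hgbm hpm, g1, one_mul]
      have e3 : tr x ((gb b).prod * (p x).prod) = tr x (p x).prod + if b then T else 0 := by
        rw [tr_mul hgbm hpm, g1, one_mul, g2]
      rw [e1, sl_mul (hCT (hq1 y hy).mem) (mul_mem hgbm hpm),
        tr_mul (hCT (hq1 y hy).mem) (mul_mem hgbm hpm), ← hydef, e2, e3]
      field_simp
      ring
  have hpx : ∀ x ∈ M, (C⁻¹) ^ m ≤ sl x (p x).prod := fun x hx =>
    (word_bound hCT hC (fun u s hs => ⟨(hC' u s hs).1, (hC' u s hs).2.1⟩) x _ (hp1 x hx)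
      (hp2 x hx)).1
  refine branch hCT hS hM hexp (blk := blk) (n0 := n0 * N + (lg.length + m)) (R := R') hR'0
    ?_ ?_ ?_ ?_
  · intro x hx b
    exact (hq1 _ (hmem x hx b)).append ((hgbl b).append (hp1 x hx))
  · intro x hx b
    change (q _ ++ (gb b ++ p x)).length ≤ _
    rw [List.length_append, List.length_append]
    have e1 := hq2 _ (hmem x hx b)
    have e2 := hgblen b
    have e3 := hp2 x hx
    omega
  · intro x hx b s hs
    obtain ⟨s2, h1, h2⟩ := hval x hx b s hs
    rw [h2]
    have e1 : 0 < sl x (p x).prod := sl_pos (hCT (hp1 x hx).mem)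
    have e2 := word_tr hCT hC hC' x _ (hp1 x hx) (hp2 x hx)
    have e3 : |s2 - (if b then T else 0) - tr x (p x).prod| ≤ 1 + R + |T| + m * C ^ m := by
      refine (abs_sub _ _).trans ?_
      have e4 : |s2 - (if b then T else 0)| ≤ R + 1 + |T| := by
        refine (abs_sub _ _).trans ?_
        cases b
        · simp only [Bool.false_eq_true, if_false, abs_zero]
          have := abs_nonneg T
          linarith
        · simp only [if_true]
          linarith
      linarith
    rw [abs_div, abs_of_pos e1, div_le_iff₀ e1]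
    have e5 : C ^ m * sl x (p x).prod ≥ 1 := by
      have h5 := mul_le_mul_of_nonneg_left (hpx x hx) (show (0 : ℚ) ≤ C ^ m by linarith)
      rw [← mul_pow, mul_inv_cancel₀ (by linarith), one_pow] at h5
      exact h5
    have e6 : 0 ≤ 1 + R + |T| + m * C ^ m := by
      have := abs_nonneg T
      positivity
    calc |s2 - (if b then T else 0) - tr x (p x).prod| ≤ (1 + R + |T| + m * C ^ m) * 1 := by
          rw [mul_one]
          exact e3
      _ ≤ (1 + R + |T| + m * C ^ m) * (C ^ m * sl x (p x).prod) :=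
          mul_le_mul_of_nonneg_left e5 e6
      _ = R' * sl x (p x).prod := by
          rw [hR']
          ring
  · intro x hx s s' hs hs' he
    obtain ⟨s2, h1, h2⟩ := hval x hx true s hs
    obtain ⟨s2', h1', h2'⟩ := hval x hx false s' hs'
    rw [h2, h2'] at he
    have e1 : 0 < sl x (p x).prod := sl_pos (hCT (hp1 x hx).mem)
    have e2 := (div_left_inj' e1.ne').1 he
    simp only [if_true, Bool.false_eq_true, if_false] at e2
    have e3 : T = s2 - s2' := by linarith
    have e4 := abs_sub s2 s2'
    rw [← e3] at e4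
    linarith

end Pool.Agent.Lgp
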