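import Pool.Agent.Lgp.LemX
import Pool.Agent.Lgp.ClT

/-!
# Counting germs; the germs at a recurrent point
-/

namespace Pool.Agent.Lgp

open Pool.Agent.CTm Pool.Agent.Grm Filter Nat Topology

variable {S : Set (Equiv.Perm ℤ)} {M : Set (Ultrafilter ℤ)} {M0 : ℕ} {A : Finset (ℚ × ℚ)}
  {F : Finset ℚ} {a b L1 L2 : ℕ}

theorem tr_int {u : Ultrafilter ℤ} {h : Equiv.Perm ℤ} (hh : h ∈ CT) (h1 : sl u h = 1) :
    ∃ t : ℤ, tr u h = t := by
  obtain ⟨r, Q, _, hr, h2⟩ := gm_sl (u := u) hh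
  have e := h2 r (cl_self _ _)
  simp only at e
  rw [h1] at e
  refine ⟨h r - r, ?_⟩
  push_cast
  linarith

theorem act_inv {u : Ultrafilter ℤ} {h : Equiv.Perm ℤ} : act h⁻¹ (act h u) = u := by
  rw [← act_mul, inv_mul_cancel, act_one]

/-- the slope of `h' h⁻¹` -/
theorem sl_div {u : Ultrafilter ℤ} {h h' : Equiv.Perm ℤ} (hh : h ∈ CT) (hh' : h' ∈ CT) :
    sl u h' = sl (act h u) (h' * h⁻¹) * sl u h ∧
      tr u h' = sl (act h u) (h' * h⁻¹) * tr u h + tr (act h u) (h' * h⁻¹) := by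
  have h1 : h' = (h' * h⁻¹) * h := by group
  constructor
  · conv_lhs => rw [h1]
    exact sl_mul (mul_mem hh' (inv_mem hh)) hh
  · conv_lhs => rw [h1]
    exact tr_mul (mul_mem hh' (inv_mem hh)) hh

/-- at most `C (n + 1)` germs of words of length `n` -/
theorem R1.count (R : R1 S M M0 A F a b L1 L2) (hexp : NoExp S) : ∃ C0 : ℕ, ∀ u ∈ M, ∀ n : ℕ,
    ∀ X : Finset (Equiv.Perm ℤ), (∀ h ∈ X, h ∈ ball S n) →
      (∀ h ∈ X, ∀ h' ∈ X, sl u h = sl u h' → tr u h = tr u h' → h = h') →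
      X.card ≤ C0 * (n + 1) := by
  classical
  obtain ⟨C, hC, hC'⟩ := letter_bound R.hd
  obtain ⟨T, hT⟩ := tr_bdd R.hCT R.fin R.hd R.mnl R.up hexp
  obtain ⟨T', hT'⟩ := exists_nat_ge T
  obtain ⟨B, hB, hB'⟩ := fin_bound F R.fpos
  have hlam := lam_gt R.b0 R.ab
  have hlam0 : (0 : ℚ) < (a : ℚ) / b := by linarith
  obtain ⟨c1, hc1⟩ := pow_unbounded_of_one_lt C hlam
  obtain ⟨c2, hc2⟩ := pow_unbounded_of_one_lt B hlam
  refine ⟨(2 * T' + 1) * (F.card * (2 * (c1 + c2) + 1)), fun u hu n X hX hinj => ?_⟩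
  have hXH : ∀ h ∈ X, h ∈ Subgroup.closure S := by
    intro h hh
    obtain ⟨l, _, h2, rfl⟩ := hX h hh
    exact list_mem h2
  -- the slopes
  have hsl : X.image (fun h => sl u h) ⊆ (F ×ˢ Finset.Icc (-((c1 * n + c2 : ℕ) : ℤ)) ((c1 * n + c2 : ℕ) : ℤ)).image
      (fun c => c.1 * ((a : ℚ) / b) ^ c.2) := by
    intro s hs
    obtain ⟨h, hh, rfl⟩ := Finset.mem_image.1 hs
    obtain ⟨l, hl1, hl2, rfl⟩ := hX h hh
    obtain ⟨f, hf, k, hk⟩ := R.slope u hu _ (hXH _ hh)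
    have hw := word_bound R.hCT hC (fun u s hs => ⟨(hC' u s hs).1, (hC' u s hs).2.1⟩) u l hl2 hl1
    rw [hk] at hw
    obtain ⟨hf1, hf2⟩ := hB' f hf
    have hB0 : 0 < B := by linarith
    have hCB : C ^ n * B ≤ ((a : ℚ) / b) ^ (c1 * n + c2) := by
      rw [pow_add, pow_mul]
      exact mul_le_mul (pow_le_pow_left₀ (by linarith) hc1.le n) hc2.le hB0.le
        (pow_nonneg (pow_nonneg hlam0.le _) _)
    have hCn : 0 < C ^ n := pow_pos (by linarith) n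
    refine Finset.mem_image.2 ⟨(f, k), Finset.mem_product.2 ⟨hf, Finset.mem_Icc.2 ⟨?_, ?_⟩⟩, hk.symm⟩
    · by_contra hlt
      simp only [not_le] at hlt
      have h1 : ((a : ℚ) / b) ^ k < ((a : ℚ) / b) ^ (-((c1 * n + c2 : ℕ) : ℤ)) :=
        zpow_lt_zpow_right₀ hlam hlt
      rw [zpow_neg, zpow_natCast] at h1
      have h2 : (C⁻¹) ^ n ≤ B * ((a : ℚ) / b) ^ k :=
        hw.1.trans (mul_le_mul_of_nonneg_right hf1 (zpow_nonneg hlam0.le _))
      have h3 : B * ((a : ℚ) / b) ^ k < B * (((a : ℚ) / b) ^ (c1 * n + c2))⁻¹ :=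
        mul_lt_mul_of_pos_left h1 hB0
      have h4 : B * (((a : ℚ) / b) ^ (c1 * n + c2))⁻¹ ≤ B * (C ^ n * B)⁻¹ :=
        mul_le_mul_of_nonneg_left (inv_anti₀ (mul_pos hCn hB0) hCB) hB0.le
      have h5 : B * (C ^ n * B)⁻¹ = (C⁻¹) ^ n := by
        rw [inv_pow]
        field_simp
      linarith
    · by_contra hlt
      simp only [not_le] at hlt
      have h1 : ((a : ℚ) / b) ^ (((c1 * n + c2 : ℕ) : ℤ)) < ((a : ℚ) / b) ^ k :=
        zpow_lt_zpow_right₀ hlam hlt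
      rw [zpow_natCast] at h1
      have h2 : B⁻¹ * ((a : ℚ) / b) ^ k ≤ C ^ n :=
        (mul_le_mul_of_nonneg_right hf2 (zpow_nonneg hlam0.le _)).trans hw.2
      rw [inv_mul_le_iff₀ hB0, mul_comm] at h2
      linarith
  have hcard1 : (X.image (fun h => sl u h)).card ≤ F.card * (2 * (c1 * n + c2) + 1) := by
    refine (Finset.card_le_card hsl).trans (Finset.card_image_le.trans ?_)
    rw [Finset.card_product, Int.card_Icc]
    refine Nat.mul_le_mul_left _ ?_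
    omega
  -- the translations
  have hcard2 : X.card ≤ (2 * T' + 1) * (X.image (fun h => sl u h)).card := by
    refine Finset.card_le_mul_card_image X _ fun s hs => ?_
    obtain ⟨h0, hh0, hs0⟩ := Finset.mem_image.1 hs
    have hY : ∀ h ∈ X.filter (fun h => sl u h = s), ∃ t : ℤ, tr u h - tr u h0 = t ∧
        -(T' : ℤ) ≤ t ∧ t ≤ T' := by
      intro h hh
      obtain ⟨hhX, hhs⟩ := Finset.mem_filter.1 hh
      have e0 := R.hCT (hXH _ hh0)
      have e1 := R.hCT (hXH _ hhX)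
      obtain ⟨k1, k2⟩ := sl_div (u := u) e0 e1
      have hpos : 0 < sl u h0 := sl_pos e0
      have k3 : sl (act h0 u) (h * h0⁻¹) = 1 := by
        rw [hhs, ← hs0] at k1
        have : (sl (act h0 u) (h * h0⁻¹) - 1) * sl u h0 = 0 := by linarith
        rcases mul_eq_zero.1 this with h | h
        · linarith
        · exact absurd h hpos.ne'
      have hmem : h * h0⁻¹ ∈ Subgroup.closure S := mul_mem (hXH _ hhX) (inv_mem (hXH _ hh0))
      obtain ⟨t, ht⟩ := tr_int (R.hCT hmem) k3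
      have k4 := hT _ (R.mnl.mem (hXH _ hh0) hu) _ hmem k3
      rw [k3, one_mul, ht] at k2
      rw [ht] at k4
      have k5 : |(t : ℚ)| ≤ T' := k4.trans hT'
      rw [abs_le] at k5
      refine ⟨t, by linarith, ?_, ?_⟩
      · exact_mod_cast k5.1
      · exact_mod_cast k5.2
    choose! τ hτ1 hτ2 hτ3 using hY
    have h1 : (X.filter (fun h => sl u h = s)).card ≤ (Finset.Icc (-(T' : ℤ)) T').card := by
      refine Finset.card_le_card_of_injOn τ ?_ ?_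
      · intro h hh
        exact Finset.mem_coe.2 (Finset.mem_Icc.2 ⟨hτ2 h hh, hτ3 h hh⟩)
      · intro h hh h' hh' he
        have e1 := hτ1 h hh
        have e2 := hτ1 h' hh'
        rw [he] at e1
        have hh1 := Finset.mem_filter.1 (Finset.mem_coe.1 hh)
        have hh2 := Finset.mem_filter.1 (Finset.mem_coe.1 hh')
        exact hinj h hh1.1 h' hh2.1 (by rw [hh1.2, hh2.2]) (by linarith)
    refine h1.trans ?_
    rw [Int.card_Icc]
    omega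
  calc X.card ≤ (2 * T' + 1) * (X.image (fun h => sl u h)).card := hcard2
    _ ≤ (2 * T' + 1) * (F.card * (2 * (c1 * n + c2) + 1)) := Nat.mul_le_mul_left _ hcard1
    _ ≤ (2 * T' + 1) * (F.card * ((2 * (c1 + c2) + 1) * (n + 1))) := by
        refine Nat.mul_le_mul_left _ (Nat.mul_le_mul_left _ ?_)
        nlinarith
    _ = (2 * T' + 1) * (F.card * (2 * (c1 + c2) + 1)) * (n + 1) := by ring

/-- no power of a Markov map is trivial near a recurrent point -/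
theorem R1.no_pow (R : R1 S M M0 A F a b L1 L2) (hexp : NoExp S) : ∃ c0 : ℕ, ∀ c, c0 ≤ c →
    ∀ L, L2 ∣ L → 0 < L → ∀ u ∈ M, ∀ ρ : ℤ, Rec S a b (L * a ^ c * b ^ c) ρ u →
      ∀ (κ : ℕ) (g : Equiv.Perm ℤ) (r r' : ℤ), 1 ≤ κ → g ∈ Subgroup.closure S →
        Mk (L * a ^ c * b ^ c) (a ^ κ) (b ^ κ) ρ g r r' →
        ∀ j : ℕ, ¬ Gm u (g ^ (j + 1)) (1, 0) := by
  obtain ⟨k1, h7⟩ := R.seven hexp
  refine ⟨k1, fun c hc L hL hL0 u hu ρ hur κ g r r' hκ hg hmk j hj => ?_⟩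
  have ha0 : 0 < a := by have := R.ab; omega
  set N : ℕ := L * a ^ c * b ^ c with hN
  have hNp : 0 < N := Nat.mul_pos (Nat.mul_pos hL0 (Nat.pow_pos ha0)) (Nat.pow_pos R.b0)
  have hgj : g ^ (j + 1) ∈ Subgroup.closure S := pow_mem hg _
  obtain ⟨β, hβ⟩ := h7 u hu _ hgj hj
  obtain ⟨κ', hκ', g', hg', s, s', hmk', hsu⟩ := hur β
  have hdv : L2 * a ^ k1 * b ^ β ∣ N * b ^ κ' := by
    have e : N * b ^ κ' = L * a ^ c * b ^ (c + κ') := by rw [hN, pow_add, mul_assoc, mul_assoc]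
    rw [e]
    exact mul_dvd_mul (mul_dvd_mul hL (pow_dvd_pow a hc)) (pow_dvd_pow b (by omega))
  have hD : ∀ n ∈ cl s (N * b ^ κ'), (g ^ (j + 1)) n = n := by
    intro n hn
    have h1 := hβ s (cl_coarse hsu hdv)
    exact h1 n (cl_sub (cl_self _ _) hdv hn)
  have hcop : ∀ i j : ℕ, Nat.Coprime (a ^ i) (b ^ j) := fun i j => Nat.Coprime.pow i j R.cop
  obtain ⟨J, q, q', hq1, _, _, hq4⟩ := hmk'.milnor R.fin hexp hgj hg' (hcop κ' κ') hD
  obtain ⟨p, p', hp1, _, _, _⟩ := hmk.pow (hcop κ κ) j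
  have hlam := lam_gt R.b0 R.ab
  have hlam0 : (0 : ℚ) < (a : ℚ) / b := by linarith
  have hb0 : (b : ℚ) ≠ 0 := by exact_mod_cast R.b0.ne'
  -- the affine map on the domain of the power
  have haff : ∀ n ∈ cl p (N * (b ^ κ) ^ (j + 1)), (((g ^ (j + 1)) n : ℤ) : ℚ) =
      ((a : ℚ) / b) ^ (κ * (j + 1)) * n + (p' - ((a : ℚ) / b) ^ (κ * (j + 1)) * p) := by
    intro n hn
    obtain ⟨t, rfl⟩ := mem_cl_mul.1 hn
    rw [hp1.2.2 t]
    push_cast
    rw [← pow_mul, ← pow_mul, div_pow]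
    field_simp
    ring
  have hmeet : ∃ m : ℤ, m ∈ cl q' (N * (a ^ κ') ^ (J + 1)) ∧ m ∈ cl p (N * (b ^ κ) ^ (j + 1)) := by
    refine crt fun d h1 h2 => ?_
    have h3 : d ∣ N := by
      have h4 := Nat.dvd_gcd h1 h2
      rw [Nat.gcd_mul_left, ← pow_mul, ← pow_mul, (hcop _ _ : Nat.gcd _ _ = 1), mul_one] at h4
      exact h4
    have h5 := dvd_sub hq1.2.1 hp1.1
    rw [sub_sub_sub_cancel_right] at h5
    exact (Int.natCast_dvd_natCast.2 h3).trans h5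
  obtain ⟨m, hm1, hm2⟩ := hmeet
  have hpos1 : 0 < N * (a ^ κ') ^ (J + 1) := Nat.mul_pos hNp (Nat.pow_pos (Nat.pow_pos ha0))
  have hpos2 : 0 < N * (b ^ κ) ^ (j + 1) := Nat.mul_pos hNp (Nat.pow_pos (Nat.pow_pos R.b0))
  obtain ⟨e1, _⟩ := id_of_meet hpos2 hpos1 haff hq4 hm2 hm1
  have e2 : 1 < ((a : ℚ) / b) ^ (κ * (j + 1)) := one_lt_pow₀ hlam (by positivity)
  linarith

end Pool.Agent.Lgp
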