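import Pool.Agent.Lgp.Rel
import Pool.Agent.Grm.RcwaCT

/-!
# Germs and residues along an orbit
-/

namespace Pool.Agent.Lgp

open Pool.Agent.CTm Pool.Agent.Grm Filter Nat

variable {S : Set (Equiv.Perm ℤ)} {M : ℕ} {A : Finset (ℚ × ℚ)} {y : ℕ → ℤ}

theorem exists_germ (hd : Data S M A) (hy : Pro y) {g : Equiv.Perm ℤ}
    (hg : g ∈ Subgroup.closure S) : ∃ a : ℚ × ℚ, 0 < a.1 ∧ Germ y g a := by
  obtain ⟨l, hl, rfl⟩ := list_of_closure hg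
  clear hg
  induction l with
  | nil => exact ⟨(1, 0), one_pos, Germ.one⟩
  | cons s l ih =>
    obtain ⟨a, ha0, ha⟩ := ih fun x hx => hl x (by simp [hx])
    obtain ⟨b, hb, hb'⟩ := Germ.step hy hd ha (hl s (by simp))
    rw [List.prod_cons]
    exact ⟨_, mul_pos (hd.slope b hb) ha0, hb'⟩

/-- continuity -/
theorem germ_cont (hy : Pro y) {g : Equiv.Perm ℤ} {a : ℚ × ℚ} (hg : Germ y g a) (Q : ℕ) (hQ : 0 < Q) :
    ∃ i0 : ℕ, ∀ i : ℕ, i0 ≤ i → ∀ n : ℤ, ((i ! : ℕ) : ℤ) ∣ n - y i →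
      ((Q : ℕ) : ℤ) ∣ g n - g (y i) := by
  obtain ⟨j, hj⟩ := hg.deep hy
  have hv : 0 < a.1.den := a.1.den_pos
  refine ⟨max j (a.1.den * Q), fun i hi n hn => ?_⟩
  have e1 := hj i (le_trans (le_max_left _ _) hi) n hn
  have e2 := hj i (le_trans (le_max_left _ _) hi) (y i) (by simp)
  have h1 : a.1.den * Q ∣ i ! :=
    (Nat.dvd_factorial (Nat.mul_pos hv hQ) le_rfl).trans
      (Nat.factorial_dvd_factorial (le_trans (le_max_right _ _) hi))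
  obtain ⟨c, hc⟩ := h1
  obtain ⟨k, hk⟩ := hn
  refine ⟨a.1.num * c * k, ?_⟩
  have h10 : a.1 * (a.1.den : ℚ) = a.1.num := Rat.mul_den_eq_num a.1
  have h2 : ((g n - g (y i) : ℤ) : ℚ) = (((Q : ℕ) : ℤ) * (a.1.num * c * k) : ℤ) := by
    have h3 : ((n - y i : ℤ) : ℚ) = (((i ! : ℕ) : ℤ) * k : ℤ) := by rw [hk]
    rw [hc] at h3
    push_cast at h3 ⊢
    rw [e1, e2]
    linear_combination a.1 * h3 + (Q : ℚ) * c * k * h10
  exact_mod_cast h2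

/-- the residue of `g y` modulo `Q` -/
theorem exists_resid (hd : Data S M A) (hy : Pro y) {g : Equiv.Perm ℤ}
    (hg : g ∈ Subgroup.closure S) (Q : ℕ) (hQ : 0 < Q) :
    ∃ r : ZMod Q, ∃ i : ℕ, ∀ n : ℤ, ((i ! : ℕ) : ℤ) ∣ n - y i → ((g n : ℤ) : ZMod Q) = r := by
  obtain ⟨a, _, ha⟩ := exists_germ hd hy hg
  obtain ⟨i, hi⟩ := germ_cont hy ha Q hQ
  refine ⟨((g (y i) : ℤ) : ZMod Q), i, fun n hn => ?_⟩
  have h1 := hi i le_rfl n hn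
  rw [← sub_eq_zero, ← Int.cast_sub, ZMod.intCast_zmod_eq_zero_iff_dvd]
  exact h1

/-- two points which are congruent modulo `M` have the same affine pieces -/
theorem common_germ (hd : Data S M A) (hy : Pro y) {g g' : Equiv.Perm ℤ}
    (hg : g ∈ Subgroup.closure S) (hg' : g' ∈ Subgroup.closure S) {s : Equiv.Perm ℤ}
    (hs : s ∈ S ∨ s⁻¹ ∈ S)
    (h : ∃ i : ℕ, ∀ n : ℤ, ((i ! : ℕ) : ℤ) ∣ n - y i → (M : ℤ) ∣ g n - g' n) :
    ∃ c ∈ A, ∃ i : ℕ, ∀ n : ℤ, ((i ! : ℕ) : ℤ) ∣ n - y i →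
      ((s (g n) : ℤ) : ℚ) = c.1 * (g n : ℤ) + c.2 ∧ ((s (g' n) : ℤ) : ℚ) = c.1 * (g' n : ℤ) + c.2 := by
  obtain ⟨i, hi⟩ := h
  obtain ⟨a, _, ha⟩ := exists_germ hd hy hg
  obtain ⟨b, _, hb⟩ := exists_germ hd hy hg'
  obtain ⟨i1, h1⟩ := germ_cont hy ha M hd.pos
  obtain ⟨i2, h2⟩ := germ_cont hy hb M hd.pos
  set I := max i (max i1 i2) with hI
  have hI1 : i ≤ I := le_max_left _ _
  have hI2 : i1 ≤ I := (le_max_left _ _).trans (le_max_right _ _)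
  have hI3 : i2 ≤ I := (le_max_right _ _).trans (le_max_right _ _)
  obtain ⟨c, hc, hc'⟩ := hd.aff s hs (g (y I))
  refine ⟨c, hc, I, fun n hn => ⟨hc' _ (h1 I hI2 n hn), hc' _ ?_⟩⟩
  have e1 := h1 I hI2 n hn
  have e2 := hi n (pro_deep hy hI1 hn)
  have e3 : g' n - g (y I) = (g n - g (y I)) - (g n - g' n) := by ring
  rw [e3]
  exact dvd_sub e1 e2

end Pool.Agent.Lgp
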