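import Pool.Agent.Grm.Milnor

/-!
# Finite generation of co-abelian subgroups
-/

namespace Pool.Agent.Lgp

open Pool.Agent.CTm Pool.Agent.Grm Filter

variable {G : Type*} [Group G]

/-- the growth of `S` is not exponential -/
def NoExp (S : Set G) : Prop :=
  ¬ ∃ c : ℝ, 1 < c ∧ ∀ᶠ n : ℕ in atTop, c ^ n ≤ growth S n

theorem conj_mem_closure {A : Set G} {H : Subgroup G} (s : G) (h : ∀ y ∈ A, s * y * s⁻¹ ∈ H) {x : G}
    (hx : x ∈ Subgroup.closure A) : s * x * s⁻¹ ∈ H := by
  induction hx using Subgroup.closure_induction with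
  | mem x hx => exact h x hx
  | one =>
    rw [mul_one, mul_inv_cancel]
    exact one_mem H
  | mul x y _ _ hx hy =>
    have h1 : s * (x * y) * s⁻¹ = (s * x * s⁻¹) * (s * y * s⁻¹) := by group
    rw [h1]
    exact mul_mem hx hy
  | inv x _ hx =>
    have h1 : s * x⁻¹ * s⁻¹ = (s * x * s⁻¹)⁻¹ := by group
    rw [h1]
    exact inv_mem hx

/-- all conjugates `t^i g t^(-i)`, `i ∈ ℤ`, of finitely many `g` lie in a group generated by finitely many of
them -/
theorem conj_fg {S : Set G} (hS : S.Finite) (hexp : NoExp S) (F : Set G) (hF : F.Finite)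
    (hFS : ∀ g ∈ F, g ∈ Subgroup.closure S) {t : G} (ht : t ∈ Subgroup.closure S) :
    ∃ E : Set G, E.Finite ∧ (∀ y ∈ E, ∃ g ∈ F, ∃ i : ℤ, y = t ^ i * g * (t ^ i)⁻¹) ∧
      ∀ g ∈ F, ∀ i : ℤ, t ^ i * g * (t ^ i)⁻¹ ∈ Subgroup.closure E := by
  have h1 : ∀ g ∈ F, ∃ k : ℕ, ∀ i : ℕ, t ^ i * g * (t ^ i)⁻¹ ∈
      Subgroup.closure {y | ∃ j < k, y = t ^ j * g * (t ^ j)⁻¹} := fun g hg =>
    milnor hS (hFS g hg) ht hexp
  have h2 : ∀ g ∈ F, ∃ k : ℕ, ∀ i : ℕ, (t⁻¹) ^ i * g * ((t⁻¹) ^ i)⁻¹ ∈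
      Subgroup.closure {y | ∃ j < k, y = (t⁻¹) ^ j * g * ((t⁻¹) ^ j)⁻¹} := fun g hg =>
    milnor hS (hFS g hg) (inv_mem ht) hexp
  choose! k1 hk1 using h1
  choose! k2 hk2 using h2
  refine ⟨⋃ g ∈ F, ((fun i : ℤ => t ^ i * g * (t ^ i)⁻¹) '' Set.Icc (-(k2 g : ℤ)) (k1 g : ℤ)), ?_, ?_, ?_⟩
  · exact hF.biUnion fun g _ => (Set.finite_Icc _ _).image _
  · intro y hy
    simp only [Set.mem_iUnion, Set.mem_image] at hy
    obtain ⟨g, hg, i, _, rfl⟩ := hy
    exact ⟨g, hg, i, rfl⟩
  · intro g hg i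
    rcases Int.eq_nat_or_neg i with ⟨n, rfl | rfl⟩
    · rw [zpow_natCast]
      refine Subgroup.closure_mono ?_ (hk1 g hg n)
      rintro _ ⟨j, hj, rfl⟩
      simp only [Set.mem_iUnion, Set.mem_image]
      exact ⟨g, hg, (j : ℤ), ⟨by omega, by omega⟩, by rw [zpow_natCast]⟩
    · rw [zpow_neg, zpow_natCast, ← inv_pow]
      refine Subgroup.closure_mono ?_ (hk2 g hg n)
      rintro _ ⟨j, hj, rfl⟩
      simp only [Set.mem_iUnion, Set.mem_image]
      exact ⟨g, hg, -(j : ℤ), ⟨by omega, by omega⟩, by rw [zpow_neg, zpow_natCast, ← inv_pow]⟩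

/-- the cyclic step: `U` is finitely generated, `U = W ⟨t⟩`, `W` normalised by `t`; then `W` is finitely
generated -/
theorem cyclic_step {S : Set G} (hS : S.Finite) (hexp : NoExp S) {U W : Subgroup G} {t : G}
    (hU : U.FG) (hUS : U ≤ Subgroup.closure S) (hWU : W ≤ U) (ht : t ∈ U)
    (h1 : ∀ w ∈ W, ∀ i : ℤ, t ^ i * w * (t ^ i)⁻¹ ∈ W)
    (h2 : ∀ u ∈ U, ∃ w ∈ W, ∃ i : ℤ, u = w * t ^ i) : W.FG := by
  classical
  obtain ⟨T, hT⟩ := hU
  have hTU : ∀ u ∈ T, u ∈ U := by
    intro u hu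
    rw [← hT]
    exact Subgroup.subset_closure hu
  choose! w hw e he using h2
  -- the finite set of the components
  obtain ⟨E, hE, hE1, hE2⟩ := conj_fg hS hexp (w '' (T : Set G)) (T.finite_toSet.image _)
    (by
      rintro _ ⟨u, hu, rfl⟩
      exact hUS (hWU (hw u (hTU u hu)))) (hUS ht)
  have hEW : ∀ y ∈ E, y ∈ W := by
    intro y hy
    obtain ⟨g, ⟨u, hu, rfl⟩, i, rfl⟩ := hE1 y hy
    exact h1 _ (hw u (hTU u hu)) i
  -- `A = ⟨E⟩` is normalised by `t`
  have hA : ∀ i : ℤ, ∀ a ∈ Subgroup.closure E, t ^ i * a * (t ^ i)⁻¹ ∈ Subgroup.closure E := by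
    intro i a ha
    refine conj_mem_closure (t ^ i) ?_ ha
    intro y hy
    obtain ⟨g, hg, j, rfl⟩ := hE1 y hy
    have h3 := hE2 g hg (i + j)
    have h4 : t ^ (i + j) * g * (t ^ (i + j))⁻¹ = t ^ i * (t ^ j * g * (t ^ j)⁻¹) * (t ^ i)⁻¹ := by
      rw [zpow_add]
      group
    rwa [h4] at h3
  -- every element of `U` is in `A ⟨t⟩`
  have hUA : ∀ u ∈ U, ∃ a ∈ Subgroup.closure E, ∃ i : ℤ, u = a * t ^ i := by
    intro u hu
    rw [← hT] at hu
    induction hu using Subgroup.closure_induction with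
    | mem u hu =>
      refine ⟨w u, ?_, e u, he u (hTU u hu)⟩
      have h3 := hE2 (w u) ⟨u, hu, rfl⟩ 0
      simpa using h3
    | one => exact ⟨1, one_mem _, 0, by simp⟩
    | mul u v _ _ hu hv =>
      obtain ⟨a, ha, i, rfl⟩ := hu
      obtain ⟨b, hb, j, rfl⟩ := hv
      refine ⟨a * (t ^ i * b * (t ^ i)⁻¹), mul_mem ha (hA i b hb), i + j, ?_⟩
      rw [zpow_add]
      group
    | inv u _ hu =>
      obtain ⟨a, ha, i, rfl⟩ := hu
      refine ⟨t ^ (-i) * a⁻¹ * (t ^ (-i))⁻¹, hA (-i) _ (inv_mem ha), -i, ?_⟩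
      group
  have hAW : Subgroup.closure E ≤ W := by
    rw [Subgroup.closure_le]
    exact hEW
  -- the part of `⟨t⟩` in `W` is cyclic
  have hcyc : ∃ d : ℤ, t ^ d ∈ W ∧ ∀ i : ℤ, t ^ i ∈ W → ∃ k : ℤ, i = d * k := by
    let D : AddSubgroup ℤ :=
      { carrier := {i : ℤ | t ^ i ∈ W}
        zero_mem' := by simp
        add_mem' := by
          intro a b ha hb
          simp only [Set.mem_ofPred_eq] at ha hb ⊢
          rw [zpow_add]
          exact mul_mem ha hb
        neg_mem' := by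
          intro a ha
          simp only [Set.mem_ofPred_eq] at ha ⊢
          rw [zpow_neg]
          exact inv_mem ha }
    obtain ⟨d, hd⟩ := Int.subgroup_cyclic D
    have hdD : d ∈ D := by
      rw [hd]
      exact AddSubgroup.mem_closure_singleton_self d
    refine ⟨d, hdD, fun i hi => ?_⟩
    have h3 : i ∈ D := hi
    rw [hd, AddSubgroup.mem_closure_singleton] at h3
    obtain ⟨k, hk⟩ := h3
    exact ⟨k, by rw [← hk, smul_eq_mul, mul_comm]⟩
  obtain ⟨d, hd, hd2⟩ := hcyc
  refine (Subgroup.fg_iff _).2 ⟨insert (t ^ d) E, ?_, hE.insert _⟩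
  apply le_antisymm
  · rw [Subgroup.closure_le]
    intro y hy
    rcases Set.mem_insert_iff.1 hy with rfl | hy
    · exact hd
    · exact hEW y hy
  · intro u hu
    obtain ⟨a, ha, i, hi⟩ := hUA u (hWU hu)
    have h3 : t ^ i ∈ W := by
      have h4 : t ^ i = a⁻¹ * u := by rw [hi]; group
      rw [h4]
      exact mul_mem (inv_mem (hAW ha)) hu
    obtain ⟨k, hk⟩ := hd2 i h3
    rw [hi, hk, zpow_mul]
    refine mul_mem (Subgroup.closure_mono (Set.subset_insert _ _) ha) (zpow_mem ?_ _)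
    exact Subgroup.subset_closure (Set.mem_insert _ _)

/-- a co-abelian subgroup `V` of a finitely generated group `U` is finitely generated (no exponential
growth) -/
theorem coabelian_fg {S : Set G} (hS : S.Finite) (hexp : NoExp S) {U V : Subgroup G}
    (hU : U.FG) (hUS : U ≤ Subgroup.closure S) (hVU : V ≤ U)
    (hc : ∀ a ∈ U, ∀ b ∈ U, a * b * a⁻¹ * b⁻¹ ∈ V) : V.FG := by
  classical
  obtain ⟨T, hT⟩ := hU
  have hTU : ∀ u ∈ T, u ∈ U := by
    intro u hu
    rw [← hT]
    exact Subgroup.subset_closure hu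
  have key : ∀ T' : Finset G, T' ⊆ T → (V ⊔ Subgroup.closure (T' : Set G)).FG → V.FG := by
    intro T'
    induction T' using Finset.induction_on with
    | empty =>
      intro _ h
      simpa using h
    | insert t T' _ ih =>
      intro hsub h
      have hsub' : T' ⊆ T := (Finset.subset_insert _ _).trans hsub
      have htU : t ∈ U := hTU t (hsub (Finset.mem_insert_self _ _))
      refine ih hsub' ?_
      set W := V ⊔ Subgroup.closure (T' : Set G) with hW
      have hUle : ∀ T'' : Finset G, T'' ⊆ T → V ⊔ Subgroup.closure (T'' : Set G) ≤ U := by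
        intro T'' h3
        refine sup_le hVU ?_
        rw [Subgroup.closure_le]
        exact fun x hx => hTU x (h3 hx)
      have hWU : W ≤ U := hUle T' hsub'
      have hVW : V ≤ W := le_sup_left
      have hconj : ∀ w ∈ W, ∀ i : ℤ, t ^ i * w * (t ^ i)⁻¹ ∈ W := by
        intro w hw i
        have h3 : t ^ i * w * (t ^ i)⁻¹ = (t ^ i * w * (t ^ i)⁻¹ * w⁻¹) * w := by group
        rw [h3]
        exact mul_mem (hVW (hc _ (zpow_mem htU i) _ (hWU hw))) hw
      have hWins : W ≤ V ⊔ Subgroup.closure ((insert t T' : Finset G) : Set G) := by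
        refine sup_le_sup_left (Subgroup.closure_mono ?_) _
        rw [Finset.coe_insert]
        exact Set.subset_insert _ _
      have htins : t ∈ V ⊔ Subgroup.closure ((insert t T' : Finset G) : Set G) := by
        refine (le_sup_right : _ ≤ V ⊔ Subgroup.closure ((insert t T' : Finset G) : Set G)) ?_
        refine Subgroup.subset_closure ?_
        simp
      refine cyclic_step hS hexp (t := t) h ((hUle _ hsub).trans hUS) hWins htins hconj ?_
      -- every element is `w t^i`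
      let B : Subgroup G :=
        { carrier := {u | ∃ w ∈ W, ∃ i : ℤ, u = w * t ^ i}
          one_mem' := ⟨1, one_mem _, 0, by simp⟩
          mul_mem' := by
            rintro _ _ ⟨a, ha, i, rfl⟩ ⟨b, hb, j, rfl⟩
            refine ⟨a * (t ^ i * b * (t ^ i)⁻¹), mul_mem ha (hconj b hb i), i + j, ?_⟩
            rw [zpow_add]
            group
          inv_mem' := by
            rintro _ ⟨a, ha, i, rfl⟩
            refine ⟨t ^ (-i) * a⁻¹ * (t ^ (-i))⁻¹, hconj _ (inv_mem ha) (-i), -i, ?_⟩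
            group }
      have hB : V ⊔ Subgroup.closure ((insert t T' : Finset G) : Set G) ≤ B := by
        refine sup_le ?_ ?_
        · intro v hv
          exact ⟨v, hVW hv, 0, by simp⟩
        · rw [Subgroup.closure_le]
          intro x hx
          rw [Finset.coe_insert] at hx
          rcases Set.mem_insert_iff.1 hx with rfl | hx
          · exact ⟨1, one_mem _, 1, by simp⟩
          · refine ⟨x, ?_, 0, by simp⟩
            exact (le_sup_right : Subgroup.closure (T' : Set G) ≤ W) (Subgroup.subset_closure hx)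
      intro u hu
      exact hB hu
  refine key T (le_refl _) ?_
  have h3 : V ⊔ Subgroup.closure (T : Set G) = U := by
    rw [hT]
    exact sup_eq_right.2 hVU
  rw [h3, ← hT]
  exact ⟨T, rfl⟩

end Pool.Agent.Lgp
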