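import Pool.Agent.Lgp.Seven

/-!
# The case of an integer
-/

namespace Pool.Agent.Lgp

open Pool.Agent.CTm Pool.Agent.Grm Filter Nat Topology

variable {S : Set (Equiv.Perm ℤ)} {M : Set (Ultrafilter ℤ)} {M0 : ℕ} {A : Finset (ℚ × ℚ)}
  {F : Finset ℚ} {a b L1 L2 : ℕ}

/-- the slopes of the final parts of the word are at most `D` -/
def DnW (D : ℚ) (x : Ultrafilter ℤ) (l : List (Equiv.Perm ℤ)) : Prop :=
  ∀ p q, l = p ++ q → sl (act q.prod x) p.prod ≤ D

theorem sl_inv {x : Ultrafilter ℤ} {g : Equiv.Perm ℤ} (hg : g ∈ CT) :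
    sl (act g x) g⁻¹ = (sl x g)⁻¹ := by
  have h1 := sl_mul (u := x) (inv_mem hg) hg
  rw [inv_mul_cancel, sl_one] at h1
  exact eq_inv_of_mul_eq_one_left h1.symm

theorem DnW.append (hCT : Subgroup.closure S ≤ CT) {D : ℚ} {x : Ultrafilter ℤ}
    {l l' : List (Equiv.Perm ℤ)} (hl : Ltr S l) (hl' : Ltr S l') (h : DnW D (act l'.prod x) l)
    (h' : DnW D x l') (h1 : sl (act l'.prod x) l.prod ≤ 1) : DnW D x (l ++ l') := by
  intro p q hpq
  rcases List.append_eq_append_iff.1 hpq with ⟨z, h2, h3⟩ | ⟨z, h2, h3⟩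
  · -- `p = l ++ z`, `l' = z ++ q`
    have hz : Ltr S z := fun y hy => hl' y (by rw [h3]; exact List.mem_append_left _ hy)
    rw [h2, List.prod_append, sl_mul (hCT hl.mem) (hCT hz.mem), ← act_mul, ← List.prod_append, ← h3]
    have h4 := h' z q h3
    have h5 : 0 < sl (act q.prod x) z.prod := sl_pos (hCT hz.mem)
    nlinarith
  · -- `l = p ++ z`, `q = z ++ l'`
    rw [h3, List.prod_append, act_mul]
    exact h p z h2

/-- the reversed word -/
def revw (l : List (Equiv.Perm ℤ)) : List (Equiv.Perm ℤ) := (l.map (fun x => x⁻¹)).reverse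

theorem revw_prod (l : List (Equiv.Perm ℤ)) : (revw l).prod = l.prod⁻¹ := by
  rw [List.prod_inv_reverse]
  rfl

theorem revw_ltr {l : List (Equiv.Perm ℤ)} (h : Ltr S l) : Ltr S (revw l) := by
  intro x hx
  rw [revw, List.mem_reverse, List.mem_map] at hx
  obtain ⟨y, hy, rfl⟩ := hx
  rw [inv_inv]
  exact (h y hy).symm

theorem revw_suffix {l s : List (Equiv.Perm ℤ)} (h : s <:+ revw l) :
    ∃ p q, l = p ++ q ∧ s = revw p := by
  have h1 : s.reverse.reverse <:+ (l.map (fun x => x⁻¹)).reverse := by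
    rw [List.reverse_reverse]
    exact h
  rw [List.reverse_suffix] at h1
  obtain ⟨t, ht⟩ := h1
  obtain ⟨p, q, h2, h3, _⟩ := List.map_eq_append_iff.1 ht.symm
  refine ⟨p, q, h2, ?_⟩
  rw [revw, h3, List.reverse_reverse]

/-- slopes bounded below at a point: they take finitely many values there -/
theorem R0.int_cup (R : R0 S M M0 A F a 1 L1 L2) {z : Ultrafilter ℤ} (hz : z ∈ M) {δ : ℚ}
    (hδ : 0 < δ) (hlow : ∀ h ∈ Subgroup.closure S, δ ≤ sl z h) :
    ∃ F' : Finset ℚ, ∀ h ∈ Subgroup.closure S, sl z h ∈ F' := by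
  classical
  obtain ⟨C, hC, hC'⟩ := letter_bound R.hd
  have hw : ∀ (u : Ultrafilter ℤ) (l : List (Equiv.Perm ℤ)) (n : ℕ), Ltr S l → l.length ≤ n →
      (C⁻¹) ^ n ≤ sl u l.prod ∧ sl u l.prod ≤ C ^ n := fun u l n hl hn =>
    word_bound R.hCT hC (fun u s hs => ⟨(hC' u s hs).1, (hC' u s hs).2.1⟩) u l hl hn
  obtain ⟨α, hα⟩ := lowk R.b0 R.ab R.fpos hδ
  have ha0 : 0 < a := by have := R.ab; omega
  set Q : ℕ := L1 * a ^ α with hQ
  have hQp : 0 < Q := Nat.mul_pos R.L10 (Nat.pow_pos ha0)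
  obtain ⟨r, hr⟩ := exists_cl z Q hQp
  -- every element is affine on the class
  have haff : ∀ h ∈ Subgroup.closure S, ∀ v : Ultrafilter ℤ, cl r Q ∈ v → sl v h = sl z h := by
    intro h hh v hv
    obtain ⟨l, hl, rfl⟩ := list_of_closure hh
    have hl : Ltr S l := hl
    obtain ⟨β, hβ⟩ := upk R.b0 R.ab R.fpos (C ^ l.length)
    have hrd : Rd M0 z l (L1 * a ^ α * 1 ^ β) := by
      refine R.rd hz hl dvd_rfl ?_
      intro l' hl' f hf k hk
      have h1 := hlow _ (hl.suffix hl').mem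
      have h2 := (hw z l' l.length (hl.suffix hl') hl'.length_le).2
      rw [hk] at h1 h2
      exact ⟨hα f hf k h1, hβ f hf k h2⟩
    rw [one_pow, mul_one] at hrd
    have h3 := rd_aff R.hd R.hCT hl hr hrd
    have h4 : Gm v l.prod (sl z l.prod, tr z l.prod) := ⟨r, Q, hQp, hv, h3⟩
    rw [sl_eq h4]
  obtain ⟨m, hm⟩ := hit_fin R.mnl hz hr
  -- returns have slope one
  have hret : ∀ g ∈ Subgroup.closure S, cl r Q ∈ act g z → sl z g = 1 := by
    intro g hg hgr
    have hs0 : 0 < sl z g := sl_pos (R.hCT hg)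
    have h1 : ∀ h ∈ Subgroup.closure S, sl z (h * g) = sl z h * sl z g := by
      intro h hh
      rw [sl_mul (R.hCT hh) (R.hCT hg), haff h hh _ hgr]
    have h2 : ∀ n : ℕ, sl z (g ^ n) = sl z g ^ n := by
      intro n
      induction n with
      | zero => rw [pow_zero, pow_zero, sl_one]
      | succ n ih => rw [_root_.pow_succ, h1 _ (pow_mem hg n), ih, _root_.pow_succ]
    have h3 : ∀ n : ℕ, sl z (g⁻¹ ^ n) * sl z g ^ n = 1 := by
      intro n
      induction n with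
      | zero => rw [pow_zero, pow_zero, sl_one, one_mul]
      | succ n ih =>
        have h4 := h1 _ (pow_mem (inv_mem hg) (n + 1))
        have h5 : g⁻¹ ^ (n + 1) * g = g⁻¹ ^ n := by
          rw [_root_.pow_succ, inv_mul_cancel_right]
        rw [h5] at h4
        rw [h4] at ih
        rw [← ih, _root_.pow_succ']
        ring
    by_contra hne
    rcases lt_or_gt_of_ne hne with h | h
    · obtain ⟨n, hn⟩ := exists_pow_lt_of_lt_one hδ h
      have h4 := hlow _ (pow_mem hg n)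
      rw [h2] at h4
      linarith
    · obtain ⟨n, hn⟩ := pow_unbounded_of_one_lt δ⁻¹ h
      have h4 := hlow _ (pow_mem (inv_mem hg) n)
      have h5 := h3 n
      have h6 : 0 < sl z g ^ n := pow_pos hs0 n
      have h7 : 1 < δ * sl z g ^ n := by
        rw [inv_lt_iff_one_lt_mul₀ hδ] at hn
        linarith
      have h8 : δ * sl z g ^ n ≤ sl z (g⁻¹ ^ n) * sl z g ^ n :=
        mul_le_mul_of_nonneg_right h4 h6.le
      linarith
  obtain ⟨β, hβ⟩ := upk R.b0 R.ab R.fpos (C ^ m)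
  refine ⟨(F ×ˢ Finset.Icc (-(α : ℤ)) β).image (fun c => c.1 * ((a : ℚ) / (1 : ℕ)) ^ c.2),
    fun h hh => ?_⟩
  obtain ⟨f, hf, k, hk⟩ := R.slope z hz h hh
  obtain ⟨l, hl1, hl2, hl3⟩ := hm _ (R.mnl.mem hh hz)
  rw [← act_mul] at hl3
  have h1 := hret _ (mul_mem hl1.mem hh) hl3
  rw [sl_mul (R.hCT hl1.mem) (R.hCT hh)] at h1
  have h2 := (hw (act h z) l m hl1 hl2).1
  have h3 : sl z h ≤ C ^ m := by
    have h4 : 0 < sl z h := sl_pos (R.hCT hh)
    have h5 : (C⁻¹) ^ m * sl z h ≤ 1 := by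
      rw [← h1]
      exact mul_le_mul_of_nonneg_right h2 h4.le
    rwa [inv_pow, inv_mul_le_iff₀ (pow_pos (by linarith) m), mul_one] at h5
  have h4 := hlow h hh
  rw [hk] at h3 h4
  exact Finset.mem_image.2 ⟨(f, k), Finset.mem_product.2 ⟨hf, Finset.mem_Icc.2
    ⟨hα f hf k h4, hβ f hf k h3⟩⟩, hk.symm⟩

/-- slopes unbounded below at every point: there are ascents -/
theorem R0.int_down (R : R0 S M M0 A F a 1 L1 L2)
    (hdn : ∀ u ∈ M, ∀ δ : ℚ, 0 < δ → ∃ h ∈ Subgroup.closure S, sl u h < δ) :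
    ∀ u ∈ M, ∀ C : ℚ, ∃ h ∈ Subgroup.closure S, C ≤ sl u h := by
  classical
  have ha0 : 0 < a := by have := R.ab; omega
  obtain ⟨C, hC, hC'⟩ := letter_bound R.hd
  have hw : ∀ (u : Ultrafilter ℤ) (l : List (Equiv.Perm ℤ)) (n : ℕ), Ltr S l → l.length ≤ n →
      (C⁻¹) ^ n ≤ sl u l.prod ∧ sl u l.prod ≤ C ^ n := fun u l n hl hn =>
    word_bound R.hCT hC (fun u s hs => ⟨(hC' u s hs).1, (hC' u s hs).2.1⟩) u l hl hn
  -- bounded descents
  obtain ⟨m, hm⟩ : ∃ m : ℕ, ∀ x ∈ M, ∃ l, Ltr S l ∧ l.length ≤ m ∧ sl x l.prod ≤ 1 / 2 := by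
    obtain ⟨T, hT, hT'⟩ := finite_cover R.mnl.closed
      (fun c : List (Equiv.Perm ℤ) × ℤ × ℕ => Ltr S c.1 ∧ ∀ v : Ultrafilter ℤ, cl c.2.1 c.2.2 ∈ v →
        sl v c.1.prod ≤ 1 / 2)
      (fun c => cl c.2.1 c.2.2) (by
        intro u hu
        obtain ⟨g, hg, h1⟩ := hdn u hu (1 / 2) (by norm_num)
        obtain ⟨l, hl, rfl⟩ := list_of_closure hg
        obtain ⟨r, Q, _, h2, h3⟩ := sl_loc (u := u) (R.hCT hg)
        refine ⟨(l, r, Q), ⟨hl, fun v hv => ?_⟩, h2⟩
        change sl v l.prod ≤ 1 / 2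
        rw [sl_eq (h3 v hv)]
        exact h1.le)
    refine ⟨T.sup fun c => c.1.length, fun x hx => ?_⟩
    obtain ⟨c, hc, h1⟩ := hT' x hx
    exact ⟨c.1, (hT c hc).1,
      Finset.le_sup (f := fun c : List (Equiv.Perm ℤ) × ℤ × ℕ => c.1.length) hc, (hT c hc).2 x h1⟩
  choose! p hp1 hp2 hp3 using hm
  have hCm : (1 : ℚ) ≤ C ^ m := one_le_pow₀ hC
  -- the descending path
  have hdown : ∀ x ∈ M, ∀ d : ℕ, DnW (C ^ m) x (pW p x d) ∧ sl x (pW p x d).prod ≤ 1 ∧
      (0 < d → sl x (pW p x d).prod ≤ 1 / 2) := by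
    intro x hx d
    induction d with
    | zero =>
      refine ⟨?_, ?_, fun h => absurd h (lt_irrefl _)⟩
      · intro p' q' hpq
        change [] = p' ++ q' at hpq
        obtain ⟨e1, e2⟩ := List.append_eq_nil_iff.1 hpq.symm
        rw [e1, List.prod_nil, sl_one]
        exact hCm
      · change sl x ([] : List (Equiv.Perm ℤ)).prod ≤ 1
        rw [List.prod_nil, sl_one]
    | succ d ih =>
      obtain ⟨i1, i2, _⟩ := ih
      have hy := px_mem R.mnl hp1 hx d
      have hl := hp1 _ hy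
      have hl' := pW_ltr R.mnl hp1 hx d
      have h3 := hp3 _ hy
      have e1 : sl x (pW p x (d + 1)).prod =
          sl (px p x d) (p (px p x d)).prod * sl x (pW p x d).prod := by
        change sl x (p (px p x d) ++ pW p x d).prod = _
        rw [List.prod_append, sl_mul (R.hCT hl.mem) (R.hCT hl'.mem), act_pW]
      have h4 : 0 < sl (px p x d) (p (px p x d)).prod := sl_pos (R.hCT hl.mem)
      have e2 : sl x (pW p x (d + 1)).prod ≤ 1 / 2 := by
        rw [e1]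
        nlinarith
      refine ⟨?_, by linarith, fun _ => e2⟩
      refine DnW.append R.hCT hl hl' ?_ i1 ?_
      · rw [act_pW]
        intro p' q' hpq
        have h5 : Ltr S p' := fun y hy => hl y (by rw [hpq]; exact List.mem_append_left _ hy)
        refine (hw _ p' m h5 ?_).2
        have h6 := hp2 _ hy
        rw [hpq, List.length_append] at h6
        omega
      · rw [act_pW]
        linarith
  -- the modulus
  have hCm0 : 0 < (C ^ m)⁻¹ := inv_pos.2 (by linarith)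
  obtain ⟨α, hα⟩ := lowk R.b0 R.ab R.fpos hCm0
  set Q : ℕ := L1 * a ^ α with hQ
  have hQp : 0 < Q := Nat.mul_pos R.L10 (Nat.pow_pos ha0)
  obtain ⟨x, hx⟩ := R.mnl.ne
  have hpx : ∀ i, px p x i ∈ M := px_mem R.mnl hp1 hx
  have hres : ∀ i, ∃ r : ℤ, cl r Q ∈ px p x i := fun i => exists_cl _ Q hQp
  choose res hres using hres
  have hsl : ∀ i, ∃ f : F, ∃ k : ℤ, sl x (pW p x i).prod = (f : ℚ) * ((a : ℚ) / (1 : ℕ)) ^ k := by
    intro i
    obtain ⟨f, hf, k, hk⟩ := R.slope x hx _ (pW_ltr R.mnl hp1 hx i).mem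
    exact ⟨⟨f, hf⟩, k, hk⟩
  choose ff kk hfk using hsl
  have : NeZero Q := ⟨hQp.ne'⟩
  obtain ⟨i, j, hij, hne⟩ := Finite.exists_ne_map_eq_of_infinite
    (fun i : ℕ => (((res i : ℤ) : ZMod Q), ff i))
  wlog hlt : i < j generalizing i j
  · exact this j i hij.symm hne.symm (by omega)
  obtain ⟨h1, h2⟩ := Prod.ext_iff.1 hne
  simp only at h1 h2
  have hresi : res i ∈ cl (res j) Q := by
    rw [mem_cl, ← ZMod.intCast_zmod_eq_zero_iff_dvd, Int.cast_sub, h1, sub_self]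
  set y := px p x i with hy
  set d := j - i with hd
  have hyM := hpx i
  rw [← hy] at hyM
  obtain ⟨d1, _, d3⟩ := hdown y hyM d
  have hl := pW_ltr R.mnl hp1 hyM d
  have hli := pW_ltr R.mnl hp1 hx i
  have e0 : act (pW p y d).prod y = px p x j := by
    rw [act_pW, hy, ← px_add]
    congr 1
    omega
  set w := revw (pW p y d) with hwd
  have hwl : Ltr S w := revw_ltr hl
  have hwp : w.prod = (pW p y d).prod⁻¹ := revw_prod _
  have hjM := hpx j
  -- the word is readable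
  have hrd : Rd M0 (px p x j) w Q := by
    obtain ⟨β, hβ⟩ := upk R.b0 R.ab R.fpos (C ^ w.length)
    have hrd' : Rd M0 (px p x j) w (L1 * a ^ α * 1 ^ β) := by
      refine R.rd hjM hwl dvd_rfl ?_
      intro l' hl' f hf k hk
      have k1 := (hw (px p x j) l' w.length (hwl.suffix hl') hl'.length_le).2
      obtain ⟨p', q', g1, rfl⟩ := revw_suffix hl'
      have g2 := d1 p' q' g1
      have hp' : Ltr S p' := fun y hy => hl y (by rw [g1]; exact List.mem_append_left _ hy)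
      have g3 : px p x j = act p'.prod (act q'.prod y) := by
        rw [← e0, g1, List.prod_append, act_mul]
      have g4 : sl (px p x j) (revw p').prod = (sl (act q'.prod y) p'.prod)⁻¹ := by
        rw [revw_prod, g3, sl_inv (R.hCT hp'.mem)]
      have g5 : (C ^ m)⁻¹ ≤ sl (px p x j) (revw p').prod := by
        rw [g4]
        exact inv_anti₀ (sl_pos (R.hCT hp'.mem)) g2
      rw [hk] at g5 k1
      exact ⟨hα f hf k g5, hβ f hf k k1⟩
    rwa [one_pow, mul_one] at hrd'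
  have hdiff := rd_diff R.hd R.hCT hwl (hres j) hrd
  -- the slope
  have hlam := lam_gt R.b0 R.ab
  have e1 : sl x (pW p x j).prod = sl y (pW p y d).prod * sl x (pW p x i).prod := by
    have e2 : i + d = j := by omega
    conv_lhs => rw [← e2]
    rw [← pW_add, sl_mul (R.hCT hl.mem) (R.hCT hli.mem), act_pW]
  have hfpos : (0 : ℚ) < ff j := R.fpos _ (ff j).2
  have e3 : sl y (pW p y d).prod = ((a : ℚ) / (1 : ℕ)) ^ (kk j - kk i) := by
    rw [hfk j, hfk i, h2] at e1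
    rw [zpow_sub₀ (by linarith), eq_div_iff (zpow_ne_zero _ (by linarith))]
    have e4 : (ff j : ℚ) * ((a : ℚ) / (1 : ℕ)) ^ kk j =
        ff j * (sl y (pW p y d).prod * ((a : ℚ) / (1 : ℕ)) ^ kk i) := by
      rw [e1]
      ring
    exact (mul_left_cancel₀ hfpos.ne' e4).symm
  have e5 : kk j - kk i < 0 := by
    by_contra hge
    have h3 : (1 : ℚ) ≤ ((a : ℚ) / (1 : ℕ)) ^ (kk j - kk i) := one_le_zpow₀ hlam.le (by omega)
    have h4 := d3 (by omega)
    rw [e3] at h4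
    linarith
  obtain ⟨κ, hκ⟩ : ∃ κ : ℕ, kk j - kk i = -((κ + 1 : ℕ) : ℤ) := ⟨(kk i - kk j - 1).toNat, by omega⟩
  have e6 : sl (px p x j) w.prod = (a : ℚ) ^ (κ + 1) := by
    rw [hwp, ← e0, sl_inv (R.hCT hl.mem), e3, hκ, zpow_neg, inv_inv, zpow_natCast]
    simp
  -- the class is mapped to itself
  have hmap : ∀ n ∈ cl (res j) Q, w.prod n ∈ cl (res j) Q := by
    have k1 : cl (res j) Q ∈ act w.prod (px p x j) := by
      have : act w.prod (px p x j) = y := by
        rw [hwp, ← e0, ← act_mul, inv_mul_cancel, act_one]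
      rw [this, ← cl_eq hresi]
      exact hres i
    obtain ⟨n0, hn1, hn2⟩ := nonempty_of_mem (inter_mem (hres j) (mem_act.1 k1))
    intro n hn
    have k2 := hdiff n hn n0 hn1
    obtain ⟨t, ht⟩ : ∃ t : ℤ, n - n0 = Q * t := by
      have := dvd_sub hn hn1
      rwa [sub_sub_sub_cancel_right] at this
    have ht' : (n : ℚ) - n0 = Q * t := by exact_mod_cast ht
    have hn3 : w.prod n0 ∈ cl (res j) Q := hn2
    rw [← cl_eq hn3, mem_cl]
    refine ⟨(a : ℤ) ^ (κ + 1) * t, ?_⟩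
    have k3 : ((w.prod n - w.prod n0 : ℤ) : ℚ) = (((Q : ℤ) * ((a : ℤ) ^ (κ + 1) * t) : ℤ) : ℚ) := by
      push_cast
      rw [k2, e6, ht']
      ring
    exact_mod_cast k3
  have hwH := hwl.mem
  -- the slope on the class
  have hslw : ∀ v : Ultrafilter ℤ, cl (res j) Q ∈ v → sl v w.prod = (a : ℚ) ^ (κ + 1) := by
    intro v hv
    have k1 : Gm v w.prod (sl (px p x j) w.prod, tr (px p x j) w.prod) :=
      ⟨res j, Q, hQp, hv, rd_aff R.hd R.hCT hwl (hres j) hrd⟩
    rw [sl_eq k1, e6]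
  have hactw : ∀ v : Ultrafilter ℤ, cl (res j) Q ∈ v → cl (res j) Q ∈ act w.prod v := by
    intro v hv
    rw [mem_act]
    exact mem_of_superset hv hmap
  have hslwn : ∀ n : ℕ, ∀ v : Ultrafilter ℤ, cl (res j) Q ∈ v →
      sl v (w.prod ^ n) = ((a : ℚ) ^ (κ + 1)) ^ n := by
    intro n
    induction n with
    | zero => intro v _; rw [pow_zero, pow_zero, sl_one]
    | succ n ih =>
      intro v hv
      rw [_root_.pow_succ w.prod n, sl_mul (R.hCT (pow_mem hwH n)) (R.hCT hwH), ih _ (hactw v hv),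
        hslw v hv]
      exact (_root_.pow_succ _ n).symm
  intro u hu K
  obtain ⟨g, hg, hgr⟩ := R.mnl.hit hu hjM (hres j)
  have hg0 : 0 < sl u g := sl_pos (R.hCT hg)
  have ha1 : (1 : ℚ) < (a : ℚ) ^ (κ + 1) := by
    have : (1 : ℚ) < a := by
      have := R.ab
      exact_mod_cast this
    exact one_lt_pow₀ this (by omega)
  obtain ⟨n, hn⟩ := pow_unbounded_of_one_lt (K / sl u g) ha1
  refine ⟨w.prod ^ n * g, mul_mem (pow_mem hwH n) hg, ?_⟩
  rw [sl_mul (R.hCT (pow_mem hwH n)) (R.hCT hg), hslwn n _ hgr]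
  rw [div_lt_iff₀ hg0] at hn
  exact hn.le

/-- the case of an integer -/
theorem R0.int (R : R0 S M M0 A F a 1 L1 L2) :
    (∃ v ∈ M, ∃ F' : Finset ℚ, ∀ h ∈ Subgroup.closure S, sl v h ∈ F') ∨
      ∀ u ∈ M, ∀ C : ℚ, ∃ h ∈ Subgroup.closure S, C ≤ sl u h := by
  by_cases h : ∃ z ∈ M, ∃ δ : ℚ, 0 < δ ∧ ∀ h ∈ Subgroup.closure S, δ ≤ sl z h
  · obtain ⟨z, hz, δ, hδ, h1⟩ := h
    exact Or.inl ⟨z, hz, R.int_cup hz hδ h1⟩
  · refine Or.inr (R.int_down fun u hu δ hδ => ?_)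
    by_contra h1
    push Not at h1
    exact h ⟨u, hu, δ, hδ, h1⟩

end Pool.Agent.Lgp
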