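import Pool.Agent.Lgp.FinSl
import Pool.Agent.Lgp.FinOrb

/-!
# A local-global principle for the growth of subgroups of `CT(ℤ)`

`S` is a finite subset of `CT(ℤ)`, `H` the group generated by `S`. Suppose that the closure of the orbit of every
profinite integer `x` contains a profinite integer `y` such that the germs of `H` along the orbit of `y` form a
virtually abelian groupoid, or take finitely many slopes, or the orbit of `y` is finite in the `m`-adic integers,
where `m ≥ 2` is such that the slopes of `S` are units of `ℤ[1/m]`. Then `H` has an abelian subgroup of finite index, or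
exponential growth.
-/

namespace Pool.Agent.Lgp.LocalGlobal

open Filter Pool.Agent.CTm Pool.Agent.Grm Pool.Agent.Lgp

theorem result (S : Finset (Equiv.Perm ℤ)) (hS : ∀ s ∈ S, s ∈ CT)
    (h : ∀ x : ℕ → ℤ, Pro x → ∃ y : ℕ → ℤ, Pro y ∧
      Clo (Subgroup.closure (S : Set (Equiv.Perm ℤ))) x y ∧
      (LocAb (Subgroup.closure (S : Set (Equiv.Perm ℤ))) y ∨
        FinSlopes (Subgroup.closure (S : Set (Equiv.Perm ℤ))) y ∨
        ∃ m : ℕ, 2 ≤ m ∧ (∀ s ∈ S, SlopeUnit m s) ∧
          FinOrb m (Subgroup.closure (S : Set (Equiv.Perm ℤ))) y)) :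
    ((∃ A : Subgroup (Equiv.Perm ℤ), A ≤ Subgroup.closure (S : Set (Equiv.Perm ℤ)) ∧
        (A.subgroupOf (Subgroup.closure (S : Set (Equiv.Perm ℤ)))).FiniteIndex ∧
        ∀ a ∈ A, ∀ b ∈ A, a * b = b * a) ∨
      ∃ c : ℝ, 1 < c ∧ ∀ᶠ n : ℕ in atTop, c ^ n ≤ growth (S : Set (Equiv.Perm ℤ)) n) ∧
    ¬ IntermediateGrowth (S : Set (Equiv.Perm ℤ)) := by
  have h1 := local_global S fun x hx => by
    obtain ⟨y, hy, hxy, h2⟩ := h x hx
    refine ⟨y, hy, hxy, ?_⟩
    rcases h2 with h2 | h2 | ⟨m, hm, hU, h2⟩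
    · exact h2
    · exact locAb_of_finSlopes S hS hy h2
    · exact locAb_of_finOrb hm S hS hU hy h2
  refine ⟨h1, ?_⟩
  rcases h1 with ⟨A, _, hA2, hA3⟩ | h1
  · exact not_intermediate_of_poly (poly_growth S A hA2 hA3)
  · exact not_intermediate_of_exp h1

end Pool.Agent.Lgp.LocalGlobal
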