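import Pool.Agent.Lgp.Uf

/-!
# Minimal closed invariant sets of ultrafilters
-/

namespace Pool.Agent.Lgp

open Pool.Agent.CTm Pool.Agent.Grm Filter Nat Topology

/-- invariant sets -/
def Inv (H : Subgroup (Equiv.Perm ℤ)) (M : Set (Ultrafilter ℤ)) : Prop :=
  ∀ g ∈ H, ∀ u ∈ M, act g u ∈ M

/-- minimal closed invariant sets -/
structure Mnl (H : Subgroup (Equiv.Perm ℤ)) (M : Set (Ultrafilter ℤ)) : Prop where
  closed : IsClosed M
  ne : M.Nonempty
  inv : Inv H M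
  min : ∀ N ⊆ M, IsClosed N → N.Nonempty → Inv H N → N = M

theorem exists_mnl {H : Subgroup (Equiv.Perm ℤ)} {X : Set (Ultrafilter ℤ)} (hX : IsClosed X)
    (hne : X.Nonempty) (hinv : Inv H X) : ∃ M ⊆ X, Mnl H M := by
  obtain ⟨M, hMX, hM⟩ := zorn_superset_nonempty
    {N : Set (Ultrafilter ℤ) | N ⊆ X ∧ IsClosed N ∧ N.Nonempty ∧ Inv H N} (by
      intro c hc hchain hcne
      refine ⟨⋂₀ c, ⟨?_, ?_, ?_, ?_⟩, fun s hs => Set.sInter_subset_of_mem hs⟩
      · obtain ⟨s, hs⟩ := hcne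
        exact (Set.sInter_subset_of_mem hs).trans (hc hs).1
      · exact isClosed_sInter fun s hs => (hc hs).2.1
      · have : Nonempty c := hcne.to_subtype
        refine IsCompact.nonempty_sInter_of_directed_nonempty_isCompact_isClosed ?_ ?_ ?_ ?_
        · intro a ha b hb
          rcases hchain.total ha hb with h | h
          · exact ⟨a, ha, subset_rfl, h⟩
          · exact ⟨b, hb, h, subset_rfl⟩
        · exact fun s hs => (hc hs).2.2.1
        · exact fun s hs => (hc hs).2.1.isCompact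
        · exact fun s hs => (hc hs).2.1
      · intro g hg u hu s hs
        exact (hc hs).2.2.2 g hg u (hu s hs)) X ⟨le_refl _, hX, hne, hinv⟩
  obtain ⟨⟨h1, h2, h3, h4⟩, h5⟩ := hM
  refine ⟨M, hMX, h2, h3, h4, fun N hNM hN hN' hN'' => ?_⟩
  exact le_antisymm hNM (h5 ⟨hNM.trans h1, hN, hN', hN''⟩ hNM)

theorem act_continuous (g : Equiv.Perm ℤ) : Continuous (act g) := by
  rw [ultrafilterBasis_is_basis.continuous_iff]
  rintro _ ⟨s, rfl⟩
  exact ultrafilter_isOpen_basic (g ⁻¹' s)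

/-- the closure of the orbit -/
def orb (H : Subgroup (Equiv.Perm ℤ)) (u : Ultrafilter ℤ) : Set (Ultrafilter ℤ) :=
  closure {v | ∃ g ∈ H, v = act g u}

theorem orb_inv (H : Subgroup (Equiv.Perm ℤ)) (u : Ultrafilter ℤ) : Inv H (orb H u) := by
  intro g hg v hv
  have h1 : act g v ∈ closure (act g '' {v | ∃ g ∈ H, v = act g u}) :=
    image_closure_subset_closure_image (act_continuous g) ⟨v, hv, rfl⟩
  refine closure_mono ?_ h1
  rintro _ ⟨w, ⟨h, hh, rfl⟩, rfl⟩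
  exact ⟨g * h, mul_mem hg hh, (act_mul _ _ _).symm⟩

theorem orb_closed (H : Subgroup (Equiv.Perm ℤ)) (u : Ultrafilter ℤ) : IsClosed (orb H u) :=
  isClosed_closure

theorem orb_self (H : Subgroup (Equiv.Perm ℤ)) (u : Ultrafilter ℤ) : u ∈ orb H u :=
  subset_closure ⟨1, one_mem _, (act_one u).symm⟩

/-- a point of the closure of the orbit: its sets are visited by the orbit -/
theorem orb_hit {H : Subgroup (Equiv.Perm ℤ)} {u v : Ultrafilter ℤ} (hv : v ∈ orb H u)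
    {A : Set ℤ} (hA : A ∈ v) : ∃ g ∈ H, A ∈ act g u := by
  have h1 := mem_closure_iff.1 hv {w | A ∈ w} (ultrafilter_isOpen_basic A) hA
  obtain ⟨w, hw, g, hg, rfl⟩ := h1
  exact ⟨g, hg, hw⟩

theorem Mnl.hit {H : Subgroup (Equiv.Perm ℤ)} {M : Set (Ultrafilter ℤ)} (hM : Mnl H M)
    {u v : Ultrafilter ℤ} (hu : u ∈ M) (hv : v ∈ M) {A : Set ℤ} (hA : A ∈ v) :
    ∃ g ∈ H, A ∈ act g u := by
  have h1 : orb H u = M := by
    refine hM.min _ ?_ (orb_closed H u) ⟨u, orb_self H u⟩ (orb_inv H u)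
    refine closure_minimal ?_ hM.closed
    rintro _ ⟨g, hg, rfl⟩
    exact hM.inv g hg u hu
  rw [← h1] at hv
  exact orb_hit hv hA

/-- compactness -/
theorem finite_cover {M : Set (Ultrafilter ℤ)} (hM : IsClosed M)
    {α : Type*} (Q : α → Prop) (P : α → Set ℤ) (h : ∀ u ∈ M, ∃ g, Q g ∧ P g ∈ u) :
    ∃ T : Finset α, (∀ g ∈ T, Q g) ∧ ∀ u ∈ M, ∃ g ∈ T, P g ∈ u := by
  classical
  obtain ⟨T, hT⟩ := hM.isCompact.elim_finite_subcover
    (fun g : {g : α // Q g} => {u : Ultrafilter ℤ | P g ∈ u})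
    (fun g => ultrafilter_isOpen_basic (P g)) (by
      intro u hu
      obtain ⟨g, hg, h1⟩ := h u hu
      exact Set.mem_iUnion.2 ⟨⟨g, hg⟩, h1⟩)
  refine ⟨T.image Subtype.val, ?_, ?_⟩
  · intro g hg
    obtain ⟨g', _, rfl⟩ := Finset.mem_image.1 hg
    exact g'.2
  · intro u hu
    have h1 := hT hu
    simp only [Set.mem_iUnion] at h1
    obtain ⟨g, hg, h2⟩ := h1
    exact ⟨g, Finset.mem_image.2 ⟨g, hg, rfl⟩, h2⟩

/-- the points of the closure of the orbit, for profinite integers -/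
theorem clo_of_orb {H : Subgroup (Equiv.Perm ℤ)} (hH : H ≤ CT) {u v : Ultrafilter ℤ} {x y : ℕ → ℤ}
    (hx : Rep u x) (hy : Rep v y) (hv : v ∈ orb H u) : Clo H x y := by
  intro j
  obtain ⟨h, hh, h1⟩ := orb_hit hv (hy j)
  refine ⟨h, hh, ?_⟩
  have hg := (gm_sl (u := u) (hH hh)).germ hx
  obtain ⟨i0, h0⟩ := germ_cont hx.pro hg (j !) (Nat.factorial_pos j)
  refine ⟨i0, fun n hn => ?_⟩
  obtain ⟨m, hm1, hm2⟩ := nonempty_of_mem (inter_mem (hx i0) (mem_act.1 h1))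
  have e1 := h0 i0 le_rfl m hm1
  have e2 := h0 i0 le_rfl n hn
  have e3 : ((j ! : ℕ) : ℤ) ∣ h m - y j := hm2
  have e4 : h n - y j = (h n - h (x i0)) - (h m - h (x i0)) + (h m - y j) := by ring
  rw [e4]
  exact dvd_add (dvd_sub e2 e1) e3

end Pool.Agent.Lgp
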