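import Pool.Agent.Lgp.Rd
import Pool.Agent.Lgp.Fg

/-!
# Markov maps of a residue class
-/

namespace Pool.Agent.Lgp

open Pool.Agent.CTm Pool.Agent.Grm Filter Nat Topology

/-- `g` maps the class of `r` modulo `N B` onto the class of `r'` modulo `N A`, both in the class of `ρ`
modulo `N` -/
def Mk (N A B : ℕ) (ρ : ℤ) (g : Equiv.Perm ℤ) (r r' : ℤ) : Prop :=
  (N : ℤ) ∣ r - ρ ∧ (N : ℤ) ∣ r' - ρ ∧ ∀ t : ℤ, g (r + (N : ℤ) * B * t) = r' + (N : ℤ) * A * t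

theorem mem_cl_mul {r n : ℤ} {N B : ℕ} : n ∈ cl r (N * B) ↔ ∃ t : ℤ, n = r + (N : ℤ) * B * t := by
  rw [mem_cl]
  constructor
  · rintro ⟨t, ht⟩
    exact ⟨t, by push_cast at ht; linarith⟩
  · rintro ⟨t, rfl⟩
    exact ⟨t, by push_cast; ring⟩

theorem Mk.inv {N A B : ℕ} {ρ : ℤ} {g : Equiv.Perm ℤ} {r r' : ℤ} (h : Mk N A B ρ g r r') :
    Mk N B A ρ g⁻¹ r' r := by
  obtain ⟨h1, h2, h3⟩ := h
  refine ⟨h2, h1, fun t => ?_⟩
  rw [← h3 t]
  exact g.symm_apply_apply _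

theorem Mk.comp {N A B A' B' : ℕ} {ρ : ℤ} {g h : Equiv.Perm ℤ} {r r' s s' : ℤ}
    (hg : Mk N A B ρ g r r') (hh : Mk N A' B' ρ h s s') (hc : Nat.Coprime A B') :
    ∃ q q' : ℤ, Mk N (A * A') (B * B') ρ (h * g) q q' ∧
      cl q (N * (B * B')) ⊆ cl r (N * B) ∧ cl q' (N * (A * A')) ⊆ cl s' (N * A') ∧
      ∀ n ∈ cl q (N * (B * B')), g n ∈ cl s (N * B') := by
  obtain ⟨g1, g2, g3⟩ := hg
  obtain ⟨h1, h2, h3⟩ := hh
  obtain ⟨d, hd⟩ : (N : ℤ) ∣ s - r' := by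
    have := dvd_sub h1 g2
    rwa [sub_sub_sub_cancel_right] at this
  obtain ⟨x, y, hxy⟩ := Nat.isCoprime_iff_coprime.2 hc
  -- `x A + y B' = 1`
  have e1 : ∀ t : ℤ, g (r + N * B * (d * x) + N * (B * B') * t) =
      s + N * B' * (-(d * y) + A * t) := by
    intro t
    have e2 := g3 (d * x + B' * t)
    have e3 : r + (N : ℤ) * B * (d * x) + N * (B * B') * t = r + N * B * (d * x + B' * t) := by ring
    rw [e3, e2]
    have e4 : (N : ℤ) * A * (d * x) = N * d - N * B' * (d * y) := by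
      linear_combination (N : ℤ) * d * hxy
    linear_combination e4 - hd
  have hN : ∀ z : ℤ, (N : ℤ) ∣ N * z := fun z => Dvd.intro _ rfl
  refine ⟨r + N * B * (d * x), s' - N * A' * (d * y), ⟨?_, ?_, ?_⟩, ?_, ?_, ?_⟩
  · have e3 : r + (N : ℤ) * B * (d * x) - ρ = (r - ρ) + N * (B * (d * x)) := by ring
    rw [e3]
    exact dvd_add g1 (hN _)
  · have e3 : s' - (N : ℤ) * A' * (d * y) - ρ = (s' - ρ) - N * (A' * (d * y)) := by ring
    rw [e3]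
    exact dvd_sub h2 (hN _)
  · intro t
    rw [Equiv.Perm.mul_apply]
    have e5 := e1 t
    push_cast at e5 ⊢
    rw [e5, h3]
    ring
  · intro n hn
    obtain ⟨t, rfl⟩ := mem_cl_mul.1 hn
    rw [mem_cl_mul]
    exact ⟨d * x + B' * t, by push_cast; ring⟩
  · intro n hn
    obtain ⟨t, rfl⟩ := mem_cl_mul.1 hn
    rw [mem_cl_mul]
    exact ⟨-(d * y) + A * t, by push_cast; ring⟩
  · intro n hn
    obtain ⟨t, rfl⟩ := mem_cl_mul.1 hn
    rw [mem_cl_mul]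
    refine ⟨-(d * y) + A * t, ?_⟩
    have e5 := e1 t
    push_cast at e5 ⊢
    exact e5

/-- powers -/
theorem Mk.pow {N A B : ℕ} {ρ : ℤ} {g : Equiv.Perm ℤ} {r r' : ℤ}
    (hg : Mk N A B ρ g r r') (hc : Nat.Coprime A B) (J : ℕ) :
    ∃ q q' : ℤ, Mk N (A ^ (J + 1)) (B ^ (J + 1)) ρ (g ^ (J + 1)) q q' ∧
      cl q (N * B ^ (J + 1)) ⊆ cl r (N * B) ∧ cl q' (N * A ^ (J + 1)) ⊆ cl r' (N * A) ∧
      ∀ m ∈ cl q (N * B ^ (J + 1)), ∀ k, k ≤ J → (g ^ k) m ∈ cl r (N * B) := by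
  induction J with
  | zero =>
    refine ⟨r, r', ?_, ?_, ?_, ?_⟩
    · simpa using hg
    · simp
    · simp
    · intro m hm k hk
      have : k = 0 := by omega
      subst this
      simpa using hm
  | succ J ih =>
    obtain ⟨q, q', h1, h2, h3, h4⟩ := ih
    obtain ⟨p, p', k1, k2, k3, k4⟩ := hg.comp h1 (Nat.Coprime.pow_right (J + 1) hc)
    have eA : A * A ^ (J + 1) = A ^ (J + 1 + 1) := (pow_succ' A (J + 1)).symm
    have eB : B * B ^ (J + 1) = B ^ (J + 1 + 1) := (pow_succ' B (J + 1)).symm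
    have eg : g ^ (J + 1) * g = g ^ (J + 1 + 1) := (pow_succ g (J + 1)).symm
    rw [eA, eB, eg] at k1
    rw [eB] at k2 k4
    rw [eA] at k3
    refine ⟨p, p', k1, k2, k3.trans h3, ?_⟩
    intro m hm k hk
    rcases Nat.eq_zero_or_pos k with rfl | hk0
    · simpa using k2 hm
    · obtain ⟨k', rfl⟩ : ∃ k', k = k' + 1 := ⟨k - 1, by omega⟩
      have e1 := h4 (g m) (k4 m hm) k' (by omega)
      rw [pow_succ, Equiv.Perm.mul_apply]
      exact e1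

/-- Milnor at a Markov map: if `f` is the identity on the domain then it is the identity on the images of
high powers -/
theorem milnor_mk {S : Set (Equiv.Perm ℤ)} (hS : S.Finite) (hexp : NoExp S) {f g : Equiv.Perm ℤ}
    (hf : f ∈ Subgroup.closure S) (hgS : g ∈ Subgroup.closure S) (D : Set ℤ)
    (hD : ∀ n ∈ D, f n = n) :
    ∃ I : ℕ, ∀ m : ℤ, (∀ k, k ≤ 2 * I → (g ^ k) m ∈ D) → ∀ i : ℤ, f ((g ^ i) m) = (g ^ i) m := by
  obtain ⟨E, hE, hE1, hE2⟩ := conj_fg hS hexp {f} (Set.finite_singleton f)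
    (by rintro _ rfl; exact hf) hgS
  have hE3 : ∀ y ∈ E, ∃ i : ℤ, y = g ^ i * f * (g ^ i)⁻¹ := by
    intro y hy
    obtain ⟨f', hf', i, hi⟩ := hE1 y hy
    rw [Set.mem_singleton_iff] at hf'
    rw [hf'] at hi
    exact ⟨i, hi⟩
  choose! e he using hE3
  obtain ⟨I, hI⟩ : ∃ I : ℕ, ∀ y ∈ E, (e y).natAbs ≤ I := by
    classical
    refine ⟨hE.toFinset.sup fun y => (e y).natAbs, fun y hy => ?_⟩
    exact Finset.le_sup (f := fun y => (e y).natAbs) (hE.mem_toFinset.2 hy)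
  refine ⟨I, fun m hm => ?_⟩
  -- the elements of `E` fix `z = g ^ I m`
  have h1 : ∀ y ∈ Subgroup.closure E, y ((g ^ (I : ℤ)) m) = (g ^ (I : ℤ)) m := by
    intro y hy
    induction hy using Subgroup.closure_induction with
    | mem y hy =>
      have h2 := hI y hy
      rw [he y hy]
      simp only [Equiv.Perm.mul_apply]
      have h3 : (g ^ e y)⁻¹ ((g ^ (I : ℤ)) m) = (g ^ ((I : ℤ) - e y)) m := by
        rw [← zpow_neg, ← Equiv.Perm.mul_apply, ← zpow_add]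
        congr 2
        ring
      obtain ⟨k, hk⟩ : ∃ k : ℕ, (I : ℤ) - e y = k := ⟨((I : ℤ) - e y).toNat, by omega⟩
      have h4 : (g ^ k) m ∈ D := hm k (by omega)
      rw [h3, hk, zpow_natCast, hD _ h4, ← zpow_natCast, ← hk, ← Equiv.Perm.mul_apply, ← zpow_add]
      congr 2
      ring
    | one => rfl
    | mul x y _ _ hx hy => rw [Equiv.Perm.mul_apply, hy, hx]
    | inv x _ hx =>
      calc x⁻¹ ((g ^ (I : ℤ)) m) = x⁻¹ (x ((g ^ (I : ℤ)) m)) := by rw [hx]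
        _ = _ := x.symm_apply_apply _
  intro i
  have h2 := h1 _ (hE2 f rfl ((I : ℤ) - i))
  simp only [Equiv.Perm.mul_apply] at h2
  have h3 : (g ^ ((I : ℤ) - i))⁻¹ ((g ^ (I : ℤ)) m) = (g ^ i) m := by
    rw [← zpow_neg, ← Equiv.Perm.mul_apply, ← zpow_add]
    congr 2
    ring
  rw [h3] at h2
  have h4 : (g ^ ((I : ℤ) - i)) ((g ^ i) m) = (g ^ (I : ℤ)) m := by
    rw [← Equiv.Perm.mul_apply, ← zpow_add]
    congr 2
    ring
  rw [← h4] at h2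
  exact (g ^ ((I : ℤ) - i)).injective h2

/-- `f = id` on the domain of a Markov map implies `f = id` on the range of a power -/
theorem Mk.milnor {S : Set (Equiv.Perm ℤ)} (hS : S.Finite) (hexp : NoExp S) {f g : Equiv.Perm ℤ}
    (hf : f ∈ Subgroup.closure S) (hgS : g ∈ Subgroup.closure S) {N A B : ℕ} {ρ r r' : ℤ}
    (hg : Mk N A B ρ g r r') (hc : Nat.Coprime A B) (hD : ∀ n ∈ cl r (N * B), f n = n) :
    ∃ (J : ℕ) (q q' : ℤ), Mk N (A ^ (J + 1)) (B ^ (J + 1)) ρ (g ^ (J + 1)) q q' ∧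
      cl q (N * B ^ (J + 1)) ⊆ cl r (N * B) ∧ cl q' (N * A ^ (J + 1)) ⊆ cl r' (N * A) ∧
      ∀ n ∈ cl q' (N * A ^ (J + 1)), f n = n := by
  obtain ⟨I, hI⟩ := milnor_mk hS hexp hf hgS _ hD
  obtain ⟨q, q', h1, h2, h3, h4⟩ := hg.pow hc (2 * I)
  refine ⟨2 * I, q, q', h1, h2, h3, fun n hn => ?_⟩
  obtain ⟨t, rfl⟩ := mem_cl_mul.1 hn
  have e1 := h1.2.2 t
  push_cast at e1 ⊢
  rw [← e1]
  have e2 := hI (q + N * B ^ (2 * I + 1) * t) (fun k hk => h4 _ (mem_cl_mul.2 ⟨t, by push_cast; rfl⟩) k hk)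
    ((2 * I + 1 : ℕ) : ℤ)
  rwa [zpow_natCast] at e2

theorem dvd_pow_of_dvd_pow {d b m : ℕ} (hb : 0 < b) (h : d ∣ b ^ m) : d ∣ b ^ d := by
  induction d using Nat.strong_induction_on with
  | _ d ih =>
    have hd : 0 < d := Nat.pos_of_dvd_of_pos h (Nat.pow_pos hb)
    by_cases hg : Nat.Coprime d b
    · have h1 : d = 1 := Nat.Coprime.eq_one_of_dvd (Nat.Coprime.pow_right m hg) h
      rw [h1]
      exact one_dvd _
    · obtain ⟨d1, hd1⟩ := Nat.gcd_dvd_left d b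
      have hg0 : 0 < Nat.gcd d b := Nat.gcd_pos_of_pos_left _ hd
      have hg1 : Nat.gcd d b ≠ 1 := hg
      have hd10 : 0 < d1 := by
        rcases Nat.eq_zero_or_pos d1 with h1 | h1
        · rw [h1, mul_zero] at hd1
          omega
        · exact h1
      have hlt : d1 + 1 ≤ d := by
        have h2 : 2 ≤ Nat.gcd d b := by omega
        calc d1 + 1 ≤ 2 * d1 := by omega
          _ ≤ Nat.gcd d b * d1 := Nat.mul_le_mul_right _ h2
          _ = d := hd1.symm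
      have h3 : d1 ∣ b ^ d1 := ih d1 (by omega) ((Dvd.intro_left _ hd1.symm).trans h)
      have h4 : Nat.gcd d b * d1 ∣ b * b ^ d1 := mul_dvd_mul (Nat.gcd_dvd_right d b) h3
      rw [← hd1, ← pow_succ'] at h4
      exact h4.trans (pow_dvd_pow b hlt)

theorem dvd_mul_pow {d X b m Q : ℕ} (hb : 0 < b) (hQ : 0 < Q) (h : d ∣ X * b ^ m) (h' : d ∣ Q) :
    d ∣ X * b ^ Q := by
  have hd : 0 < d := Nat.pos_of_dvd_of_pos h' hQ
  have hg0 : 0 < Nat.gcd d X := Nat.gcd_pos_of_pos_left _ hd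
  obtain ⟨d1, hd1⟩ := Nat.gcd_dvd_left d X
  obtain ⟨X1, hX1⟩ := Nat.gcd_dvd_right d X
  have hcop : Nat.Coprime d1 X1 := by
    have h1 := Nat.coprime_div_gcd_div_gcd hg0
    have h2 : d / Nat.gcd d X = d1 := Nat.div_eq_of_eq_mul_right hg0 hd1
    have h3 : X / Nat.gcd d X = X1 := Nat.div_eq_of_eq_mul_right hg0 hX1
    rwa [h2, h3] at h1
  have h1 : d1 ∣ X1 * b ^ m := by
    have h2 : Nat.gcd d X * d1 ∣ Nat.gcd d X * (X1 * b ^ m) := by
      rw [← hd1, ← mul_assoc, ← hX1]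
      exact h
    exact Nat.dvd_of_mul_dvd_mul_left hg0 h2
  have h2 : d1 ∣ b ^ m := hcop.dvd_of_dvd_mul_left h1
  have h3 : d1 ∣ b ^ d1 := dvd_pow_of_dvd_pow hb h2
  have h4 : d1 ≤ Q := (Nat.le_of_dvd hd (Dvd.intro_left _ hd1.symm)).trans (Nat.le_of_dvd hQ h')
  have h5 : d1 ∣ b ^ Q := h3.trans (pow_dvd_pow b h4)
  have h6 : Nat.gcd d X * d1 ∣ X * b ^ Q := mul_dvd_mul (Nat.gcd_dvd_right d X) h5
  rwa [← hd1] at h6

/-- the Chinese remainder theorem for arbitrary moduli -/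
theorem crt {P Q : ℕ} {u v : ℤ} (h : ∀ d : ℕ, d ∣ P → d ∣ Q → (d : ℤ) ∣ u - v) :
    ∃ n : ℤ, n ∈ cl u P ∧ n ∈ cl v Q := by
  obtain ⟨q, hq⟩ := h (Nat.gcd P Q) (Nat.gcd_dvd_left _ _) (Nat.gcd_dvd_right _ _)
  have h1 := Nat.gcd_eq_gcd_ab P Q
  refine ⟨u - P * (Nat.gcdA P Q * q), ?_, ?_⟩
  · rw [mem_cl]
    exact ⟨-(Nat.gcdA P Q * q), by ring⟩
  · rw [mem_cl]
    refine ⟨Nat.gcdB P Q * q, ?_⟩
    linear_combination hq + q * h1

end Pool.Agent.Lgp
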