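import Pool.Agent.Lgp.Fg

/-!
# Exponential growth along a path
-/

namespace Pool.Agent.Lgp

open Pool.Agent.CTm Pool.Agent.Grm Filter

theorem exp_of_inj {G : Type*} [Group G] {S : Set G} (hS : S.Finite) (l1 : ℕ)
    (h : ∀ k : ℕ, ∃ f : (Fin k → Bool) → G, Function.Injective f ∧ ∀ v, f v ∈ ball S (l1 * k)) :
    ∃ c : ℝ, 1 < c ∧ ∀ᶠ n : ℕ in atTop, c ^ n ≤ growth S n := by
  obtain ⟨l0, hl0, hl1⟩ : ∃ l0 : ℕ, 0 < l0 ∧ l1 ≤ l0 := ⟨l1 + 1, by omega, by omega⟩
  have h0 : ∀ k, 2 ^ k ≤ growth S (l0 * k) := by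
    intro k
    obtain ⟨f, hf, h1⟩ := h k
    have h2 : Set.range f ⊆ ball S (l0 * k) := by
      rintro _ ⟨v, rfl⟩
      exact ball_mono (Nat.mul_le_mul_right k hl1) (h1 v)
    have h3 := Set.ncard_le_ncard h2 (ball_finite hS _)
    rw [← Set.image_univ, Set.ncard_image_of_injective _ hf, Set.ncard_univ] at h3
    simpa [growth] using h3
  have hl0' : (0 : ℝ) < 2 * l0 := by positivity
  have hc1 : (1 : ℝ) < (2 : ℝ) ^ ((1 : ℝ) / (2 * l0)) :=
    Real.one_lt_rpow (by norm_num) (by positivity)
  have hc2 : ((2 : ℝ) ^ ((1 : ℝ) / (2 * l0))) ^ (2 * l0) = 2 := by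
    rw [← Real.rpow_natCast, ← Real.rpow_mul (by norm_num)]
    have : (1 : ℝ) / (2 * l0) * ((2 * l0 : ℕ) : ℝ) = 1 := by
      push_cast
      field_simp
    rw [this, Real.rpow_one]
  refine ⟨_, hc1, ?_⟩
  filter_upwards [eventually_ge_atTop l0] with n hn
  have h1 : 1 ≤ n / l0 := (Nat.one_le_div_iff hl0).2 hn
  have h2 : n ≤ 2 * l0 * (n / l0) := by
    have h3 := Nat.div_add_mod n l0
    have h4 := Nat.mod_lt n hl0
    nlinarith
  have h3 : l0 * (n / l0) ≤ n := Nat.mul_div_le n l0
  calc ((2 : ℝ) ^ ((1 : ℝ) / (2 * l0))) ^ n ≤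
      ((2 : ℝ) ^ ((1 : ℝ) / (2 * l0))) ^ (2 * l0 * (n / l0)) :=
        pow_le_pow_right₀ hc1.le h2
    _ = 2 ^ (n / l0) := by rw [pow_mul, hc2]
    _ ≤ growth S (l0 * (n / l0)) := by
        have := h0 (n / l0)
        exact_mod_cast this
    _ ≤ growth S n := by
        have := growth_mono hS h3
        exact_mod_cast this

/-- the words along a path -/
def pw (f : Equiv.Perm ℤ) (g : ℕ → Equiv.Perm ℤ) : ℕ → List Bool → Equiv.Perm ℤ
  | _, [] => 1
  | i, b :: l => (if b then f else 1) * ((g i * (g (i + 1))⁻¹) * pw f g (i + 1) l)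

theorem pw_ball {S : Set (Equiv.Perm ℤ)} {f : Equiv.Perm ℤ} {g : ℕ → Equiv.Perm ℤ} {a b : ℕ}
    (hf : f ∈ ball S a) (hg : ∀ i, g i * (g (i + 1))⁻¹ ∈ ball S b) (l : List Bool) :
    ∀ i, pw f g i l ∈ ball S ((a + b) * l.length) := by
  induction l with
  | nil => exact fun i => ⟨[], by simp, by simp, rfl⟩
  | cons c l ih =>
    intro i
    have h1 : (if c then f else 1) ∈ ball S a := by
      cases c
      · exact ⟨[], by simp, by simp, rfl⟩
      · simpa using hf
    have h2 := ball_mul h1 (ball_mul (hg i) (ih (i + 1)))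
    have h3 : a + (b + (a + b) * l.length) = (a + b) * (c :: l).length := by
      rw [List.length_cons]
      ring
    rw [h3] at h2
    exact h2

theorem pw_fix {f : Equiv.Perm ℤ} {g : ℕ → Equiv.Perm ℤ} {w : ℤ} (l : List Bool) :
    ∀ i, (∀ j, i ≤ j → j < i + l.length → f (g j w) = g j w) →
      pw f g i l (g (i + l.length) w) = g i w := by
  induction l with
  | nil => exact fun i _ => rfl
  | cons c l ih =>
    intro i h
    rw [List.length_cons] at h ⊢
    have h1 := ih (i + 1) fun j hj hj' => h j (by omega) (by omega)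
    have h2 : i + (l.length + 1) = i + 1 + l.length := by omega
    have h3 : ((if c then f else 1 : Equiv.Perm ℤ)) (g i w) = g i w := by
      cases c
      · simp
      · simpa using h i le_rfl (by omega)
    calc pw f g i (c :: l) (g (i + (l.length + 1)) w)
        = (if c then f else 1 : Equiv.Perm ℤ) (g i ((g (i + 1))⁻¹
            (pw f g (i + 1) l (g (i + 1 + l.length) w)))) := by rw [h2]; rfl
      _ = (if c then f else 1 : Equiv.Perm ℤ) (g i w) := by
          rw [h1]
          congr 2
          exact (g (i + 1)).symm_apply_apply w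
      _ = g i w := h3

theorem pw_inj {f : Equiv.Perm ℤ} {g : ℕ → Equiv.Perm ℤ} {m : ℕ}
    (h : ∀ i, i < m → ∃ w : ℤ, f (g i w) ≠ g i w ∧ ∀ j, i < j → j < m → f (g j w) = g j w)
    (l : List Bool) : ∀ (l' : List Bool) (i : ℕ), l.length = l'.length → i + l.length ≤ m →
      pw f g i l = pw f g i l' → l = l' := by
  induction l with
  | nil =>
    intro l' i h1 _ _
    exact (List.length_eq_zero_iff.1 h1.symm).symm
  | cons b l ih =>
    intro l' i h1 h2 h3
    cases l' with
    | nil => simp at h1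
    | cons b' l' =>
      rw [List.length_cons, List.length_cons] at h1
      rw [List.length_cons] at h2
      have h4 : l.length = l'.length := by omega
      have key : ∀ k k' : List Bool, k.length = l.length → k'.length = l.length →
          f * ((g i * (g (i + 1))⁻¹) * pw f g (i + 1) k) ≠
            (g i * (g (i + 1))⁻¹) * pw f g (i + 1) k' := by
        intro k k' hk hk' he
        obtain ⟨w, hw1, hw2⟩ := h i (by omega)
        have e1 := pw_fix (f := f) (g := g) (w := w) k (i + 1)
          fun j hj hj' => hw2 j (by omega) (by omega)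
        have e2 := pw_fix (f := f) (g := g) (w := w) k' (i + 1)
          fun j hj hj' => hw2 j (by omega) (by omega)
        rw [hk] at e1
        rw [hk'] at e2
        have e3 := congrArg (fun p : Equiv.Perm ℤ => p (g (i + 1 + l.length) w)) he
        simp only [Equiv.Perm.mul_apply] at e3
        rw [e1, e2] at e3
        have e4 : (g (i + 1))⁻¹ (g (i + 1) w) = w := (g (i + 1)).symm_apply_apply w
        rw [e4] at e3
        exact hw1 e3
      have h5 : (if b then f else 1) * ((g i * (g (i + 1))⁻¹) * pw f g (i + 1) l) =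
          (if b' then f else 1) * ((g i * (g (i + 1))⁻¹) * pw f g (i + 1) l') := h3
      cases b <;> cases b'
      · simp only [Bool.false_eq_true, if_false, one_mul] at h5
        rw [ih l' (i + 1) h4 (by omega) (mul_left_cancel h5)]
      · simp only [Bool.false_eq_true, if_false, if_true, one_mul] at h5
        exact absurd h5.symm (key l' l h4.symm rfl)
      · simp only [Bool.false_eq_true, if_false, if_true, one_mul] at h5
        exact absurd h5 (key l l' rfl h4.symm)
      · simp only [if_true] at h5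
        rw [ih l' (i + 1) h4 (by omega) (mul_left_cancel (mul_left_cancel h5))]

/-- Milnor along a path -/
theorem path_exp {S : Set (Equiv.Perm ℤ)} (hS : S.Finite) (hexp : NoExp S) {f : Equiv.Perm ℤ}
    (hf : f ∈ Subgroup.closure S) (l0 : ℕ)
    (h : ∀ m : ℕ, ∃ g : ℕ → Equiv.Perm ℤ, (∀ i, g i * (g (i + 1))⁻¹ ∈ ball S l0) ∧
      ∀ i, i < m → ∃ w : ℤ, f (g i w) ≠ g i w ∧ ∀ j, i < j → j < m → f (g j w) = g j w) : False := by
  obtain ⟨a, ha⟩ := mem_ball_of_closure hf
  refine hexp (exp_of_inj hS (a + l0) fun k => ?_)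
  obtain ⟨g, hg1, hg2⟩ := h k
  refine ⟨fun v => pw f g 0 (List.ofFn v), ?_, fun v => ?_⟩
  · intro v v' hv
    have h1 := pw_inj hg2 (List.ofFn v) (List.ofFn v') 0 (by rw [List.length_ofFn, List.length_ofFn])
      (by rw [List.length_ofFn]; omega) hv
    exact List.ofFn_injective h1
  · have := pw_ball ha hg1 (List.ofFn v) 0
    rwa [List.length_ofFn] at this

end Pool.Agent.Lgp
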