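import Pool.Agent.Lgp.Mk
import Pool.Agent.Lgp.Path

/-!
# The setting of rank one with ascents
-/

namespace Pool.Agent.Lgp

open Pool.Agent.CTm Pool.Agent.Grm Filter Nat Topology

theorem ball_inv {G : Type*} [Group G] {S : Set G} {n : ℕ} {g : G} (h : g ∈ ball S n) :
    g⁻¹ ∈ ball S n := by
  obtain ⟨l, h1, h2, rfl⟩ := h
  refine ⟨(l.map (fun x => x⁻¹)).reverse, by simpa using h1, ?_, ?_⟩
  · intro x hx
    rw [List.mem_reverse, List.mem_map] at hx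
    obtain ⟨y, hy, rfl⟩ := hx
    rw [inv_inv]
    exact (h2 y hy).symm
  · rw [List.prod_inv_reverse]

/-- the setting: `M` is a minimal set, the slopes are in the cosets `f λ ^ ℤ`, `λ = a / b > 1` -/
structure R0 (S : Set (Equiv.Perm ℤ)) (M : Set (Ultrafilter ℤ)) (M0 : ℕ) (A : Finset (ℚ × ℚ))
    (F : Finset ℚ) (a b L1 L2 : ℕ) : Prop where
  fin : S.Finite
  hCT : Subgroup.closure S ≤ CT
  hd : Data S M0 A
  mnl : Mnl (Subgroup.closure S) M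
  b0 : 0 < b
  ab : b < a
  cop : Nat.Coprime a b
  slope : ∀ u ∈ M, ∀ h ∈ Subgroup.closure S, ∃ f ∈ F, ∃ k : ℤ, sl u h = f * ((a : ℚ) / b) ^ k
  fpos : ∀ f ∈ F, 0 < f
  L10 : 0 < L1
  L20 : 0 < L2
  l1 : ∀ f ∈ F, ∃ t : ℤ, f * L1 = M0 * t
  l12 : L1 ∣ L2
  l2 : ∀ f ∈ F, ∃ t : ℤ, f * L2 = L1 * t

/-- the setting with ascents: the slopes are unbounded at every point -/
structure R1 (S : Set (Equiv.Perm ℤ)) (M : Set (Ultrafilter ℤ)) (M0 : ℕ) (A : Finset (ℚ × ℚ))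
    (F : Finset ℚ) (a b L1 L2 : ℕ) : Prop extends R0 S M M0 A F a b L1 L2 where
  up : ∀ u ∈ M, ∀ C : ℚ, ∃ h ∈ Subgroup.closure S, C ≤ sl u h

theorem letter_bound {S : Set (Equiv.Perm ℤ)} {M0 : ℕ} {A : Finset (ℚ × ℚ)} (hd : Data S M0 A) :
    ∃ C : ℚ, 1 ≤ C ∧ ∀ (u : Ultrafilter ℤ) (s : Equiv.Perm ℤ), (s ∈ S ∨ s⁻¹ ∈ S) →
      C⁻¹ ≤ sl u s ∧ sl u s ≤ C ∧ |tr u s| ≤ C := by
  classical
  refine ⟨1 + ∑ c ∈ A, (c.1 + c.1⁻¹ + |c.2|), ?_, ?_⟩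
  · have : 0 ≤ ∑ c ∈ A, (c.1 + c.1⁻¹ + |c.2|) := by
      refine Finset.sum_nonneg fun c hc => ?_
      have h1 := hd.slope c hc
      have h2 := inv_pos.2 h1
      have h3 := abs_nonneg c.2
      linarith
    linarith
  · intro u s hs
    obtain ⟨r, hr⟩ := exists_cl u M0 hd.pos
    obtain ⟨c, hc, h1⟩ := hd.aff s hs r
    have hg : Gm u s c := ⟨r, M0, hd.pos, hr, fun n hn => h1 n hn⟩
    rw [sl_eq hg, tr_eq hg]
    have h2 : c.1 + c.1⁻¹ + |c.2| ≤ ∑ c ∈ A, (c.1 + c.1⁻¹ + |c.2|) :=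
      Finset.single_le_sum (f := fun c : ℚ × ℚ => c.1 + c.1⁻¹ + |c.2|) (fun c hc => by
        have h1 := hd.slope c hc
        have h2 := inv_pos.2 h1
        have h3 := abs_nonneg c.2
        linarith) hc
    have h3 := hd.slope c hc
    have h4 := inv_pos.2 h3
    have h5 := abs_nonneg c.2
    refine ⟨?_, by linarith, by linarith⟩
    rw [inv_le_comm₀ (by linarith) h3]
    linarith

theorem word_bound {S : Set (Equiv.Perm ℤ)} (hCT : Subgroup.closure S ≤ CT) {C : ℚ} (hC : 1 ≤ C)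
    (h : ∀ (u : Ultrafilter ℤ) (s : Equiv.Perm ℤ), (s ∈ S ∨ s⁻¹ ∈ S) → C⁻¹ ≤ sl u s ∧ sl u s ≤ C)
    (u : Ultrafilter ℤ) (l : List (Equiv.Perm ℤ)) (hl : Ltr S l) {n : ℕ} (hn : l.length ≤ n) :
    (C⁻¹) ^ n ≤ sl u l.prod ∧ sl u l.prod ≤ C ^ n := by
  have hC0 : 0 < C := by linarith
  have hC1 : 0 < C⁻¹ := inv_pos.2 hC0
  have key : (C⁻¹) ^ l.length ≤ sl u l.prod ∧ sl u l.prod ≤ C ^ l.length := by
    clear hn
    induction l with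
    | nil =>
      rw [List.prod_nil, sl_one]
      simp
    | cons s l ih =>
      have hl' : Ltr S l := hl.suffix (List.suffix_cons s l)
      have hs := hl s (by simp)
      obtain ⟨h1, h2⟩ := ih hl'
      obtain ⟨h3, h4⟩ := h (act l.prod u) s hs
      rw [List.prod_cons, sl_mul (hCT (gen_mem hs)) (hCT hl'.mem), List.length_cons,
        _root_.pow_succ', _root_.pow_succ']
      have h5 : 0 < sl u l.prod := sl_pos (hCT hl'.mem)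
      exact ⟨mul_le_mul h3 h1 (pow_nonneg hC1.le _) (hC1.le.trans h3),
        mul_le_mul h4 h2 h5.le hC0.le⟩
  refine ⟨le_trans ?_ key.1, key.2.trans (pow_le_pow_right₀ hC hn)⟩
  exact pow_le_pow_of_le_one hC1.le (inv_le_one_of_one_le₀ hC) hn

section pow
variable {a b : ℕ} {F : Finset ℚ}

theorem lam_gt (hb : 0 < b) (hab : b < a) : 1 < (a : ℚ) / b := by
  have : (0 : ℚ) < b := by exact_mod_cast hb
  rw [one_lt_div this]
  exact_mod_cast hab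

theorem fin_bound (F : Finset ℚ) (hF : ∀ f ∈ F, 0 < f) :
    ∃ B : ℚ, 1 ≤ B ∧ ∀ f ∈ F, f ≤ B ∧ B⁻¹ ≤ f := by
  classical
  refine ⟨1 + ∑ f ∈ F, (f + f⁻¹), ?_, ?_⟩
  · have : 0 ≤ ∑ f ∈ F, (f + f⁻¹) := by
      refine Finset.sum_nonneg fun f hf => ?_
      have h1 := hF f hf
      have h2 := inv_pos.2 h1
      linarith
    linarith
  · intro f hf
    have h2 : f + f⁻¹ ≤ ∑ f ∈ F, (f + f⁻¹) :=
      Finset.single_le_sum (f := fun f : ℚ => f + f⁻¹) (fun f hf => by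
        have h1 := hF f hf
        have h2 := inv_pos.2 h1
        linarith) hf
    have h3 := hF f hf
    have h4 := inv_pos.2 h3
    refine ⟨by linarith, ?_⟩
    rw [inv_le_comm₀ (by linarith) h3]
    linarith

theorem lowk (hb : 0 < b) (hab : b < a) (hF : ∀ f ∈ F, 0 < f) {δ : ℚ} (hδ : 0 < δ) :
    ∃ α : ℕ, ∀ f ∈ F, ∀ k : ℤ, δ ≤ f * ((a : ℚ) / b) ^ k → -(α : ℤ) ≤ k := by
  obtain ⟨B, hB, hB'⟩ := fin_bound F hF
  have hl := lam_gt hb hab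
  obtain ⟨α, hα⟩ := pow_unbounded_of_one_lt (B / δ) hl
  refine ⟨α, fun f hf k hk => ?_⟩
  by_contra hlt
  have h1 : ((a : ℚ) / b) ^ k ≤ ((a : ℚ) / b) ^ (-(α : ℤ)) := zpow_le_zpow_right₀ hl.le (by omega)
  have h2 : f * ((a : ℚ) / b) ^ k ≤ B * ((a : ℚ) / b) ^ (-(α : ℤ)) :=
    mul_le_mul (hB' f hf).1 h1 (zpow_nonneg (by linarith) _) (by linarith)
  rw [zpow_neg, zpow_natCast] at h2
  rw [div_lt_iff₀ hδ] at hα
  have h3 : (0 : ℚ) < ((a : ℚ) / b) ^ α := pow_pos (by linarith) _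
  have h4 : δ * ((a : ℚ) / b) ^ α ≤ B := by
    have := hk.trans h2
    rwa [← div_eq_mul_inv, le_div_iff₀ h3] at this
  linarith

theorem upk (hb : 0 < b) (hab : b < a) (hF : ∀ f ∈ F, 0 < f) (C : ℚ) :
    ∃ β : ℕ, ∀ f ∈ F, ∀ k : ℤ, f * ((a : ℚ) / b) ^ k ≤ C → k ≤ β := by
  obtain ⟨B, hB, hB'⟩ := fin_bound F hF
  have hl := lam_gt hb hab
  obtain ⟨β, hβ⟩ := pow_unbounded_of_one_lt (C * B) hl
  refine ⟨β, fun f hf k hk => ?_⟩
  by_contra hlt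
  have h1 : ((a : ℚ) / b) ^ (β : ℤ) ≤ ((a : ℚ) / b) ^ k := zpow_le_zpow_right₀ hl.le (by omega)
  rw [zpow_natCast] at h1
  have hB0 : 0 < B := by linarith
  have h2 : B⁻¹ * ((a : ℚ) / b) ^ k ≤ f * ((a : ℚ) / b) ^ k :=
    mul_le_mul_of_nonneg_right (hB' f hf).2 (zpow_nonneg (by linarith) _)
  have h3 : ((a : ℚ) / b) ^ k ≤ C * B := by
    have := h2.trans hk
    rwa [inv_mul_le_iff₀ hB0, mul_comm] at this
  linarith

theorem lowk' (hb : 0 < b) (hab : b < a) (hF : ∀ f ∈ F, 0 < f) (α : ℕ) :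
    ∃ K : ℚ, 1 ≤ K ∧ ∀ f ∈ F, ∀ k : ℤ, K ≤ f * ((a : ℚ) / b) ^ k → (α : ℤ) ≤ k := by
  obtain ⟨B, hB, hB'⟩ := fin_bound F hF
  have hl := lam_gt hb hab
  refine ⟨B * ((a : ℚ) / b) ^ α, one_le_mul_of_one_le_of_one_le hB (one_le_pow₀ hl.le), ?_⟩
  intro f hf k hk
  by_contra hlt
  have h1 : ((a : ℚ) / b) ^ k < ((a : ℚ) / b) ^ (α : ℤ) := zpow_lt_zpow_right₀ hl (by omega)
  rw [zpow_natCast] at h1
  have h2 : f * ((a : ℚ) / b) ^ k ≤ B * ((a : ℚ) / b) ^ k :=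
    mul_le_mul_of_nonneg_right (hB' f hf).1 (zpow_nonneg (by linarith) _)
  have h3 : B * ((a : ℚ) / b) ^ k < B * ((a : ℚ) / b) ^ α := mul_lt_mul_of_pos_left h1 (by linarith)
  linarith

theorem box_mul (hb : 0 < b) (hab : b < a) {f : ℚ} {L L' : ℕ} {t : ℤ} (h : f * L = L' * t) {k : ℤ}
    {α β α' β' : ℕ} (h1 : (α' : ℤ) ≤ α + k) (h2 : (β' : ℤ) + k ≤ β) :
    ∃ t' : ℤ, f * ((a : ℚ) / b) ^ k * ((L * a ^ α * b ^ β : ℕ) : ℚ) =
      ((L' * a ^ α' * b ^ β' : ℕ) : ℚ) * t' := by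
  have ha0 : (a : ℚ) ≠ 0 := by
    have : 0 < a := by omega
    exact_mod_cast this.ne'
  have hb0 : (b : ℚ) ≠ 0 := by exact_mod_cast hb.ne'
  obtain ⟨i, hi⟩ : ∃ i : ℕ, (α : ℤ) + k = α' + i := ⟨(α + k - α').toNat, by omega⟩
  obtain ⟨j, hj⟩ : ∃ j : ℕ, (β : ℤ) - k = β' + j := ⟨(β - k - β').toNat, by omega⟩
  refine ⟨t * a ^ i * b ^ j, ?_⟩
  push_cast
  have e1 : (a : ℚ) ^ k * (a : ℚ) ^ α = a ^ α' * a ^ i := by
    rw [← zpow_natCast, ← zpow_natCast (a : ℚ) α', ← zpow_natCast (a : ℚ) i, ← zpow_add₀ ha0,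
      ← zpow_add₀ ha0, add_comm, hi]
  have e2 : (b : ℚ) ^ β = b ^ k * (b ^ β' * b ^ j) := by
    rw [← zpow_natCast, ← zpow_natCast (b : ℚ) β', ← zpow_natCast (b : ℚ) j, ← zpow_add₀ hb0,
      ← zpow_add₀ hb0, ← hj]
    congr 1
    ring
  have hbk : (b : ℚ) ^ k ≠ 0 := zpow_ne_zero _ hb0
  rw [div_zpow, e2]
  have e3 : f * ((a : ℚ) ^ k / (b : ℚ) ^ k) * (L * a ^ α * (b ^ k * (b ^ β' * b ^ j))) =
      (f * L) * (a ^ k * a ^ α) * (b ^ β' * b ^ j) := by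
    field_simp
  rw [e3, e1, h]
  ring

end pow

end Pool.Agent.Lgp
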