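import Pool.Agent.Lgp.Min

/-!
# Reading words on classes
-/

namespace Pool.Agent.Lgp

open Pool.Agent.CTm Pool.Agent.Grm Filter Nat Topology

/-- the word `l` can be read on the class of `u` modulo `Q` -/
def Rd (M0 : ℕ) (u : Ultrafilter ℤ) (l : List (Equiv.Perm ℤ)) (Q : ℕ) : Prop :=
  ∀ l', l' <:+ l → ∃ t : ℤ, sl u l'.prod * Q = M0 * t

/-- the letters -/
def Ltr (S : Set (Equiv.Perm ℤ)) (l : List (Equiv.Perm ℤ)) : Prop := ∀ x ∈ l, x ∈ S ∨ x⁻¹ ∈ S

theorem Ltr.suffix {S : Set (Equiv.Perm ℤ)} {l l' : List (Equiv.Perm ℤ)} (h : Ltr S l)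
    (h' : l' <:+ l) : Ltr S l' := fun x hx => h x (h'.subset hx)

theorem Ltr.append {S : Set (Equiv.Perm ℤ)} {l l' : List (Equiv.Perm ℤ)} (h : Ltr S l)
    (h' : Ltr S l') : Ltr S (l ++ l') := by
  intro x hx
  rcases List.mem_append.1 hx with hx | hx
  · exact h x hx
  · exact h' x hx

theorem Ltr.mem {S : Set (Equiv.Perm ℤ)} {l : List (Equiv.Perm ℤ)} (h : Ltr S l) :
    l.prod ∈ Subgroup.closure S := list_mem h

variable {S : Set (Equiv.Perm ℤ)} {M0 : ℕ} {A : Finset (ℚ × ℚ)}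

theorem Rd.tail {u : Ultrafilter ℤ} {s : Equiv.Perm ℤ} {l : List (Equiv.Perm ℤ)} {Q : ℕ}
    (h : Rd M0 u (s :: l) Q) : Rd M0 u l Q :=
  fun l' hl' => h l' (hl'.trans (List.suffix_cons s l))

theorem rd_diff (hd : Data S M0 A) (hCT : Subgroup.closure S ≤ CT) {u : Ultrafilter ℤ}
    {l : List (Equiv.Perm ℤ)} (hl : Ltr S l) {r : ℤ} {Q : ℕ} (hr : cl r Q ∈ u)
    (h : Rd M0 u l Q) : ∀ n ∈ cl r Q, ∀ m ∈ cl r Q,
      ((l.prod n : ℤ) : ℚ) - l.prod m = sl u l.prod * ((n : ℚ) - m) := by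
  induction l with
  | nil =>
    intro n _ m _
    rw [List.prod_nil, sl_one]
    simp
  | cons s l ih =>
    have hl' : Ltr S l := hl.suffix (List.suffix_cons s l)
    have hs := hl s (by simp)
    have ih' := ih hl' h.tail
    intro n hn m hm
    obtain ⟨t, ht⟩ := h.tail l List.suffix_rfl
    obtain ⟨c, _, hc'⟩ := hd.aff s hs (l.prod m)
    have key : ∀ n ∈ cl r Q, (M0 : ℤ) ∣ l.prod n - l.prod m := by
      intro n hn
      have e1 := ih' n hn m hm
      have e0 : (Q : ℤ) ∣ n - m := by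
        have := dvd_sub (mem_cl.1 hn) (mem_cl.1 hm)
        rwa [sub_sub_sub_cancel_right] at this
      obtain ⟨k, hk⟩ := e0
      refine ⟨t * k, ?_⟩
      have e2 : ((l.prod n - l.prod m : ℤ) : ℚ) = (((M0 : ℤ) * (t * k) : ℤ) : ℚ) := by
        have e3 : ((n - m : ℤ) : ℚ) = ((Q : ℤ) * k : ℤ) := by rw [hk]
        push_cast at e3 ⊢
        rw [e1, e3]
        linear_combination (k : ℚ) * ht
      exact_mod_cast e2
    have hg : Gm (act l.prod u) s c := by
      refine ⟨l.prod m, M0, hd.pos, ?_, fun n hn => hc' n hn⟩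
      rw [mem_act]
      exact mem_of_superset hr fun n hn => key n hn
    have e1 := hc' (l.prod n) (key n hn)
    have e2 := hc' (l.prod m) (by simp)
    rw [List.prod_cons, sl_mul (hCT (gen_mem hs)) (hCT hl'.mem), sl_eq hg,
      Equiv.Perm.mul_apply, Equiv.Perm.mul_apply, e1, e2]
    linear_combination c.1 * ih' n hn m hm

theorem rd_aff (hd : Data S M0 A) (hCT : Subgroup.closure S ≤ CT) {u : Ultrafilter ℤ}
    {l : List (Equiv.Perm ℤ)} (hl : Ltr S l) {r : ℤ} {Q : ℕ} (hr : cl r Q ∈ u)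
    (h : Rd M0 u l Q) : ∀ n ∈ cl r Q, ((l.prod n : ℤ) : ℚ) = sl u l.prod * n + tr u l.prod := by
  intro n hn
  obtain ⟨s, Q', _, h1, h2⟩ := gm_sl (u := u) (hCT hl.mem)
  obtain ⟨m, hm1, hm2⟩ := cl_inter hr h1
  have e1 := rd_diff hd hCT hl hr h n hn m hm1
  have e2 := h2 m hm2
  simp only at e2
  linear_combination e1 + e2

theorem suffix_app {α : Type*} {x l l' : List α} (h : x <:+ l ++ l') :
    x <:+ l' ∨ ∃ y, y <:+ l ∧ x = y ++ l' := by
  induction l with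
  | nil => exact Or.inl (by simpa using h)
  | cons a l ih =>
    rw [List.cons_append] at h
    rcases List.suffix_cons_iff.1 h with h1 | h1
    · exact Or.inr ⟨a :: l, List.suffix_rfl, by rw [h1, List.cons_append]⟩
    · rcases ih h1 with h2 | ⟨y, hy, h2⟩
      · exact Or.inl h2
      · exact Or.inr ⟨y, hy.trans (List.suffix_cons a l), h2⟩

/-- concatenation -/
theorem Rd.append {u : Ultrafilter ℤ} (hCT : Subgroup.closure S ≤ CT) {l l' : List (Equiv.Perm ℤ)}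
    (hl : Ltr S l) (hl' : Ltr S l') {Q : ℕ} (h' : Rd M0 u l' Q)
    (h : ∀ l'', l'' <:+ l → ∃ t : ℤ, sl (act l'.prod u) l''.prod * sl u l'.prod * Q = M0 * t) :
    Rd M0 u (l ++ l') Q := by
  intro x hx
  rcases suffix_app hx with h1 | ⟨y, hy, rfl⟩
  · exact h' x h1
  · obtain ⟨t, ht⟩ := h y hy
    refine ⟨t, ?_⟩
    rw [List.prod_append, sl_mul (hCT (hl.suffix hy).mem) (hCT hl'.mem)]
    exact ht

end Pool.Agent.Lgp
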