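import Pool.Agent.Lgp.Seven

/-!
# Recurrence
-/

namespace Pool.Agent.Lgp

open Pool.Agent.CTm Pool.Agent.Grm Filter Nat Topology

variable {S : Set (Equiv.Perm ℤ)} {M : Set (Ultrafilter ℤ)} {M0 : ℕ} {A : Finset (ℚ × ℚ)}
  {F : Finset ℚ} {a b L1 L2 : ℕ}

/-- arbitrarily long Markov returns -/
def Rec (S : Set (Equiv.Perm ℤ)) (a b N : ℕ) (ρ : ℤ) (u : Ultrafilter ℤ) : Prop :=
  ∀ κ0 : ℕ, ∃ κ : ℕ, κ0 ≤ κ ∧ ∃ g ∈ Subgroup.closure S, ∃ r r' : ℤ,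
    Mk N (a ^ κ) (b ^ κ) ρ g r r' ∧ cl r (N * b ^ κ) ∈ u

theorem Rec.cl {N : ℕ} {ρ : ℤ} {u : Ultrafilter ℤ} (h : Rec S a b N ρ u) : cl ρ N ∈ u := by
  obtain ⟨κ, _, g, _, r, r', h1, h2⟩ := h 0
  have h3 : r ∈ Pool.Agent.Lgp.cl ρ N := h1.1
  rw [← cl_eq h3]
  exact cl_coarse h2 (Dvd.intro _ rfl)

theorem R1.mk_of_word (R : R1 S M M0 A F a b L1 L2) {y : Ultrafilter ℤ} (hy : y ∈ M)
    {l : List (Equiv.Perm ℤ)} (hl : Ltr S l) {δ : ℚ} (hδ : 0 < δ) (hU : UpW δ y l) {α β : ℕ}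
    (hα : ∀ f ∈ F, ∀ k : ℤ, δ ≤ f * ((a : ℚ) / b) ^ k → -(α : ℤ) ≤ k)
    (hβ : ∀ f ∈ F, ∀ k : ℤ, f * ((a : ℚ) / b) ^ k ≤ δ⁻¹ → k ≤ β) {c L κ : ℕ} (hcα : α ≤ c)
    (hcβ : β ≤ c) (hL : L1 ∣ L) (hL0 : 0 < L) (hκ : sl y l.prod = ((a : ℚ) / b) ^ κ) {ρ : ℤ}
    (h1 : cl ρ (L * a ^ c * b ^ c) ∈ y) (h2 : cl ρ (L * a ^ c * b ^ c) ∈ act l.prod y) :
    ∃ r r' : ℤ, Mk (L * a ^ c * b ^ c) (a ^ κ) (b ^ κ) ρ l.prod r r' ∧
      cl r (L * a ^ c * b ^ c * b ^ κ) ∈ y := by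
  have ha0 : 0 < a := by have := R.ab; omega
  have hb0 : (b : ℚ) ≠ 0 := by exact_mod_cast R.b0.ne'
  have hlam := lam_gt R.b0 R.ab
  set N : ℕ := L * a ^ c * b ^ c with hN
  have hNκ : N * b ^ κ = L * a ^ c * b ^ (c + κ) := by rw [hN, pow_add, mul_assoc, mul_assoc]
  have hpos : 0 < N * b ^ κ :=
    Nat.mul_pos (Nat.mul_pos (Nat.mul_pos hL0 (Nat.pow_pos ha0)) (Nat.pow_pos R.b0)) (Nat.pow_pos R.b0)
  obtain ⟨r, hr⟩ := exists_cl y (N * b ^ κ) hpos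
  have hrd : Rd M0 y l (N * b ^ κ) := by
    rw [hNκ]
    refine R.rd hy hl hL ?_
    intro l' hl' f hf k hk
    obtain ⟨k1, k2⟩ := hU l' hl'
    rw [hk] at k1 k2
    have k3 := hα f hf k k1
    have k4 : f * ((a : ℚ) / b) ^ (k - κ) ≤ δ⁻¹ := by
      rw [zpow_sub₀ (by linarith), zpow_natCast, ← mul_div_assoc, div_le_iff₀ (pow_pos (by linarith) _),
        ← hκ, inv_mul_eq_div, le_div_iff₀ hδ]
      exact k2
    have k5 := hβ f hf _ k4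
    push_cast
    omega
  have hd := rd_diff R.hd R.hCT hl hr hrd
  have hr1 : r ∈ cl ρ N := cl_mem_sub h1 hr (Dvd.intro _ rfl) (cl_self _ _)
  have h3 : ∀ t : ℤ, l.prod (r + (N : ℤ) * (b ^ κ : ℕ) * t) = l.prod r + (N : ℤ) * (a ^ κ : ℕ) * t := by
    intro t
    have e1 := hd (r + (N : ℤ) * (b ^ κ : ℕ) * t) (mem_cl_mul.2 ⟨t, rfl⟩) r (cl_self _ _)
    rw [hκ, div_pow] at e1
    have e2 : ((l.prod (r + (N : ℤ) * (b ^ κ : ℕ) * t) : ℤ) : ℚ) =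
        ((l.prod r + (N : ℤ) * (a ^ κ : ℕ) * t : ℤ) : ℚ) := by
      push_cast at e1 ⊢
      have e3 : (a : ℚ) ^ κ / (b : ℚ) ^ κ * ((r : ℚ) + (N : ℚ) * (b : ℚ) ^ κ * t - r) =
          N * (a : ℚ) ^ κ * t := by
        field_simp
        ring
      linear_combination e1 + e3
    exact_mod_cast e2
  refine ⟨r, l.prod r, ⟨hr1, ?_, h3⟩, hr⟩
  obtain ⟨n, hn1, hn2⟩ := nonempty_of_mem (inter_mem hr (mem_act.1 h2))
  obtain ⟨t, rfl⟩ := mem_cl_mul.1 hn1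
  have e1 : (N : ℤ) ∣ l.prod (r + (N : ℤ) * (b ^ κ : ℕ) * t) - ρ := hn2
  rw [h3 t] at e1
  have e2 : l.prod r + (N : ℤ) * (a ^ κ : ℕ) * t - ρ = (l.prod r - ρ) + N * ((a ^ κ : ℕ) * t) := by ring
  rw [e2] at e1
  exact (dvd_add_left (Dvd.intro _ rfl)).1 e1

theorem pW_up (hCT : Subgroup.closure S ≤ CT) (hM : Mnl (Subgroup.closure S) M) {δ : ℚ}
    (hδ : 0 < δ) (hδ1 : δ ≤ 1) {p : Ultrafilter ℤ → List (Equiv.Perm ℤ)}
    (hp : ∀ x ∈ M, Ltr S (p x)) (h1 : ∀ x ∈ M, UpW δ x (p x)) (h2 : ∀ x ∈ M, 2 ≤ sl x (p x).prod)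
    {x : Ultrafilter ℤ} (hx : x ∈ M) (d : ℕ) :
    UpW δ x (pW p x d) ∧ 2 ^ d ≤ sl x (pW p x d).prod := by
  induction d with
  | zero =>
    refine ⟨fun p' hp' => ?_, ?_⟩
    · change p' <:+ [] at hp'
      rw [List.suffix_nil.1 hp', List.prod_nil, sl_one, one_mul]
      refine ⟨hδ1, ?_⟩
      change δ ≤ sl x ([] : List (Equiv.Perm ℤ)).prod
      rw [List.prod_nil, sl_one]
      exact hδ1
    · change 2 ^ 0 ≤ sl x ([] : List (Equiv.Perm ℤ)).prod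
      rw [List.prod_nil, sl_one, pow_zero]
  | succ d ih =>
    obtain ⟨i1, i2⟩ := ih
    have hy := px_mem hM hp hx d
    have hl := hp _ hy
    have hl' := pW_ltr hM hp hx d
    have h3 : (1 : ℚ) ≤ 2 ^ d := one_le_pow₀ (by norm_num)
    have h4 := h2 _ hy
    refine ⟨?_, ?_⟩
    · refine UpW.append hCT hδ hl hl' ?_ i1 (by linarith) ?_
      · rw [act_pW]
        exact h1 _ hy
      · rw [act_pW]
        linarith
    · change _ ≤ sl x (p (px p x d) ++ pW p x d).prod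
      rw [List.prod_append, sl_mul (hCT hl.mem) (hCT hl'.mem), act_pW, _root_.pow_succ']
      exact mul_le_mul h4 i2 (by linarith) (by linarith)

/-- recurrent points exist -/
theorem R1.exists_rec (R : R1 S M M0 A F a b L1 L2) : ∃ c0 : ℕ, ∀ c, c0 ≤ c → ∀ L, L1 ∣ L → 0 < L →
    ∀ x ∈ M, ∃ h ∈ Subgroup.closure S, ∃ ρ : ℤ, Rec S a b (L * a ^ c * b ^ c) ρ (act h x) ∧
      ∃ (κ : ℕ) (g : Equiv.Perm ℤ) (r r' : ℤ), 1 ≤ κ ∧ g ∈ Subgroup.closure S ∧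
        Mk (L * a ^ c * b ^ c) (a ^ κ) (b ^ κ) ρ g r r' ∧
        cl r (L * a ^ c * b ^ c * b ^ κ) ∈ act h x ∧
        Rec S a b (L * a ^ c * b ^ c) ρ (act g (act h x)) := by
  classical
  obtain ⟨δ, n0, hδ, hδ1, hA⟩ := exists_asc R.hCT R.hd R.mnl R.up
  obtain ⟨α, hα⟩ := lowk R.b0 R.ab R.fpos hδ
  obtain ⟨β, hβ⟩ := upk R.b0 R.ab R.fpos δ⁻¹
  refine ⟨max α β, fun c hc L hL hL0 x hx => ?_⟩
  have ha0 : 0 < a := by have := R.ab; omega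
  have hlam := lam_gt R.b0 R.ab
  set N : ℕ := L * a ^ c * b ^ c with hN
  have hNp : 0 < N := Nat.mul_pos (Nat.mul_pos hL0 (Nat.pow_pos ha0)) (Nat.pow_pos R.b0)
  have hA1 : ∀ x ∈ M, ∃ l, Ltr S l ∧ 2 ≤ sl x l.prod ∧ UpW δ x l := by
    intro x hx
    obtain ⟨l, h1, _, h3, h4⟩ := hA 1 x hx
    exact ⟨l, h1, by simpa using h3, h4⟩
  choose! p hp1 hp2 hp3 using hA1
  have hpx : ∀ i, px p x i ∈ M := px_mem R.mnl hp1 hx
  have hres : ∀ i, ∃ r : ℤ, cl r N ∈ px p x i := fun i => exists_cl _ N hNp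
  choose res hres using hres
  have hsl : ∀ i, ∃ f : F, ∃ k : ℤ, sl x (pW p x i).prod = (f : ℚ) * ((a : ℚ) / b) ^ k := by
    intro i
    obtain ⟨f, hf, k, hk⟩ := R.slope x hx _ (pW_ltr R.mnl hp1 hx i).mem
    exact ⟨⟨f, hf⟩, k, hk⟩
  choose ff kk hfk using hsl
  have : NeZero N := ⟨hNp.ne'⟩
  obtain ⟨⟨q, f⟩, hq⟩ := Finite.exists_infinite_fiber (fun i : ℕ => (((res i : ℤ) : ZMod N), ff i))
  rw [Set.infinite_coe_iff] at hq
  set I : Set ℕ := (fun i : ℕ => (((res i : ℤ) : ZMod N), ff i)) ⁻¹' {(q, f)} with hI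
  obtain ⟨ρ, rfl⟩ := ZMod.intCast_surjective q
  have hIcl : ∀ i ∈ I, cl ρ N ∈ px p x i := by
    intro i hi
    have h1 : (((res i : ℤ) : ZMod N), ff i) = ((ρ : ZMod N), f) := hi
    have h2 := (Prod.ext_iff.1 h1).1
    have h3 : res i ∈ cl ρ N := by
      rw [mem_cl, ← ZMod.intCast_zmod_eq_zero_iff_dvd, Int.cast_sub]
      simp only at h2
      rw [h2, sub_self]
    rw [← cl_eq h3]
    exact hres i
  have hIf : ∀ i ∈ I, ff i = f := by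
    intro i hi
    have h1 : (((res i : ℤ) : ZMod N), ff i) = ((ρ : ZMod N), f) := hi
    exact (Prod.ext_iff.1 h1).2
  -- the return from `i` to `j`
  have key : ∀ i ∈ I, ∀ κ0 : ℕ, ∃ j ∈ I, i < j ∧ ∃ κ : ℕ, κ0 ≤ κ ∧ ∃ r r' : ℤ,
      Mk N (a ^ κ) (b ^ κ) ρ (pW p (px p x i) (j - i)).prod r r' ∧ cl r (N * b ^ κ) ∈ px p x i ∧
        act (pW p (px p x i) (j - i)).prod (px p x i) = px p x j := by
    intro i hi κ0
    obtain ⟨m, hm⟩ := pow_unbounded_of_one_lt (((a : ℚ) / b) ^ κ0) (one_lt_two : (1 : ℚ) < 2)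
    obtain ⟨j, hj, hij⟩ := hq.exists_gt (i + m)
    have e0 : act (pW p (px p x i) (j - i)).prod (px p x i) = px p x j := by
      rw [act_pW, ← px_add]
      congr 1
      omega
    obtain ⟨h1, h2⟩ := pW_up R.hCT R.mnl hδ hδ1 hp1 hp3 hp2 (hpx i) (j - i)
    have hl := pW_ltr R.mnl hp1 (hpx i) (j - i)
    have hli := pW_ltr R.mnl hp1 hx i
    have e1 : sl x (pW p x j).prod =
        sl (px p x i) (pW p (px p x i) (j - i)).prod * sl x (pW p x i).prod := by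
      have e2 : i + (j - i) = j := by omega
      conv_lhs => rw [← e2]
      rw [← pW_add, sl_mul (R.hCT hl.mem) (R.hCT hli.mem), act_pW]
    have hfpos : (0 : ℚ) < f := R.fpos f f.2
    have e3 : sl (px p x i) (pW p (px p x i) (j - i)).prod = ((a : ℚ) / b) ^ (kk j - kk i) := by
      rw [hfk j, hfk i, hIf i hi, hIf j hj] at e1
      rw [zpow_sub₀ (by linarith), eq_div_iff (zpow_ne_zero _ (by linarith))]
      have e4 : (f : ℚ) * ((a : ℚ) / b) ^ kk j =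
          f * (sl (px p x i) (pW p (px p x i) (j - i)).prod * ((a : ℚ) / b) ^ kk i) := by
        rw [e1]
        ring
      exact (mul_left_cancel₀ hfpos.ne' e4).symm
    have e5 : (κ0 : ℤ) ≤ kk j - kk i := by
      by_contra hlt
      have h3 : ((a : ℚ) / b) ^ (kk j - kk i) ≤ ((a : ℚ) / b) ^ (κ0 : ℤ) :=
        zpow_le_zpow_right₀ hlam.le (by omega)
      rw [zpow_natCast, ← e3] at h3
      have h4 : (2 : ℚ) ^ m ≤ 2 ^ (j - i) := pow_le_pow_right₀ (by norm_num) (by omega)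
      linarith
    obtain ⟨κ, hκ⟩ : ∃ κ : ℕ, kk j - kk i = κ := ⟨(kk j - kk i).toNat, by omega⟩
    rw [hκ, zpow_natCast] at e3
    obtain ⟨r, r', h5, h6⟩ := R.mk_of_word (hpx i) hl hδ h1 hα hβ
      ((le_max_left _ _).trans hc) ((le_max_right _ _).trans hc) hL hL0 e3 (hIcl i hi)
      (by rw [e0]; exact hIcl j hj)
    exact ⟨j, hj, by omega, κ, by omega, r, r', h5, h6, e0⟩
  have hrec : ∀ i ∈ I, Rec S a b N ρ (px p x i) := by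
    intro i hi κ0
    obtain ⟨j, _, _, κ, hκ, r, r', h1, h2, _⟩ := key i hi κ0
    exact ⟨κ, hκ, _, (pW_ltr R.mnl hp1 (hpx i) (j - i)).mem, r, r', h1, h2⟩
  obtain ⟨i, hi⟩ := hq.nonempty
  obtain ⟨j, hj, _, κ, hκ, r, r', h1, h2, h3⟩ := key i hi 1
  refine ⟨(pW p x i).prod, (pW_ltr R.mnl hp1 hx i).mem, ρ, ?_, κ, _, r, r', hκ,
    (pW_ltr R.mnl hp1 (hpx i) (j - i)).mem, h1, ?_, ?_⟩
  · rw [act_pW]
    exact hrec i hi
  · rw [act_pW]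
    exact h2
  · rw [act_pW, h3]
    exact hrec j hj

end Pool.Agent.Lgp
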