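import Pool.Agent.Lgp.Core
import Pool.Agent.CTm.Growth

/-!
# Invariant equivalence relations of finite index
-/

namespace Pool.Agent.Lgp

open Pool.Agent.CTm Pool.Agent.Grm Filter Nat

/-- the germ of `h` at the point `g y` is `a` -/
def GermAt (y : ℕ → ℤ) (g h : Equiv.Perm ℤ) (a : ℚ × ℚ) : Prop :=
  ∃ i : ℕ, ∀ n : ℤ, ((i ! : ℕ) : ℤ) ∣ n - y i → ((h (g n) : ℤ) : ℚ) = a.1 * (g n : ℤ) + a.2

theorem GermAt.comp {y : ℕ → ℤ} (hy : Pro y) {g h k : Equiv.Perm ℤ} {a b : ℚ × ℚ}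
    (ha : GermAt y g h a) (hb : GermAt y (h * g) k b) :
    GermAt y g (k * h) (b.1 * a.1, b.1 * a.2 + b.2) := by
  obtain ⟨i, hi⟩ := ha
  obtain ⟨j, hj⟩ := hb
  refine ⟨max i j, fun n hn => ?_⟩
  have e1 := hi n (pro_deep hy (le_max_left _ _) hn)
  have e2 := hj n (pro_deep hy (le_max_right _ _) hn)
  simp only [Equiv.Perm.mul_apply] at e2 ⊢
  rw [e2, e1]
  ring

theorem GermAt.unique {y : ℕ → ℤ} (hy : Pro y) {g h : Equiv.Perm ℤ} {a b : ℚ × ℚ}
    (ha : GermAt y g h a) (hb : GermAt y g h b) : a = b := by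
  obtain ⟨i, hi⟩ := ha
  obtain ⟨j, hj⟩ := hb
  have hn1 : (((max i j) ! : ℕ) : ℤ) ∣ y (max i j) - y (max i j) := by simp
  have hn2 : (((max i j) ! : ℕ) : ℤ) ∣ (y (max i j) + (((max i j) ! : ℕ) : ℤ)) - y (max i j) := by
    simp
  have e1 := hi _ (pro_deep hy (le_max_left _ _) hn1)
  have e2 := hj _ (pro_deep hy (le_max_right _ _) hn1)
  have e3 := hi _ (pro_deep hy (le_max_left _ _) hn2)
  have e4 := hj _ (pro_deep hy (le_max_right _ _) hn2)
  have hne : g (y (max i j)) ≠ g (y (max i j) + (((max i j) ! : ℕ) : ℤ)) := by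
    intro h1
    have h2 := g.injective h1
    have h3 : (0 : ℤ) < (((max i j) ! : ℕ) : ℤ) := by exact_mod_cast Nat.factorial_pos _
    omega
  have hne' : ((g (y (max i j)) : ℤ) : ℚ) - ((g (y (max i j) + (((max i j) ! : ℕ) : ℤ)) : ℤ) : ℚ) ≠ 0 := by
    rw [sub_ne_zero]
    exact_mod_cast hne
  have e5 : (a.1 - b.1) * (((g (y (max i j)) : ℤ) : ℚ) -
      ((g (y (max i j) + (((max i j) ! : ℕ) : ℤ)) : ℤ) : ℚ)) = 0 := by
    linear_combination e2 - e1 - e4 + e3
  have e6 : a.1 = b.1 := by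
    rcases mul_eq_zero.1 e5 with h | h
    · linarith
    · exact absurd h hne'
  have e7 : a.2 = b.2 := by
    rw [e6] at e1
    linarith
  exact Prod.ext e6 e7

theorem list_of_closure {S : Set (Equiv.Perm ℤ)} {g : Equiv.Perm ℤ} (hg : g ∈ Subgroup.closure S) :
    ∃ l : List (Equiv.Perm ℤ), (∀ x ∈ l, x ∈ S ∨ x⁻¹ ∈ S) ∧ l.prod = g := by
  obtain ⟨n, l, _, h1, h2⟩ := mem_ball_of_closure hg
  exact ⟨l, h1, h2⟩

theorem gen_mem {S : Set (Equiv.Perm ℤ)} {s : Equiv.Perm ℤ} (hs : s ∈ S ∨ s⁻¹ ∈ S) :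
    s ∈ Subgroup.closure S := by
  rcases hs with h | h
  · exact Subgroup.subset_closure h
  · exact (Subgroup.inv_mem_iff _).1 (Subgroup.subset_closure h)

theorem list_mem {S : Set (Equiv.Perm ℤ)} {l : List (Equiv.Perm ℤ)} (h : ∀ x ∈ l, x ∈ S ∨ x⁻¹ ∈ S) :
    l.prod ∈ Subgroup.closure S :=
  Subgroup.list_prod_mem _ fun x hx => gen_mem (h x hx)

/-- a relation with finitely many classes which is invariant and controls the germs -/
structure GoodRel (S : Set (Equiv.Perm ℤ)) (y : ℕ → ℤ)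
    (R : Equiv.Perm ℤ → Equiv.Perm ℤ → Prop) : Prop where
  refl : ∀ g ∈ Subgroup.closure S, R g g
  symm : ∀ g ∈ Subgroup.closure S, ∀ g' ∈ Subgroup.closure S, R g g' → R g' g
  trans : ∀ g ∈ Subgroup.closure S, ∀ g' ∈ Subgroup.closure S, ∀ g'' ∈ Subgroup.closure S,
    R g g' → R g' g'' → R g g''
  fin : ∃ (α : Type) (_ : Finite α) (f : Equiv.Perm ℤ → α),
    ∀ g ∈ Subgroup.closure S, ∀ g' ∈ Subgroup.closure S, f g = f g' → R g g'
  step : ∀ s, (s ∈ S ∨ s⁻¹ ∈ S) → ∀ g ∈ Subgroup.closure S, ∀ g' ∈ Subgroup.closure S,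
    R g g' → R (s * g) (s * g')
  germ : ∀ s, (s ∈ S ∨ s⁻¹ ∈ S) → ∀ g ∈ Subgroup.closure S, ∀ g' ∈ Subgroup.closure S,
    R g g' → ∃ a : ℚ × ℚ, GermAt y g s a ∧ GermAt y g' s a
  triv : ∀ h ∈ Subgroup.closure S, ∀ g ∈ Subgroup.closure S, R (h * g) g →
    ∀ τ : ℚ, GermAt y g h (1, τ) → τ = 0

namespace GoodRel

variable {S : Set (Equiv.Perm ℤ)} {y : ℕ → ℤ} {R : Equiv.Perm ℤ → Equiv.Perm ℤ → Prop}

theorem steps (hR : GoodRel S y R) {h : Equiv.Perm ℤ} (hh : h ∈ Subgroup.closure S)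
    {g g' : Equiv.Perm ℤ} (hg : g ∈ Subgroup.closure S) (hg' : g' ∈ Subgroup.closure S)
    (h1 : R g g') : R (h * g) (h * g') := by
  obtain ⟨l, hl, rfl⟩ := list_of_closure hh
  clear hh
  induction l with
  | nil => simpa using h1
  | cons s l ih =>
    have hl' : ∀ x ∈ l, x ∈ S ∨ x⁻¹ ∈ S := fun x hx => hl x (by simp [hx])
    rw [List.prod_cons, mul_assoc, mul_assoc]
    exact hR.step s (hl s (by simp)) _ (mul_mem (list_mem hl') hg) _ (mul_mem (list_mem hl') hg')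
      (ih hl')

theorem germs (hR : GoodRel S y R) (hy : Pro y) {h : Equiv.Perm ℤ} (hh : h ∈ Subgroup.closure S)
    {g g' : Equiv.Perm ℤ} (hg : g ∈ Subgroup.closure S) (hg' : g' ∈ Subgroup.closure S)
    (h1 : R g g') : ∃ a : ℚ × ℚ, GermAt y g h a ∧ GermAt y g' h a := by
  obtain ⟨l, hl, rfl⟩ := list_of_closure hh
  clear hh
  induction l with
  | nil => exact ⟨(1, 0), ⟨0, fun n _ => by simp⟩, ⟨0, fun n _ => by simp⟩⟩
  | cons s l ih =>
    have hl' : ∀ x ∈ l, x ∈ S ∨ x⁻¹ ∈ S := fun x hx => hl x (by simp [hx])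
    obtain ⟨a, ha, ha'⟩ := ih hl'
    obtain ⟨b, hb, hb'⟩ := hR.germ s (hl s (by simp)) (l.prod * g) (mul_mem (list_mem hl') hg)
      (l.prod * g') (mul_mem (list_mem hl') hg') (hR.steps (list_mem hl') hg hg' h1)
    rw [List.prod_cons]
    exact ⟨_, ha.comp hy hb, ha'.comp hy hb'⟩

/-- the elements which preserve all classes -/
theorem exists_kernel (hR : GoodRel S y R) : ∃ K : Subgroup (Equiv.Perm ℤ),
    K ≤ Subgroup.closure S ∧ (K.subgroupOf (Subgroup.closure S)).FiniteIndex ∧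
    ∀ h ∈ K, ∀ g ∈ Subgroup.closure S, R (h * g) g := by
  classical
  let H := Subgroup.closure S
  let Q : Setoid H :=
    { r := fun g g' => R (g : Equiv.Perm ℤ) (g' : Equiv.Perm ℤ)
      iseqv := ⟨fun g => hR.refl _ g.2, fun {g g'} h => hR.symm _ g.2 _ g'.2 h,
        fun {g g' g''} h h' => hR.trans _ g.2 _ g'.2 _ g''.2 h h'⟩ }
  obtain ⟨α, hα, f, hf⟩ := hR.fin
  have hfin : Finite (Quotient Q) := by
    have := hα
    refine Finite.of_injective (β := Set (Set.range fun g : H => f (g : Equiv.Perm ℤ)))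
      (fun q => {v | ∃ g : H, Quotient.mk Q g = q ∧ f (g : Equiv.Perm ℤ) = v}) ?_
    intro q q' hq
    obtain ⟨g, rfl⟩ := Quotient.exists_rep q
    have h1 : (⟨f (g : Equiv.Perm ℤ), ⟨g, rfl⟩⟩ : Set.range fun g : H => f (g : Equiv.Perm ℤ)) ∈
        {v : Set.range fun g : H => f (g : Equiv.Perm ℤ) |
          ∃ g' : H, Quotient.mk Q g' = Quotient.mk Q g ∧ f (g' : Equiv.Perm ℤ) = v} := ⟨g, rfl, rfl⟩
    have h2 := (Set.ext_iff.1 hq _).1 h1
    obtain ⟨g', hg', h3⟩ := h2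
    rw [← hg']
    exact Quotient.sound (hf _ g.2 _ g'.2 h3.symm)
  let act : H →* Equiv.Perm (Quotient Q) :=
    { toFun := fun h =>
        { toFun := Quotient.map' (fun g => h * g) (fun g g' hg => hR.steps h.2 g.2 g'.2 hg)
          invFun := Quotient.map' (fun g => h⁻¹ * g) (fun g g' hg => hR.steps (h⁻¹).2 g.2 g'.2 hg)
          left_inv := by
            intro q
            obtain ⟨g, rfl⟩ := Quotient.exists_rep q
            show Quotient.mk Q (h⁻¹ * (h * g)) = Quotient.mk Q g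
            rw [inv_mul_cancel_left]
          right_inv := by
            intro q
            obtain ⟨g, rfl⟩ := Quotient.exists_rep q
            show Quotient.mk Q (h * (h⁻¹ * g)) = Quotient.mk Q g
            rw [mul_inv_cancel_left] }
      map_one' := by
        ext q
        obtain ⟨g, rfl⟩ := Quotient.exists_rep q
        show Quotient.mk Q (1 * g) = Quotient.mk Q g
        rw [one_mul]
      map_mul' := by
        intro a b
        ext q
        obtain ⟨g, rfl⟩ := Quotient.exists_rep q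
        show Quotient.mk Q (a * b * g) = Quotient.mk Q (a * (b * g))
        rw [mul_assoc] }
  have hk : act.ker.FiniteIndex := Subgroup.finiteIndex_ker act
  refine ⟨act.ker.map H.subtype, ?_, ?_, ?_⟩
  · rintro _ ⟨h, _, rfl⟩
    exact h.2
  · have h1 : (act.ker.map H.subtype).subgroupOf H = act.ker := by
      unfold Subgroup.subgroupOf
      exact Subgroup.comap_map_eq_self_of_injective H.subtype_injective _
    rw [h1]
    exact hk
  · rintro _ ⟨h, hh, rfl⟩ g hg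
    have h1 := congrArg (fun e : Equiv.Perm (Quotient Q) => e (Quotient.mk Q ⟨g, hg⟩))
      (MonoidHom.mem_ker.1 hh)
    have h2 : Quotient.mk Q (h * ⟨g, hg⟩) = Quotient.mk Q ⟨g, hg⟩ := h1
    exact Quotient.exact h2

theorem locAb (hR : GoodRel S y R) (hy : Pro y) : LocAb (Subgroup.closure S) y := by
  obtain ⟨K, hKH, hfi, hK⟩ := hR.exists_kernel
  refine ⟨K, hKH, hfi, fun a ha b hb g hg => ?_⟩
  have haH := hKH ha
  have hbH := hKH hb
  -- the germs of `a` and `b` at `g y`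
  obtain ⟨α, hα, hα'⟩ := hR.germs hy haH (mul_mem hbH hg) hg (hK b hb g hg)
  obtain ⟨β, hβ, hβ'⟩ := hR.germs hy hbH (mul_mem haH hg) hg (hK a ha g hg)
  have hab := hβ'.comp hy hα
  have hba := hα'.comp hy hβ
  -- the commutator at `b a g y`
  have hc : GermAt y (b * a * g) (a * b * a⁻¹ * b⁻¹)
      (1, α.1 * β.2 + α.2 - (β.1 * α.2 + β.2)) := by
    obtain ⟨i, hi⟩ := hab
    obtain ⟨j, hj⟩ := hba
    refine ⟨max i j, fun n hn => ?_⟩
    have e1 := hi n (pro_deep hy (le_max_left _ _) hn)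
    have e2 := hj n (pro_deep hy (le_max_right _ _) hn)
    have e3 : (a * b * a⁻¹ * b⁻¹) ((b * a * g) n) = (a * b) (g n) := by
      simp [Equiv.Perm.mul_apply]
    have e4 : (b * a * g) n = (b * a) (g n) := rfl
    rw [e3, e4, e1, e2]
    ring
  have hcK : a * b * a⁻¹ * b⁻¹ ∈ K := mul_mem (mul_mem (mul_mem ha hb) (inv_mem ha)) (inv_mem hb)
  have hRg : R (b * a * g) g := hK _ (mul_mem hb ha) g hg
  obtain ⟨γ, hγ, hγ'⟩ := hR.germs hy (hKH hcK) (mul_mem (mul_mem hbH haH) hg) hg hRg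
  have e5 := GermAt.unique hy hγ hc
  rw [e5] at hγ'
  have e6 := hR.triv _ (hKH hcK) g hg (hK _ hcK g hg) _ hγ'
  rw [e6] at hγ'
  obtain ⟨i, hi⟩ := hγ'
  refine ⟨i, fun n hn => ?_⟩
  have e7 := hi n hn
  simp only [one_mul, add_zero] at e7
  exact_mod_cast e7

end GoodRel

end Pool.Agent.Lgp
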