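import Pool.Agent.Lgp.R1

/-!
# Ascents and steps
-/

namespace Pool.Agent.Lgp

open Pool.Agent.CTm Pool.Agent.Grm Filter Nat Topology

variable {S : Set (Equiv.Perm ℤ)} {M : Set (Ultrafilter ℤ)} {M0 : ℕ} {A : Finset (ℚ × ℚ)}
  {F : Finset ℚ} {a b L1 L2 : ℕ}

theorem Mnl.mem {H : Subgroup (Equiv.Perm ℤ)} (hM : Mnl H M) {g : Equiv.Perm ℤ} (hg : g ∈ H)
    {u : Ultrafilter ℤ} (hu : u ∈ M) : act g u ∈ M := hM.inv g hg u hu

theorem hit_fin (hM : Mnl (Subgroup.closure S) M) {v : Ultrafilter ℤ} (hv : v ∈ M) {r : ℤ} {Q : ℕ}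
    (hr : cl r Q ∈ v) : ∃ n : ℕ, ∀ x ∈ M, ∃ l, Ltr S l ∧ l.length ≤ n ∧ cl r Q ∈ act l.prod x := by
  classical
  obtain ⟨T, hT, hT'⟩ := finite_cover hM.closed (Ltr S)
    (fun l : List (Equiv.Perm ℤ) => l.prod ⁻¹' cl r Q) (by
      intro u hu
      obtain ⟨g, hg, h1⟩ := hM.hit hu hv hr
      obtain ⟨l, hl, rfl⟩ := list_of_closure hg
      exact ⟨l, hl, h1⟩)
  refine ⟨T.sup List.length, fun x hx => ?_⟩
  obtain ⟨l, hl, h1⟩ := hT' x hx
  exact ⟨l, hT l hl, Finset.le_sup (f := List.length) hl, h1⟩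

theorem up_fin (hCT : Subgroup.closure S ≤ CT) (hM : Mnl (Subgroup.closure S) M)
    (hup : ∀ u ∈ M, ∀ C : ℚ, ∃ h ∈ Subgroup.closure S, C ≤ sl u h) (C : ℚ) :
    ∃ n : ℕ, ∀ x ∈ M, ∃ l, Ltr S l ∧ l.length ≤ n ∧ C ≤ sl x l.prod := by
  classical
  obtain ⟨T, hT, hT'⟩ := finite_cover hM.closed
    (fun c : List (Equiv.Perm ℤ) × ℤ × ℕ => Ltr S c.1 ∧ ∀ v : Ultrafilter ℤ, cl c.2.1 c.2.2 ∈ v →
      C ≤ sl v c.1.prod)
    (fun c => cl c.2.1 c.2.2) (by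
      intro u hu
      obtain ⟨g, hg, h1⟩ := hup u hu C
      obtain ⟨l, hl, rfl⟩ := list_of_closure hg
      obtain ⟨r, Q, _, h2, h3⟩ := sl_loc (u := u) (hCT hg)
      refine ⟨(l, r, Q), ⟨hl, fun v hv => ?_⟩, h2⟩
      change C ≤ sl v l.prod
      rw [sl_eq (h3 v hv)]
      exact h1)
  refine ⟨T.sup fun c => c.1.length, fun x hx => ?_⟩
  obtain ⟨c, hc, h1⟩ := hT' x hx
  exact ⟨c.1, (hT c hc).1, Finset.le_sup (f := fun c : List (Equiv.Perm ℤ) × ℤ × ℕ => c.1.length) hc,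
    (hT c hc).2 x h1⟩

/-- the slopes along the word are at least `δ` and at most the final slope divided by `δ` -/
def UpW (δ : ℚ) (u : Ultrafilter ℤ) (l : List (Equiv.Perm ℤ)) : Prop :=
  ∀ l', l' <:+ l → δ ≤ sl u l'.prod ∧ sl u l'.prod * δ ≤ sl u l.prod

theorem UpW.append (hCT : Subgroup.closure S ≤ CT) {δ : ℚ} (hδ : 0 < δ)
    {u : Ultrafilter ℤ} {l l' : List (Equiv.Perm ℤ)} (hl : Ltr S l) (hl' : Ltr S l')
    (h : UpW δ (act l'.prod u) l) (h' : UpW δ u l') (h1 : 1 ≤ sl u l'.prod)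
    (h2 : 1 ≤ sl (act l'.prod u) l.prod) : UpW δ u (l ++ l') := by
  intro x hx
  rw [List.prod_append, sl_mul (hCT hl.mem) (hCT hl'.mem)]
  rcases suffix_app hx with h3 | ⟨y, hy, rfl⟩
  · obtain ⟨h4, h5⟩ := h' x h3
    refine ⟨h4, h5.trans ?_⟩
    exact le_mul_of_one_le_left (by linarith) h2
  · obtain ⟨h4, h5⟩ := h y hy
    rw [List.prod_append, sl_mul (hCT (hl.suffix hy).mem) (hCT hl'.mem)]
    have h6 : 0 < sl (act l'.prod u) y.prod := by linarith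
    refine ⟨h4.trans (le_mul_of_one_le_right h6.le h1), ?_⟩
    have h7 : sl (act l'.prod u) y.prod * sl u l'.prod * δ =
        (sl (act l'.prod u) y.prod * δ) * sl u l'.prod := by ring
    rw [h7]
    exact mul_le_mul_of_nonneg_right h5 (by linarith)

/-- ascents -/
def Asc (S : Set (Equiv.Perm ℤ)) (M : Set (Ultrafilter ℤ)) (δ : ℚ) (n0 : ℕ) : Prop :=
  0 < δ ∧ δ ≤ 1 ∧ ∀ n : ℕ, ∀ x ∈ M, ∃ l, Ltr S l ∧ l.length ≤ n0 * n ∧ 2 ^ n ≤ sl x l.prod ∧ UpW δ x l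

theorem exists_asc (hCT : Subgroup.closure S ≤ CT) (hd : Data S M0 A)
    (hM : Mnl (Subgroup.closure S) M)
    (hup : ∀ u ∈ M, ∀ C : ℚ, ∃ h ∈ Subgroup.closure S, C ≤ sl u h) :
    ∃ (δ : ℚ) (n0 : ℕ), Asc S M δ n0 := by
  obtain ⟨C, hC, hC'⟩ := letter_bound hd
  obtain ⟨n0, h0⟩ := up_fin hCT hM hup 2
  have hw : ∀ (u : Ultrafilter ℤ) (l : List (Equiv.Perm ℤ)), Ltr S l → l.length ≤ n0 →
      (C⁻¹) ^ n0 ≤ sl u l.prod ∧ sl u l.prod ≤ C ^ n0 := fun u l hl hn =>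
    word_bound hCT hC (fun u s hs => ⟨(hC' u s hs).1, (hC' u s hs).2.1⟩) u l hl hn
  have hC0 : 0 < C⁻¹ := inv_pos.2 (by linarith)
  have hC1 : (C⁻¹) ^ n0 ≤ 1 := pow_le_one₀ hC0.le (inv_le_one_of_one_le₀ hC)
  refine ⟨(C⁻¹) ^ n0, n0, pow_pos hC0 _, hC1, fun n => ?_⟩
  induction n with
  | zero =>
    intro x hx
    refine ⟨[], by intro x hx; simp at hx, by simp, by rw [List.prod_nil, sl_one, pow_zero], ?_⟩
    intro l' hl'
    rw [List.suffix_nil.1 hl', List.prod_nil, sl_one, one_mul]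
    exact ⟨hC1, hC1⟩
  | succ n ih =>
    intro x hx
    obtain ⟨l', h1, h2, h3, h4⟩ := ih x hx
    obtain ⟨l, k1, k2, k3⟩ := h0 _ (hM.mem h1.mem hx)
    have h5 : (1 : ℚ) ≤ 2 ^ n := one_le_pow₀ (by norm_num)
    refine ⟨l ++ l', k1.append h1, ?_, ?_, ?_⟩
    · rw [List.length_append]
      nlinarith
    · rw [List.prod_append, sl_mul (hCT k1.mem) (hCT h1.mem), _root_.pow_succ']
      exact mul_le_mul k3 h3 (by linarith) (by linarith)
    · refine UpW.append hCT (pow_pos hC0 _) k1 h1 ?_ h4 (by linarith) (by linarith)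
      intro y hy
      refine ⟨(hw _ y (k1.suffix hy) (hy.length_le.trans k2)).1, ?_⟩
      obtain ⟨z, rfl⟩ := hy
      have hz : Ltr S z := fun x hx => k1 x (List.mem_append_left _ hx)
      have hy : Ltr S y := fun x hx => k1 x (List.mem_append_right _ hx)
      rw [List.prod_append, sl_mul (hCT hz.mem) (hCT hy.mem), mul_comm]
      have h6 : 0 < sl (act l'.prod x) y.prod := sl_pos (hCT hy.mem)
      rw [List.length_append] at k2
      exact mul_le_mul_of_nonneg_right (hw _ z hz (by omega)).1 h6.le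

/-- a step: an ascent followed by a walk to a given class -/
theorem exists_step (hCT : Subgroup.closure S ≤ CT) (hd : Data S M0 A)
    (hM : Mnl (Subgroup.closure S) M) {δ : ℚ} {n0 : ℕ} (hA : Asc S M δ n0) {v : Ultrafilter ℤ}
    (hv : v ∈ M) {r : ℤ} {Q : ℕ} (hr : cl r Q ∈ v) (K : ℚ) :
    ∃ n : ℕ, ∀ x ∈ M, ∃ p, Ltr S p ∧ p.length ≤ n ∧ (∀ p', p' <:+ p → δ ≤ sl x p'.prod) ∧
      K ≤ sl x p.prod ∧ cl r Q ∈ act p.prod x := by
  obtain ⟨C, hC, hC'⟩ := letter_bound hd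
  obtain ⟨hδ, hδ1, hasc⟩ := hA
  obtain ⟨m, hm⟩ := hit_fin hM hv hr
  have hw : ∀ (u : Ultrafilter ℤ) (l : List (Equiv.Perm ℤ)), Ltr S l → l.length ≤ m →
      (C⁻¹) ^ m ≤ sl u l.prod ∧ sl u l.prod ≤ C ^ m := fun u l hl hn =>
    word_bound hCT hC (fun u s hs => ⟨(hC' u s hs).1, (hC' u s hs).2.1⟩) u l hl hn
  have hC0 : 0 < C⁻¹ := inv_pos.2 (by linarith)
  have hC1 : 0 < (C⁻¹) ^ m := pow_pos hC0 _
  obtain ⟨n, hn⟩ := pow_unbounded_of_one_lt ((max K 1) / (C⁻¹) ^ m) (one_lt_two : (1 : ℚ) < 2)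
  rw [div_lt_iff₀ hC1] at hn
  refine ⟨m + n0 * n, fun x hx => ?_⟩
  obtain ⟨l, h1, h2, h3, h4⟩ := hasc n x hx
  obtain ⟨g, k1, k2, k3⟩ := hm _ (hM.mem h1.mem hx)
  have hpos : (0 : ℚ) < 2 ^ n := by positivity
  refine ⟨g ++ l, k1.append h1, ?_, ?_, ?_, ?_⟩
  · rw [List.length_append]
    omega
  · intro p' hp'
    rcases suffix_app hp' with h5 | ⟨y, hy, rfl⟩
    · exact (h4 p' h5).1
    · rw [List.prod_append, sl_mul (hCT (k1.suffix hy).mem) (hCT h1.mem)]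
      have h6 := (hw (act l.prod x) y (k1.suffix hy) (hy.length_le.trans k2)).1
      have h7 : 2 ^ n * (C⁻¹) ^ m ≤ sl (act l.prod x) y.prod * sl x l.prod := by
        rw [mul_comm]
        exact mul_le_mul h6 h3 hpos.le (hC1.le.trans h6)
      have h8 := le_max_right K 1
      linarith
  · rw [List.prod_append, sl_mul (hCT k1.mem) (hCT h1.mem)]
    have h6 := (hw (act l.prod x) g k1 k2).1
    have h7 : 2 ^ n * (C⁻¹) ^ m ≤ sl (act l.prod x) g.prod * sl x l.prod := by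
      rw [mul_comm]
      exact mul_le_mul h6 h3 hpos.le (hC1.le.trans h6)
    have h8 := le_max_left K 1
    linarith
  · rw [List.prod_append, act_mul]
    exact k3

end Pool.Agent.Lgp
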