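import Pool.Agent.Lgp.Cont

/-!
# Ultrafilters on `ℤ` as points
-/

namespace Pool.Agent.Lgp

open Pool.Agent.CTm Pool.Agent.Grm Filter Nat

/-- the residue class of `r` modulo `Q` -/
def cl (r : ℤ) (Q : ℕ) : Set ℤ := {n : ℤ | (Q : ℤ) ∣ n - r}

theorem mem_cl {r n : ℤ} {Q : ℕ} : n ∈ cl r Q ↔ (Q : ℤ) ∣ n - r := Iff.rfl

theorem cl_self (r : ℤ) (Q : ℕ) : r ∈ cl r Q := by
  rw [mem_cl, sub_self]
  exact dvd_zero _

theorem cl_eq {r s : ℤ} {Q : ℕ} (h : s ∈ cl r Q) : cl s Q = cl r Q := by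
  ext n
  rw [mem_cl, mem_cl]
  rw [mem_cl] at h
  constructor
  · intro h1
    have := dvd_add h1 h
    rwa [sub_add_sub_cancel] at this
  · intro h1
    have := dvd_sub h1 h
    rwa [sub_sub_sub_cancel_right] at this

theorem cl_sub {r s : ℤ} {Q Q' : ℕ} (h : s ∈ cl r Q) (hQ : Q ∣ Q') : cl s Q' ⊆ cl r Q := by
  intro n hn
  rw [← cl_eq h]
  exact (Int.natCast_dvd_natCast.2 hQ).trans hn

/-- the action on ultrafilters -/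
def act (g : Equiv.Perm ℤ) (u : Ultrafilter ℤ) : Ultrafilter ℤ := u.map g

theorem mem_act {g : Equiv.Perm ℤ} {u : Ultrafilter ℤ} {A : Set ℤ} :
    A ∈ act g u ↔ g ⁻¹' A ∈ u := Iff.rfl

theorem act_mul (g h : Equiv.Perm ℤ) (u : Ultrafilter ℤ) : act (g * h) u = act g (act h u) := by
  apply Ultrafilter.ext
  intro A
  rfl

theorem act_one (u : Ultrafilter ℤ) : act 1 u = u := by
  apply Ultrafilter.ext
  intro A
  rfl

theorem exists_cl (u : Ultrafilter ℤ) (Q : ℕ) (hQ : 0 < Q) : ∃ r : ℤ, cl r Q ∈ u := by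
  have : NeZero Q := ⟨hQ.ne'⟩
  obtain ⟨a, ha⟩ := Ultrafilter.eq_pure_of_finite (u.map (fun n : ℤ => (n : ZMod Q)))
  obtain ⟨r, rfl⟩ := ZMod.intCast_surjective a
  refine ⟨r, ?_⟩
  have h1 : {x : ZMod Q | x = (r : ZMod Q)} ∈ u.map (fun n : ℤ => (n : ZMod Q)) := by
    rw [ha]
    exact Ultrafilter.mem_pure.2 rfl
  rw [Ultrafilter.mem_map] at h1
  refine mem_of_superset h1 ?_
  intro n hn
  have h2 : (n : ZMod Q) = (r : ZMod Q) := hn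
  rw [mem_cl, ← ZMod.intCast_zmod_eq_zero_iff_dvd, Int.cast_sub, h2, sub_self]

theorem nonempty_of_mem {u : Ultrafilter ℤ} {A : Set ℤ} (h : A ∈ u) : A.Nonempty :=
  u.nonempty_of_mem h

theorem cl_inter {u : Ultrafilter ℤ} {r s : ℤ} {Q Q' : ℕ} (h : cl r Q ∈ u) (h' : cl s Q' ∈ u) :
    ∃ n, n ∈ cl r Q ∧ n ∈ cl s Q' := nonempty_of_mem (inter_mem h h')

theorem cl_mem_sub {u : Ultrafilter ℤ} {r s : ℤ} {Q Q' : ℕ} (h : cl r Q ∈ u) (h' : cl s Q' ∈ u)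
    (hQ : Q ∣ Q') : cl s Q' ⊆ cl r Q := by
  obtain ⟨n, h1, h2⟩ := cl_inter h h'
  rw [← cl_eq h2]
  exact cl_sub h1 hQ

theorem cl_coarse {u : Ultrafilter ℤ} {r : ℤ} {Q Q' : ℕ} (h : cl r Q' ∈ u) (hQ : Q ∣ Q') :
    cl r Q ∈ u := by
  refine mem_of_superset h ?_
  exact cl_sub (cl_self r Q) hQ

/-- the germ of `h` at `u` -/
def Gm (u : Ultrafilter ℤ) (h : Equiv.Perm ℤ) (a : ℚ × ℚ) : Prop :=
  ∃ (r : ℤ) (Q : ℕ), 0 < Q ∧ cl r Q ∈ u ∧ ∀ n ∈ cl r Q, ((h n : ℤ) : ℚ) = a.1 * n + a.2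

theorem exists_gm {h : Equiv.Perm ℤ} (hh : Rcwa h) (u : Ultrafilter ℤ) :
    ∃ a : ℚ × ℚ, 0 < a.1 ∧ Gm u h a := by
  obtain ⟨M, hM, h1⟩ := hh
  obtain ⟨r, hr⟩ := exists_cl u M hM
  obtain ⟨σ, τ, hσ, h2⟩ := h1 r
  exact ⟨(σ, τ), hσ, r, M, hM, hr, fun n hn => h2 n hn⟩

theorem Gm.unique {u : Ultrafilter ℤ} {h : Equiv.Perm ℤ} {a b : ℚ × ℚ} (ha : Gm u h a)
    (hb : Gm u h b) : a = b := by
  obtain ⟨r, Q, hQ, h1, h2⟩ := ha
  obtain ⟨s, Q', hQ', h1', h2'⟩ := hb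
  obtain ⟨n, hn, hn'⟩ := cl_inter h1 h1'
  have hm : n + ((Q * Q' : ℕ) : ℤ) ∈ cl r Q := by
    rw [← cl_eq hn, mem_cl, add_sub_cancel_left]
    exact Int.natCast_dvd_natCast.2 (Dvd.intro _ rfl)
  have hm' : n + ((Q * Q' : ℕ) : ℤ) ∈ cl s Q' := by
    rw [← cl_eq hn', mem_cl, add_sub_cancel_left]
    exact Int.natCast_dvd_natCast.2 (Dvd.intro_left _ rfl)
  have e1 := h2 _ hn
  have e2 := h2' _ hn'
  have e3 := h2 _ hm
  have e4 := h2' _ hm'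
  rw [e1] at e2
  rw [e3] at e4
  have hf : (0 : ℚ) < ((Q * Q' : ℕ) : ℚ) := by exact_mod_cast Nat.mul_pos hQ hQ'
  push_cast at e4
  have e5 : (a.1 - b.1) * ((Q * Q' : ℕ) : ℚ) = 0 := by
    push_cast
    linear_combination e4 - e2
  have e6 : a.1 = b.1 := by
    rcases mul_eq_zero.1 e5 with h | h
    · linarith
    · exact absurd h hf.ne'
  have e7 : a.2 = b.2 := by
    rw [e6] at e2
    linarith
  exact Prod.ext e6 e7

/-- a map which is affine on a class maps finer classes into classes -/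
theorem aff_maps {h : Equiv.Perm ℤ} {r : ℤ} {Q : ℕ} {a : ℚ × ℚ}
    (h1 : ∀ n ∈ cl r Q, ((h n : ℤ) : ℚ) = a.1 * n + a.2) {n m : ℤ} {Q' : ℕ} (hn : n ∈ cl r Q)
    (hm : m ∈ cl n (Q * Q')) : h m ∈ cl (h n) Q' := by
  have hm1 : m ∈ cl r Q := by
    rw [← cl_eq hn]
    exact cl_sub (cl_self n Q) (Dvd.intro _ rfl) hm
  have hn1 : n + Q ∈ cl r Q := by
    rw [← cl_eq hn, mem_cl, add_sub_cancel_left]
  have e1 := h1 _ hn
  have e2 := h1 _ hm1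
  have e3 := h1 _ hn1
  obtain ⟨k, hk⟩ := hm
  refine ⟨(h (n + Q) - h n) * k, ?_⟩
  have h5 : ((h m - h n : ℤ) : ℚ) = (((Q' : ℤ) * ((h (n + Q) - h n) * k) : ℤ) : ℚ) := by
    have h6 : ((m - n : ℤ) : ℚ) = ((((Q * Q' : ℕ)) : ℤ) * k : ℤ) := by rw [hk]
    push_cast at h6 e3 ⊢
    rw [e1, e2, e3]
    linear_combination a.1 * h6
  exact_mod_cast h5

theorem Gm.comp {u : Ultrafilter ℤ} {h g : Equiv.Perm ℤ} {a b : ℚ × ℚ} (ha : Gm u h a)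
    (hb : Gm (act h u) g b) : Gm u (g * h) (b.1 * a.1, b.1 * a.2 + b.2) := by
  obtain ⟨r, Q, hQ, h1, h2⟩ := ha
  obtain ⟨s, Q', hQ', h1', h2'⟩ := hb
  obtain ⟨t, ht⟩ := exists_cl u (Q * Q') (Nat.mul_pos hQ hQ')
  have hsub := cl_mem_sub h1 ht (Dvd.intro _ rfl)
  obtain ⟨n, hn, hn'⟩ := nonempty_of_mem (inter_mem ht (mem_act.1 h1'))
  refine ⟨t, Q * Q', Nat.mul_pos hQ hQ', ht, fun m hm => ?_⟩
  have hm' : m ∈ cl n (Q * Q') := by rw [cl_eq hn]; exact hm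
  have e1 := aff_maps h2 (hsub hn) hm'
  have hn2 : h n ∈ cl s Q' := hn'
  rw [cl_eq hn2] at e1
  rw [Equiv.Perm.mul_apply, h2' _ e1, h2 _ (hsub hm)]
  ring

theorem Gm.one (u : Ultrafilter ℤ) : Gm u 1 (1, 0) := by
  obtain ⟨r, hr⟩ := exists_cl u 1 one_pos
  exact ⟨r, 1, one_pos, hr, fun n _ => by simp⟩

open Classical in
/-- the slope of `h` at `u` -/
noncomputable def sl (u : Ultrafilter ℤ) (h : Equiv.Perm ℤ) : ℚ :=
  if hh : ∃ a : ℚ × ℚ, Gm u h a then hh.choose.1 else 1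

open Classical in
/-- the translation part of `h` at `u` -/
noncomputable def tr (u : Ultrafilter ℤ) (h : Equiv.Perm ℤ) : ℚ :=
  if hh : ∃ a : ℚ × ℚ, Gm u h a then hh.choose.2 else 0

theorem sl_eq {u : Ultrafilter ℤ} {h : Equiv.Perm ℤ} {a : ℚ × ℚ} (ha : Gm u h a) :
    sl u h = a.1 := by
  have hh : ∃ a : ℚ × ℚ, Gm u h a := ⟨a, ha⟩
  unfold sl
  rw [dif_pos hh, Gm.unique hh.choose_spec ha]

theorem tr_eq {u : Ultrafilter ℤ} {h : Equiv.Perm ℤ} {a : ℚ × ℚ} (ha : Gm u h a) :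
    tr u h = a.2 := by
  have hh : ∃ a : ℚ × ℚ, Gm u h a := ⟨a, ha⟩
  unfold tr
  rw [dif_pos hh, Gm.unique hh.choose_spec ha]

theorem gm_sl {u : Ultrafilter ℤ} {h : Equiv.Perm ℤ} (hh : h ∈ CT) : Gm u h (sl u h, tr u h) := by
  obtain ⟨a, _, ha⟩ := exists_gm (rcwa_of_CT hh) u
  rw [sl_eq ha, tr_eq ha]
  exact ha

theorem sl_pos {u : Ultrafilter ℤ} {h : Equiv.Perm ℤ} (hh : h ∈ CT) : 0 < sl u h := by
  obtain ⟨a, h0, ha⟩ := exists_gm (rcwa_of_CT hh) u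
  rw [sl_eq ha]
  exact h0

theorem sl_mul {u : Ultrafilter ℤ} {g h : Equiv.Perm ℤ} (hg : g ∈ CT) (hh : h ∈ CT) :
    sl u (g * h) = sl (act h u) g * sl u h := by
  have h1 := (gm_sl (u := u) hh).comp (gm_sl (u := act h u) hg)
  rw [sl_eq h1]

theorem tr_mul {u : Ultrafilter ℤ} {g h : Equiv.Perm ℤ} (hg : g ∈ CT) (hh : h ∈ CT) :
    tr u (g * h) = sl (act h u) g * tr u h + tr (act h u) g := by
  have h1 := (gm_sl (u := u) hh).comp (gm_sl (u := act h u) hg)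
  rw [tr_eq h1]

theorem sl_one (u : Ultrafilter ℤ) : sl u 1 = 1 := sl_eq (Gm.one u)

theorem tr_one (u : Ultrafilter ℤ) : tr u 1 = 0 := tr_eq (Gm.one u)

/-- the germ is locally constant -/
theorem sl_loc {u : Ultrafilter ℤ} {h : Equiv.Perm ℤ} (hh : h ∈ CT) :
    ∃ (r : ℤ) (Q : ℕ), 0 < Q ∧ cl r Q ∈ u ∧ ∀ v : Ultrafilter ℤ, cl r Q ∈ v →
      Gm v h (sl u h, tr u h) := by
  obtain ⟨r, Q, hQ, h1, h2⟩ := gm_sl (u := u) hh
  exact ⟨r, Q, hQ, h1, fun v hv => ⟨r, Q, hQ, hv, h2⟩⟩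

/-- `x` is the sequence of the residues of `u` -/
def Rep (u : Ultrafilter ℤ) (x : ℕ → ℤ) : Prop := ∀ j : ℕ, cl (x j) (j !) ∈ u

theorem Rep.pro {u : Ultrafilter ℤ} {x : ℕ → ℤ} (h : Rep u x) : Pro x := by
  intro j
  obtain ⟨n, h1, h2⟩ := cl_inter (h j) (h (j + 1))
  rw [mem_cl] at h1 h2
  have h3 : ((j ! : ℕ) : ℤ) ∣ n - x (j + 1) :=
    (Int.natCast_dvd_natCast.2 (Nat.factorial_dvd_factorial (Nat.le_succ j))).trans h2
  have h4 := dvd_sub h1 h3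
  rwa [sub_sub_sub_cancel_left] at h4

theorem exists_rep (u : Ultrafilter ℤ) : ∃ x : ℕ → ℤ, Rep u x := by
  have h : ∀ j : ℕ, ∃ r : ℤ, cl r (j !) ∈ u := fun j => exists_cl u _ (Nat.factorial_pos j)
  choose x hx using h
  exact ⟨x, hx⟩

theorem exists_uf {x : ℕ → ℤ} (hx : Pro x) : ∃ u : Ultrafilter ℤ, Rep u x := by
  refine ⟨(hyperfilter ℕ).map x, fun j => ?_⟩
  rw [Ultrafilter.mem_map]
  have h1 : {i : ℕ | j ≤ i} ∈ (hyperfilter ℕ : Filter ℕ) := by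
    apply Filter.mem_of_superset (Nat.hyperfilter_le_atTop (Filter.mem_atTop j))
    exact fun i hi => hi
  refine mem_of_superset h1 ?_
  intro i hi
  exact Pro.coh hx hi

theorem Rep.cl_mem {u : Ultrafilter ℤ} {x : ℕ → ℤ} (h : Rep u x) {r : ℤ} {Q : ℕ} (hQ : 0 < Q)
    (hr : cl r Q ∈ u) : ∃ i0 : ℕ, ∀ i : ℕ, i0 ≤ i → cl (x i) (i !) ⊆ cl r Q := by
  refine ⟨Q, fun i hi => cl_mem_sub hr (h i) ?_⟩
  exact (Nat.dvd_factorial hQ le_rfl).trans (Nat.factorial_dvd_factorial hi)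

theorem Gm.germ {u : Ultrafilter ℤ} {x : ℕ → ℤ} (hx : Rep u x) {h : Equiv.Perm ℤ} {a : ℚ × ℚ}
    (ha : Gm u h a) : Germ x h a := by
  obtain ⟨r, Q, hQ, h1, h2⟩ := ha
  obtain ⟨i, hi⟩ := hx.cl_mem hQ h1
  exact ⟨i, fun n hn => h2 n (hi i le_rfl hn)⟩

theorem gm_of_germ {u : Ultrafilter ℤ} {x : ℕ → ℤ} (hx : Rep u x) {h : Equiv.Perm ℤ} {a : ℚ × ℚ}
    (ha : Germ x h a) : Gm u h a := by
  obtain ⟨i, hi⟩ := ha
  exact ⟨x i, i !, Nat.factorial_pos i, hx i, fun n hn => hi n hn⟩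

end Pool.Agent.Lgp
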